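import Mathlib

set_option autoImplicit false
set_option linter.unusedSectionVars false

open Matrix

namespace Pool.Agent.H386.Alg

lemma trace_of_expand {V : Type*} [AddCommGroup V] [Module ℂ V] [FiniteDimensional ℂ V]
    {ι : Type*} [Fintype ι] (φ : ι → (V →ₗ[ℂ] ℂ)) (v : ι → V) (h : ∀ x, x = ∑ b, φ b x • v b)
    (T : V →ₗ[ℂ] V) : LinearMap.trace ℂ V T = ∑ b, φ b (T (v b)) := by
  have h2 : T = ∑ b, (φ b).smulRight (T (v b)) := by
    ext x
    conv_lhs => rw [h x, map_sum]
    simp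
  conv_lhs => rw [h2, map_sum]
  simp

/-- two sided multiplication -/
def bimul {A : Type*} [Ring A] [Algebra ℂ A] (y k : A) : A →ₗ[ℂ] A :=
  LinearMap.mulLeft ℂ y ∘ₗ LinearMap.mulRight ℂ k

lemma bimul_apply {A : Type*} [Ring A] [Algebra ℂ A] (y k x : A) : bimul y k x = y * (x * k) := rfl

lemma trace_pi_matrix {n : ℕ} (d : Fin n → ℕ) (y k : Π i, Matrix (Fin (d i)) (Fin (d i)) ℂ) :
    LinearMap.trace ℂ _ (bimul y k) = ∑ i, (y i).trace * (k i).trace := by
  let φ : (Σ i, Fin (d i) × Fin (d i)) → ((Π i, Matrix (Fin (d i)) (Fin (d i)) ℂ) →ₗ[ℂ] ℂ) :=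
    fun b => (Matrix.entryLinearMap ℂ ℂ b.2.1 b.2.2) ∘ₗ (LinearMap.proj b.1)
  let v : (Σ i, Fin (d i) × Fin (d i)) → (Π i, Matrix (Fin (d i)) (Fin (d i)) ℂ) :=
    fun b => Pi.single b.1 (Matrix.single b.2.1 b.2.2 1)
  have hφ : ∀ b x, φ b x = x b.1 b.2.1 b.2.2 := fun b x => rfl
  have h : ∀ x, x = ∑ b, φ b x • v b := by
    intro x
    funext i
    rw [Finset.sum_apply, Fintype.sum_sigma, Finset.sum_eq_single i]
    · rw [Fintype.sum_prod_type]
      conv_lhs => rw [Matrix.matrix_eq_sum_single (x i)]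
      refine Finset.sum_congr rfl fun a _ => Finset.sum_congr rfl fun b _ => ?_
      simp [hφ, v]
    · intro j _ hj
      refine Finset.sum_eq_zero fun b _ => ?_
      simp [v, Pi.single_eq_of_ne (Ne.symm hj)]
    · intro h; exact absurd (Finset.mem_univ _) h
  rw [trace_of_expand φ v h, Fintype.sum_sigma]
  refine Finset.sum_congr rfl fun i _ => ?_
  rw [Fintype.sum_prod_type, Matrix.trace, Matrix.trace, Finset.sum_mul_sum]
  refine Finset.sum_congr rfl fun a _ => Finset.sum_congr rfl fun b _ => ?_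
  rw [hφ, bimul_apply]
  simp only [v, Pi.mul_apply, Pi.single_eq_same, Matrix.mul_apply, Matrix.single_apply,
    Matrix.diag, ite_mul, one_mul, zero_mul]
  rw [Finset.sum_eq_single a, Finset.sum_eq_single b]
  · simp
  · intro c _ hc
    simp [hc.symm]
  · intro h; exact absurd (Finset.mem_univ _) h
  · intro c _ hc
    simp [hc.symm]
  · intro h; exact absurd (Finset.mem_univ _) h

section semisimple

variable {A : Type*} [Ring A] [Algebra ℂ A] [FiniteDimensional ℂ A]

lemma bimul_pow (x k : A) (n : ℕ) : (bimul x k) ^ n = bimul (x ^ n) (k ^ n) := by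
  induction n with
  | zero => ext a; simp [bimul_apply]
  | succ n ih =>
    ext a
    rw [pow_succ, ih, Module.End.mul_apply, bimul_apply, bimul_apply, bimul_apply, pow_succ,
      pow_succ']
    simp only [mul_assoc]

lemma trace_bimul_nilpotent (x k : A) (hx : IsNilpotent x) :
    LinearMap.trace ℂ A (bimul x k) = 0 := by
  obtain ⟨n, hn⟩ := hx
  have h : IsNilpotent (bimul x k) := ⟨n, by rw [bimul_pow, hn]; ext a; simp [bimul_apply]⟩
  exact (LinearMap.isNilpotent_trace_of_isNilpotent h).eq_zero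

theorem semisimple_of_form (k : A)
    (h : ∀ x : A, x ≠ 0 → ∃ y, LinearMap.trace ℂ A (bimul (y * x) k) ≠ 0) : IsSemisimpleRing A := by
  have : IsArtinianRing A := IsArtinianRing.of_finite ℂ A
  rw [IsArtinianRing.isSemisimpleRing_iff_jacobson, eq_bot_iff]
  intro x hx
  by_contra hne
  obtain ⟨y, hy⟩ := h x hne
  apply hy
  apply trace_bimul_nilpotent
  have hmem : y * x ∈ Ring.jacobson A := Ideal.mul_mem_left _ y hx
  obtain ⟨n, hn⟩ := IsSemiprimaryRing.isNilpotent (R := A)
  refine ⟨n, ?_⟩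
  have h2 : (y * x) ^ n ∈ (Ring.jacobson A) ^ n := Ideal.pow_mem_pow hmem n
  rw [hn] at h2
  exact h2

end semisimple

/-- the trace of an idempotent matrix is a natural number -/
lemma trace_idempotent {n : ℕ} (M : Matrix (Fin n) (Fin n) ℂ) (h : IsIdempotentElem M) :
    ∃ r : ℕ, M.trace = r := by
  have h2 : IsIdempotentElem (Matrix.toLin' M) := by
    unfold IsIdempotentElem
    rw [Module.End.mul_eq_comp, ← Matrix.toLin'_mul, h.eq]
  refine ⟨Module.finrank ℂ (LinearMap.range (Matrix.toLin' M)), ?_⟩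
  rw [← (LinearMap.IsIdempotentElem.isProj_range _ h2).trace, Matrix.trace_toLin'_eq]

/-- a central element of a product of matrix algebras is a scalar in every factor -/
lemma central_scalar {n : ℕ} (d : Fin n → ℕ) (t : Π i, Matrix (Fin (d i)) (Fin (d i)) ℂ)
    (ht : ∀ x, t * x = x * t) (i : Fin n) : ∃ μ : ℂ, t i = μ • 1 := by
  have h := Matrix.mem_range_scalar_of_commute_single (M := t i) (by
    intro a b _
    have h1 := congrFun (ht (Pi.single i (Matrix.single a b 1))) i
    simp only [Pi.mul_apply, Pi.single_eq_same] at h1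
    exact h1.symm)
  obtain ⟨μ, hμ⟩ := h
  refine ⟨μ, ?_⟩
  rw [← hμ, Matrix.scalar_apply, Matrix.smul_one_eq_diagonal]

end Pool.Agent.H386.Alg
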