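import Mathlib

set_option autoImplicit false

namespace Pool.Agent.H386

/-- automorphisms of the field of algebraic numbers extend to the complex numbers. -/
lemma exists_aut_of_algebraicClosure
    (τ : algebraicClosure ℚ ℂ ≃ₐ[ℚ] algebraicClosure ℚ ℂ) :
    ∃ σ : ℂ ≃+* ℂ, ∀ x : algebraicClosure ℚ ℂ, σ x = (τ x : ℂ) := by
  obtain ⟨s, hs⟩ := exists_isTranscendenceBasis (algebraicClosure ℚ ℂ) ℂ
  letI := IsAlgClosed.isAlgClosure_of_transcendence_basis ((↑) : s → ℂ) hs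
  let e : Algebra.adjoin (algebraicClosure ℚ ℂ) (Set.range ((↑) : s → ℂ)) ≃+*
      Algebra.adjoin (algebraicClosure ℚ ℂ) (Set.range ((↑) : s → ℂ)) :=
    (hs.1.aevalEquiv.symm.toRingEquiv.trans (MvPolynomial.mapEquiv s τ.toRingEquiv)).trans
      hs.1.aevalEquiv.toRingEquiv
  refine ⟨IsAlgClosure.equivOfEquiv ℂ ℂ e, ?_⟩
  intro x
  have h1 := IsAlgClosure.equivOfEquiv_algebraMap ℂ ℂ e
    (algebraMap (algebraicClosure ℚ ℂ) _ x)
  have h2 : e (algebraMap (algebraicClosure ℚ ℂ) _ x) =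
      algebraMap (algebraicClosure ℚ ℂ) _ (τ x) := by
    simp only [e, RingEquiv.trans_apply]
    have h3 : hs.1.aevalEquiv.symm.toRingEquiv (algebraMap (algebraicClosure ℚ ℂ) _ x) =
        MvPolynomial.C x := by
      exact hs.1.aevalEquiv.symm.commutes x
    rw [h3]
    have h4 : MvPolynomial.mapEquiv s τ.toRingEquiv (MvPolynomial.C x) =
        MvPolynomial.C (τ x) := by
      rw [MvPolynomial.mapEquiv_apply, MvPolynomial.map_C]
      rfl
    rw [h4]
    exact hs.1.aevalEquiv.commutes (τ x)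
  rw [h2] at h1
  exact h1

/-- embeddings of number fields in `ℂ` extend to automorphisms of `ℂ`. -/
theorem exists_aut (E : IntermediateField ℚ ℂ) [FiniteDimensional ℚ E] (φ : E →ₐ[ℚ] ℂ) :
    ∃ σ : ℂ ≃+* ℂ, ∀ x : E, σ x = φ x := by
  have hle : E ≤ algebraicClosure ℚ ℂ := by
    intro x hx
    rw [mem_algebraicClosure_iff]
    have h1 : IsAlgebraic ℚ (⟨x, hx⟩ : E) := Algebra.IsAlgebraic.isAlgebraic _
    exact h1.algebraMap (A := ℂ)
  have hφ : ∀ x : E, φ x ∈ algebraicClosure ℚ ℂ := by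
    intro x
    rw [mem_algebraicClosure_iff]
    exact (Algebra.IsAlgebraic.isAlgebraic (R := ℚ) x).algHom φ
  let ψ : E →ₐ[ℚ] algebraicClosure ℚ ℂ :=
    φ.codRestrict (algebraicClosure ℚ ℂ).toSubalgebra hφ
  letI : Algebra E (algebraicClosure ℚ ℂ) := (IntermediateField.inclusion hle).toRingHom.toAlgebra
  haveI : IsScalarTower ℚ E (algebraicClosure ℚ ℂ) := IsScalarTower.of_algebraMap_eq (fun x => rfl)
  haveI : IsAlgClosure ℚ (algebraicClosure ℚ ℂ) := algebraicClosure.isAlgClosure ℚ ℂ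
  haveI : Normal ℚ (algebraicClosure ℚ ℂ) := IsAlgClosure.normal ℚ _
  let ψ' : algebraicClosure ℚ ℂ →ₐ[ℚ] algebraicClosure ℚ ℂ := ψ.liftNormal _
  have hbij : Function.Bijective ψ' := Algebra.IsAlgebraic.algHom_bijective ψ'
  obtain ⟨σ, hσ⟩ := exists_aut_of_algebraicClosure (AlgEquiv.ofBijective ψ' hbij)
  refine ⟨σ, fun x => ?_⟩
  have h1 := hσ (IntermediateField.inclusion hle x)
  have h2 : ψ' (IntermediateField.inclusion hle x) = ψ x := AlgHom.liftNormal_commutes ψ _ x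
  rw [AlgEquiv.ofBijective_apply, h2] at h1
  exact h1

end Pool.Agent.H386
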