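import Pool.Agent.H386.Twist

set_option autoImplicit false
set_option linter.unusedSectionVars false

open CategoryTheory CategoryTheory.Limits MonoidalCategory

namespace Pool.Agent.H386

universe v u

variable {C : Type u} [Category.{v} C] [Abelian C] [Linear ℂ C]
    [MonoidalCategory C] [MonoidalPreadditive C] [MonoidalLinear ℂ C] [RigidCategory C]

namespace Ctx

variable (K : Ctx C)

/-- the Galois conjugate of the dimension character -/
def conjChr (τ : ℂ ≃+* ℂ) : K.Chr where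
  c X := τ (K.dim X)
  mul X Y := by rw [K.dim_tensor, map_mul]
  dual X := by rw [K.dim_dual]
  dec X d := by rw [K.dim_dec d, map_sum]
  unit := by rw [K.dim_unit, map_one]

lemma one_conj (τ : ℂ ≃+* ℂ) :
    8 * (∑ a, (K.dim (K.S a)).re ^ 2) / (∑ a, (τ (K.dim (K.S a))).re ^ 2) ^ 2 ≤
      3 * (∑ a, (K.dim (K.S a)).re ^ 2) + 4 +
        ∑ a, (K.δ.nu (K.S a) : ℝ) * (K.dim (K.S a)).re :=
  K.key_inequality (K.conjChr τ)

lemma codeg_conj (τ : ℂ ≃+* ℂ) : ∃ r : Fin K.n → ℕ,
    (∑ a, (K.dim (K.S a)).re ^ 2) / (∑ a, (τ (K.dim (K.S a))).re ^ 2) =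
      ∑ a, (r a : ℝ) * (K.dim (K.S a)).re :=
  K.codegree (K.conjChr τ)

lemma orth_conj (σ τ : ℂ ≃+* ℂ) (h : ∃ a, σ (K.dim (K.S a)) ≠ τ (K.dim (K.S a))) :
    ∑ a, (σ (K.dim (K.S a))).re * (τ (K.dim (K.S a))).re = 0 := by
  obtain ⟨a, ha⟩ := h
  exact K.orthogonal (K.conjChr σ) (K.conjChr τ) (K.S a) ha

lemma dim_real (X : C) : ((K.dim X).re : ℂ) = K.dim X := K.dimChr.real X

lemma dim_real' (τ : ℂ ≃+* ℂ) (X : C) : ((τ (K.dim X)).re : ℂ) = τ (K.dim X) :=
  (K.conjChr τ).real X

lemma dim_integral (V : C) : IsIntegral ℤ (K.dim V) := by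
  classical
  let N : Submodule ℤ ℂ := Submodule.span ℤ (Set.range fun j => K.dim (K.S j))
  refine isIntegral_of_smul_mem_submodule (R := ℤ) (A := ℂ) (M := ℂ) N ?_ ?_ (K.dim V) ?_
  · intro h0
    obtain ⟨j, ⟨e⟩⟩ := K.hS.complete (𝟙_ C) K.one
    have h1 : K.dim (K.S j) ∈ N := Submodule.subset_span ⟨j, rfl⟩
    rw [h0, Submodule.mem_bot] at h1
    have := K.simple j
    exact K.dim_ne_zero (K.S j) h1
  · exact ⟨Finset.univ.image fun j => K.dim (K.S j), by simp [N]⟩
  · intro x hx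
    induction hx using Submodule.span_induction with
    | mem x hx =>
      obtain ⟨j, rfl⟩ := hx
      have h1 := K.dimChr.mul_expand V j
      change K.dim V * K.dim (K.S j) = _ at h1
      change K.dim V * K.dim (K.S j) ∈ N
      rw [h1]
      refine Submodule.sum_mem _ fun k _ => ?_
      have h2 : (Module.finrank ℂ (K.S k ⟶ V ⊗ K.S j) : ℂ) * K.dimChr.c (K.S k) =
          (Module.finrank ℂ (K.S k ⟶ V ⊗ K.S j) : ℤ) • K.dim (K.S k) := by
        simp only [zsmul_eq_mul, Int.cast_natCast]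
        rfl
      rw [h2]
      exact Submodule.smul_mem _ _ (Submodule.subset_span ⟨k, rfl⟩)
    | zero => rw [smul_zero]; exact Submodule.zero_mem _
    | add x y _ _ hx hy => rw [smul_add]; exact Submodule.add_mem _ hx hy
    | smul a x _ hx =>
      rw [smul_comm]
      exact Submodule.smul_mem _ _ hx

lemma twist_dim (σ : ℂ ≃+* ℂ) (X : C) :
    @Ctx.dim C _ _ (twistLinear σ) _ _ (twistMonoidal σ) _ (K.twist σ) X = σ.symm (K.dim X) :=
  rfl

theorem dimData : DimData K.n (fun a => K.dim (K.S a)) (fun a => K.δ.nu (K.S a)) where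
  int a := K.dim_integral _
  one := by
    obtain ⟨j, ⟨e⟩⟩ := K.hS.complete (𝟙_ C) K.one
    exact ⟨j, by rw [← K.dim_iso e, K.dim_unit]⟩
  ne a := by
    have := K.simple a
    exact K.dim_ne_zero _
  nu a := K.δ.nu_cases _
  real σ a := K.dim_real' σ _
  star σ τ := by
    have h := @Ctx.one_conj C _ _ (twistLinear σ.symm) _ _ (twistMonoidal σ.symm) _
      (K.twist σ.symm) (σ.symm.trans τ)
    simp only [twist_dim] at h
    simp only [RingEquiv.symm_symm] at h
    have e : ∀ X : C, (σ.symm.trans τ) (σ (K.dim X)) = τ (K.dim X) := by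
      intro X
      rw [RingEquiv.trans_apply, RingEquiv.symm_apply_apply]
    simp only [e] at h
    exact h
  codeg σ τ := by
    have h := @Ctx.codeg_conj C _ _ (twistLinear σ.symm) _ _ (twistMonoidal σ.symm) _
      (K.twist σ.symm) (σ.symm.trans τ)
    simp only [twist_dim] at h
    simp only [RingEquiv.symm_symm] at h
    have e : ∀ X : C, (σ.symm.trans τ) (σ (K.dim X)) = τ (K.dim X) := by
      intro X
      rw [RingEquiv.trans_apply, RingEquiv.symm_apply_apply]
    simp only [e] at h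
    exact h
  orth σ τ h := K.orth_conj σ τ h

end Ctx

end Pool.Agent.H386
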