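import Pool.Agent.H386.Num2
import Pool.Agent.H386.Twist2

set_option autoImplicit false
set_option linter.unusedSectionVars false

open CategoryTheory CategoryTheory.Limits MonoidalCategory

namespace Pool.Agent.H386

universe v u

/-- every global dimension of a spherical fusion category comes from dimension data -/
theorem exists_dimData {x : ℝ} (hx : x ∈ sphericalDims.{v, u}) :
    ∃ (n : ℕ) (d : Fin n → ℂ) (ν : Fin n → ℤ), DimData n d ν ∧ dv d (RingEquiv.refl ℂ) = x := by
  obtain ⟨C, i1, i2, i3, i4, i5, i6, i7, hC, δ, hδ, n, S, d, hS, hd, hx⟩ := hx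
  obtain ⟨K, rfl, h, hKS⟩ := exists_ctx hC δ hδ S hS
  subst h
  have hdim : ∀ i, d i = K.dim (K.S i) := by
    intro i
    have h1 := hd i
    have h2 : K.S i = S i := hKS i
    rw [← h2, K.qdim_eq] at h1
    have h3 := congrArg K.sc h1
    simp only [map_smul, K.sc_one, smul_eq_mul, mul_one] at h3
    exact h3.symm
  refine ⟨K.n, fun a => K.dim (K.S a), fun a => K.δ.nu (K.S a), K.dimData, ?_⟩
  have h4 := K.dimData.dv_coe (RingEquiv.refl ℂ)
  rw [RingEquiv.refl_apply] at h4
  have h5 : (dv (fun a => K.dim (K.S a)) (RingEquiv.refl ℂ) : ℂ) = (x : ℂ) := by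
    rw [h4, hx]
    exact Finset.sum_congr rfl fun i _ => by rw [hdim]
  exact_mod_cast h5

end Pool.Agent.H386
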