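import Pool.Agent.H386.TV
import Pool.Agent.H386.Alg

set_option autoImplicit false
set_option linter.unusedSectionVars false

open CategoryTheory CategoryTheory.Limits MonoidalCategory

namespace Pool.Agent.H386

universe v u

open CategoryTheory.HasRightDual (rightDual)

attribute [-instance] CategoryTheory.hasRightDualUnit CategoryTheory.hasLeftDualUnit

variable {C : Type u} [Category.{v} C] [Abelian C] [Linear ℂ C]
    [MonoidalCategory C] [MonoidalPreadditive C] [MonoidalLinear ℂ C] [RigidCategory C]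

lemma Cen.IsHom.add {Z Y : Cen C} {f g : Z.X ⟶ Y.X} (hf : Z.IsHom Y f) (hg : Z.IsHom Y g) :
    Z.IsHom Y (f + g) := by
  intro U
  rw [MonoidalPreadditive.add_whiskerRight, MonoidalPreadditive.whiskerLeft_add,
    Preadditive.add_comp, Preadditive.comp_add, hf U, hg U]

/-- the algebra of central endomorphisms -/
def Cen.cEnd (Z : Cen C) : Subalgebra ℂ (End Z.X) where
  carrier := {y | Z.IsHom Z y}
  mul_mem' := fun {a b} ha hb => hb.comp ha
  add_mem' := fun {a b} ha hb => ha.add hb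
  algebraMap_mem' := fun r => by
    rw [Algebra.algebraMap_eq_smul_one]
    exact (Cen.IsHom.id (Z := Z)).smul r

/-- underlying morphism -/
def Cen.und {Z : Cen C} (x : Z.cEnd) : Z.X ⟶ Z.X := x.1

lemma Cen.und_hom {Z : Cen C} (x : Z.cEnd) : Z.IsHom Z (Cen.und x) := x.2

lemma Cen.und_mul {Z : Cen C} (x y : Z.cEnd) : Cen.und (x * y) = Cen.und y ≫ Cen.und x := rfl

lemma Cen.und_add {Z : Cen C} (x y : Z.cEnd) : Cen.und (x + y) = Cen.und x + Cen.und y := rfl

lemma Cen.und_smul {Z : Cen C} (a : ℂ) (x : Z.cEnd) : Cen.und (a • x) = a • Cen.und x := rfl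

lemma Cen.und_one {Z : Cen C} : Cen.und (1 : Z.cEnd) = 𝟙 Z.X := rfl

lemma Cen.und_zero {Z : Cen C} : Cen.und (0 : Z.cEnd) = 0 := rfl

lemma Cen.und_inj {Z : Cen C} {x y : Z.cEnd} (h : Cen.und x = Cen.und y) : x = y := Subtype.ext h

/-- constructor -/
def Cen.mkEnd {Z : Cen C} (f : Z.X ⟶ Z.X) (h : Z.IsHom Z f) : Z.cEnd := ⟨f, h⟩

lemma Cen.und_mkEnd {Z : Cen C} (f : Z.X ⟶ Z.X) (h : Z.IsHom Z f) :
    Cen.und (Cen.mkEnd f h) = f := rfl

/-- `und` as linear map -/
def Cen.undL (Z : Cen C) : Z.cEnd →ₗ[ℂ] (Z.X ⟶ Z.X) where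
  toFun := Cen.und
  map_add' := Cen.und_add
  map_smul' := Cen.und_smul

namespace Ctx

variable (K : Ctx C)

include K in
lemma fd_cEnd (Z : Cen C) : FiniteDimensional ℂ Z.cEnd := by
  have := K.fd
  exact FiniteDimensional.of_injective Z.undL (fun x y h => Cen.und_inj h)

namespace Free

variable {K}

section

variable {V W X : C} (F : K.Free V) (F' : K.Free W) (F'' : K.Free X)

lemma map_comp (f : V ⟶ W) (g : W ⟶ X) : F.map F' f ≫ F'.map F'' g = F.map F'' (f ≫ g) := by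
  apply F.hom_ext ((F.map_hom F' f).comp (F'.map_hom F'' g)) (F.map_hom _ _)
  rw [← Category.assoc, u_map, Category.assoc, u_map, u_map, Category.assoc]

lemma map_id : F.map F (𝟙 V) = 𝟙 _ := by
  apply F.hom_ext (F.map_hom F _) Cen.IsHom.id
  rw [u_map]; simp

end

variable (G : K.Gen) (F : K.Free G.P)

/-- evaluation on the universal vector -/
noncomputable def evE : F.Z.cEnd ≃ₗ[ℂ] (G.P ⟶ F.Z.X) where
  toFun x := F.u ≫ Cen.und x
  map_add' x y := by rw [Cen.und_add, Preadditive.comp_add]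
  map_smul' a x := by rw [Cen.und_smul, Linear.comp_smul]; rfl
  invFun h := Cen.mkEnd (F.hat F.Z h) (F.hat_hom _ _)
  left_inv x := by
    apply Cen.und_inj
    rw [Cen.und_mkEnd, F.hat_u _ (Cen.und_hom x)]
  right_inv h := F.u_hat F.Z h

/-- the element `K` of the algebra -/
noncomputable def kel : F.Z.cEnd := Cen.mkEnd (F.map F G.k) (F.map_hom _ _)

theorem trace_cEnd (y : F.Z.cEnd) :
    LinearMap.trace ℂ F.Z.cEnd (Alg.bimul y (F.kel G)) = K.tr (Cen.und y) := by
  have := K.fd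
  rw [G.tr_eq_trace, ← LinearMap.trace_conj' (Alg.bimul y (F.kel G)) (F.evE G)]
  congr 1
  ext h
  rw [LinearEquiv.conj_apply]
  simp only [LinearMap.comp_apply, LinearEquiv.coe_coe]
  obtain ⟨x, rfl⟩ := (F.evE G).surjective h
  rw [LinearEquiv.symm_apply_apply, Alg.bimul_apply]
  change F.u ≫ Cen.und (y * (x * F.kel G)) = G.k ≫ (F.u ≫ Cen.und x) ≫ Cen.und y
  rw [Cen.und_mul, Cen.und_mul, kel, Cen.und_mkEnd]
  simp only [← Category.assoc]
  rw [u_map]

theorem semisimple_cEnd : IsSemisimpleRing F.Z.cEnd := by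
  have := K.fd_cEnd F.Z
  apply Alg.semisimple_of_form (F.kel G)
  intro x hx
  have h1 : Cen.und x ≫ F.p ≠ 0 := by
    intro h
    exact hx (Cen.und_inj (F.eq_zero_of_comp_p F.Z (Cen.und x) (Cen.und_hom x) h))
  have h2 : ∃ g : G.P ⟶ F.Z.X, K.tr ((Cen.und x ≫ F.p) ≫ g) ≠ 0 := by
    by_contra h
    push Not at h
    exact h1 (K.nondeg _ h)
  obtain ⟨g, hg⟩ := h2
  refine ⟨(F.evE G).symm g, ?_⟩
  have h3 : F.u ≫ Cen.und ((F.evE G).symm g) = g := (F.evE G).apply_symm_apply g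
  rw [trace_cEnd, Cen.und_mul, K.tr_comm,
    F.trace_identity _ ((Cen.und_hom _).comp (Cen.und_hom _))]
  have h4 : F.u ≫ (Cen.und ((F.evE G).symm g) ≫ Cen.und x) ≫ F.p =
      g ≫ (Cen.und x ≫ F.p) := by
    nth_rewrite 2 [← h3]
    simp only [Category.assoc]
  rw [h4, K.tr_comm]
  exact mul_ne_zero K.D_ne_zero hg

/-- the idempotents of the summands -/
noncomputable def qel (a : Fin K.n) : F.Z.cEnd := Cen.mkEnd (F.map F (G.π a ≫ G.ι a)) (F.map_hom _ _)

lemma qel_idem (a : Fin K.n) : IsIdempotentElem (F.qel G a) := by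
  apply Cen.und_inj
  rw [Cen.und_mul, qel, Cen.und_mkEnd, map_comp]
  congr 1
  rw [Category.assoc, ← Category.assoc (G.ι a), G.same, Category.id_comp]

lemma kel_eq : F.kel G = ∑ a, K.dim (K.S a) • F.qel G a := by
  apply (F.evE G).injective
  rw [map_sum]
  simp only [map_smul]
  change F.u ≫ F.map F G.k = ∑ a, K.dim (K.S a) • (F.u ≫ F.map F (G.π a ≫ G.ι a))
  rw [u_map]
  simp only [u_map]
  unfold Gen.k
  rw [Preadditive.sum_comp]
  simp only [Linear.smul_comp]

/-- the twist as an element of the algebra -/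
noncomputable def tel : F.Z.cEnd := Cen.mkEnd (K.δ.θ F.Z) (K.θ_hom _)

lemma tel_central (x : F.Z.cEnd) : F.tel G * x = x * F.tel G := by
  apply Cen.und_inj
  rw [Cen.und_mul, Cen.und_mul, tel, Cen.und_mkEnd, Pivotal.θ_nat K.δ (Cen.und_hom x)]

end Free

end Ctx

end Pool.Agent.H386
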