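import Pool.Agent.H386.Nat

set_option autoImplicit false
set_option linter.unusedSectionVars false

open CategoryTheory CategoryTheory.Limits MonoidalCategory

namespace Pool.Agent.H386

universe v u

open CategoryTheory.HasRightDual (rightDual)

attribute [-instance] CategoryTheory.hasRightDualUnit CategoryTheory.hasLeftDualUnit

/-- Objects of the Drinfeld center. -/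
structure Cen (C : Type u) [Category.{v} C] [MonoidalCategory C] where
  X : C
  b : ∀ U, X ⊗ U ⟶ U ⊗ X
  c : ∀ U, U ⊗ X ⟶ X ⊗ U
  b_c : ∀ U, b U ≫ c U = 𝟙 _
  c_b : ∀ U, c U ≫ b U = 𝟙 _
  nat : ∀ {U U' : C} (f : U ⟶ U'), X ◁ f ≫ b U' = b U ≫ f ▷ X
  tens : ∀ U U', b (U ⊗ U') = 𝟙 _ ⊗≫ b U ▷ U' ⊗≫ U ◁ b U' ⊗≫ 𝟙 _

attribute [reassoc (attr := simp)] Cen.b_c Cen.c_b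

namespace Cen

section

variable {C : Type u} [Category.{v} C] [MonoidalCategory C] (Z Y W : Cen C)

lemma b_unit : Z.b (𝟙_ C) = (ρ_ Z.X).hom ≫ (λ_ Z.X).inv := by
  have h1 := Z.nat (λ_ (𝟙_ C)).hom
  rw [Z.tens] at h1
  obtain ⟨t, ht⟩ : ∃ t : Z.X ⟶ Z.X, t = (ρ_ Z.X).inv ≫ Z.b (𝟙_ C) ≫ (λ_ Z.X).hom := ⟨_, rfl⟩
  obtain ⟨s, hs⟩ : ∃ s : Z.X ⟶ Z.X, s = (λ_ Z.X).inv ≫ Z.c (𝟙_ C) ≫ (ρ_ Z.X).hom := ⟨_, rfl⟩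
  have hb : Z.b (𝟙_ C) = (ρ_ Z.X).hom ≫ t ≫ (λ_ Z.X).inv := by rw [ht]; simp
  have hts : t ≫ s = 𝟙 _ := by rw [ht, hs]; simp
  have h2 : t = t ≫ t := by
    calc
      t = 𝟙 _ ⊗≫ (Z.X ◁ (λ_ (𝟙_ C)).hom ≫ Z.b (𝟙_ C)) ⊗≫ 𝟙 _ := by rw [ht]; monoidal
      _ = _ := by rw [h1, hb]; monoidal
  have h3 : t = 𝟙 _ := by
    calc
      t = t ≫ t ≫ s := by rw [hts, Category.comp_id]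
      _ = (t ≫ t) ≫ s := by rw [Category.assoc]
      _ = 𝟙 _ := by rw [← h2, hts]
  rw [hb, h3, Category.id_comp]

lemma natc {U U' : C} (f : U ⟶ U') : Z.c U ≫ Z.X ◁ f = f ▷ Z.X ≫ Z.c U' := by
  calc
    _ = Z.c U ≫ (Z.X ◁ f ≫ Z.b U') ≫ Z.c U' := by simp
    _ = _ := by rw [Z.nat]; simp

lemma tensc (U U' : C) : Z.c (U ⊗ U') = 𝟙 _ ⊗≫ U ◁ Z.c U' ⊗≫ Z.c U ▷ U' ⊗≫ 𝟙 _ := by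
  have h : (𝟙 _ ⊗≫ U ◁ Z.c U' ⊗≫ Z.c U ▷ U' ⊗≫ 𝟙 _) ≫ Z.b (U ⊗ U') = 𝟙 _ := by
    rw [Z.tens]
    calc
      _ = 𝟙 _ ⊗≫ U ◁ Z.c U' ⊗≫ (Z.c U ≫ Z.b U) ▷ U' ⊗≫ U ◁ Z.b U' ⊗≫ 𝟙 _ := by monoidal
      _ = 𝟙 _ ⊗≫ U ◁ (Z.c U' ≫ Z.b U') ⊗≫ 𝟙 _ := by rw [Z.c_b]; monoidal
      _ = _ := by rw [Z.c_b]; monoidal
  calc
    _ = ((𝟙 _ ⊗≫ U ◁ Z.c U' ⊗≫ Z.c U ▷ U' ⊗≫ 𝟙 _) ≫ Z.b (U ⊗ U')) ≫ Z.c (U ⊗ U') := by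
      rw [h, Category.id_comp]
    _ = _ := by simp

lemma c_unit : Z.c (𝟙_ C) = (λ_ Z.X).hom ≫ (ρ_ Z.X).inv := by
  have h : ((λ_ Z.X).hom ≫ (ρ_ Z.X).inv) ≫ Z.b (𝟙_ C) = 𝟙 _ := by
    rw [Z.b_unit]; simp
  calc
    _ = (((λ_ Z.X).hom ≫ (ρ_ Z.X).inv) ≫ Z.b (𝟙_ C)) ≫ Z.c (𝟙_ C) := by
      rw [h, Category.id_comp]
    _ = _ := by simp

/-- morphisms of the center -/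
def IsHom (f : Z.X ⟶ Y.X) : Prop := ∀ U, f ▷ U ≫ Y.b U = Z.b U ≫ U ◁ f

variable {Z Y W}

lemma IsHom.comp {f : Z.X ⟶ Y.X} {g : Y.X ⟶ W.X} (hf : Z.IsHom Y f) (hg : Y.IsHom W g) :
    Z.IsHom W (f ≫ g) := by
  intro U
  rw [comp_whiskerRight, Category.assoc, hg U, ← Category.assoc, hf U, Category.assoc,
    MonoidalCategory.whiskerLeft_comp]

lemma IsHom.id : Z.IsHom Z (𝟙 _) := by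
  intro U
  simp

lemma IsHom.comm' {f : Z.X ⟶ Y.X} (hf : Z.IsHom Y f) (U : C) :
    Z.c U ≫ f ▷ U = U ◁ f ≫ Y.c U := by
  calc
    _ = Z.c U ≫ (f ▷ U ≫ Y.b U) ≫ Y.c U := by simp
    _ = _ := by rw [hf U]; simp

variable (Z Y W)

/-- The tensor product in the center. -/
def tensor : Cen C where
  X := Z.X ⊗ Y.X
  b U := 𝟙 _ ⊗≫ Z.X ◁ Y.b U ⊗≫ Z.b U ▷ Y.X ⊗≫ 𝟙 _
  c U := 𝟙 _ ⊗≫ Z.c U ▷ Y.X ⊗≫ Z.X ◁ Y.c U ⊗≫ 𝟙 _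
  b_c U := by
    calc
      _ = 𝟙 _ ⊗≫ Z.X ◁ Y.b U ⊗≫ (Z.b U ≫ Z.c U) ▷ Y.X ⊗≫ Z.X ◁ Y.c U ⊗≫ 𝟙 _ := by
        monoidal
      _ = 𝟙 _ ⊗≫ Z.X ◁ (Y.b U ≫ Y.c U) ⊗≫ 𝟙 _ := by
        rw [Z.b_c]; monoidal
      _ = _ := by rw [Y.b_c]; monoidal
  c_b U := by
    calc
      _ = 𝟙 _ ⊗≫ Z.c U ▷ Y.X ⊗≫ Z.X ◁ (Y.c U ≫ Y.b U) ⊗≫ Z.b U ▷ Y.X ⊗≫ 𝟙 _ := by
        monoidal
      _ = 𝟙 _ ⊗≫ (Z.c U ≫ Z.b U) ▷ Y.X ⊗≫ 𝟙 _ := by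
        rw [Y.c_b]; monoidal
      _ = _ := by rw [Z.c_b]; monoidal
  nat {U U'} f := by
    calc
      _ = 𝟙 _ ⊗≫ Z.X ◁ (Y.X ◁ f ≫ Y.b U') ⊗≫ Z.b U' ▷ Y.X ⊗≫ 𝟙 _ := by monoidal
      _ = 𝟙 _ ⊗≫ Z.X ◁ Y.b U ⊗≫ (Z.X ◁ f ≫ Z.b U') ▷ Y.X ⊗≫ 𝟙 _ := by
        rw [Y.nat]; monoidal
      _ = _ := by rw [Z.nat]; monoidal
  tens U U' := by
    calc
      _ = 𝟙 _ ⊗≫ Z.X ◁ Y.b U ▷ U' ⊗≫ ((Z.X ⊗ U) ◁ Y.b U' ≫ Z.b U ▷ (U' ⊗ Y.X)) ⊗≫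
            U ◁ Z.b U' ▷ Y.X ⊗≫ 𝟙 _ := by
        rw [Z.tens, Y.tens]; monoidal
      _ = _ := by rw [whisker_exchange]; monoidal

@[simp] lemma tensor_X : (Z.tensor Y).X = Z.X ⊗ Y.X := rfl

lemma tensor_b (U : C) : (Z.tensor Y).b U =
    (𝟙 _ ⊗≫ Z.X ◁ Y.b U ⊗≫ Z.b U ▷ Y.X ⊗≫ 𝟙 _ : (Z.X ⊗ Y.X) ⊗ U ⟶ U ⊗ (Z.X ⊗ Y.X)) := rfl

variable {Z Y W}

/-- Retracts of center objects along idempotents that are morphisms in the center. -/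
def retract (Z : Cen C) (Y : C) (i : Y ⟶ Z.X) (p : Z.X ⟶ Y) (hip : i ≫ p = 𝟙 Y)
    (hpi : Z.IsHom Z (p ≫ i)) : Cen C where
  X := Y
  b U := i ▷ U ≫ Z.b U ≫ U ◁ p
  c U := U ◁ i ≫ Z.c U ≫ p ▷ U
  b_c U := by
    have h := hpi.comm' U
    rw [comp_whiskerRight, MonoidalCategory.whiskerLeft_comp] at h
    calc
      _ = i ▷ U ≫ Z.b U ≫ ((U ◁ p ≫ U ◁ i) ≫ Z.c U) ≫ p ▷ U := by simp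
      _ = i ▷ U ≫ (Z.b U ≫ Z.c U) ≫ (p ▷ U ≫ i ▷ U) ≫ p ▷ U := by rw [← h]; simp
      _ = (i ≫ p) ▷ U ≫ (i ≫ p) ▷ U := by rw [Z.b_c]; simp
      _ = _ := by rw [hip]; simp
  c_b U := by
    have h := hpi U
    rw [comp_whiskerRight, MonoidalCategory.whiskerLeft_comp] at h
    calc
      _ = U ◁ i ≫ Z.c U ≫ ((p ▷ U ≫ i ▷ U) ≫ Z.b U) ≫ U ◁ p := by simp
      _ = U ◁ i ≫ (Z.c U ≫ Z.b U) ≫ (U ◁ p ≫ U ◁ i) ≫ U ◁ p := by rw [h]; simp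
      _ = U ◁ (i ≫ p) ≫ U ◁ (i ≫ p) := by rw [Z.c_b]; simp
      _ = _ := by rw [hip]; simp
  nat {U U'} f := by
    calc
      _ = (Y ◁ f ≫ i ▷ U') ≫ Z.b U' ≫ U' ◁ p := by simp
      _ = i ▷ U ≫ (Z.X ◁ f ≫ Z.b U') ≫ U' ◁ p := by rw [whisker_exchange]; simp
      _ = i ▷ U ≫ Z.b U ≫ (f ▷ Z.X ≫ U' ◁ p) := by rw [Z.nat]; simp
      _ = _ := by rw [← whisker_exchange]; simp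
  tens U U' := by
    have h := hpi U
    symm
    calc
      _ = 𝟙 _ ⊗≫ i ▷ U ▷ U' ⊗≫ (Z.b U ≫ U ◁ (p ≫ i)) ▷ U' ⊗≫ U ◁ Z.b U' ⊗≫ U ◁ U' ◁ p ⊗≫ 𝟙 _ := by
        monoidal
      _ = 𝟙 _ ⊗≫ (i ≫ p) ▷ U ▷ U' ⊗≫ i ▷ U ▷ U' ⊗≫ Z.b U ▷ U' ⊗≫ U ◁ Z.b U' ⊗≫
            U ◁ U' ◁ p ⊗≫ 𝟙 _ := by
        rw [← h]; monoidal
      _ = _ := by rw [hip, Z.tens]; monoidal

end

section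

variable {C : Type u} [Category.{v} C] [MonoidalCategory C] [RigidCategory C]

/-- A natural, monoidal and unital family is invertible. -/
def ofNat (δ : Pivotal C) (X : C) (b : ∀ U, X ⊗ U ⟶ U ⊗ X)
    (nat : ∀ {U U' : C} (f : U ⟶ U'), X ◁ f ≫ b U' = b U ≫ f ▷ X)
    (tens : ∀ U U', b (U ⊗ U') = 𝟙 _ ⊗≫ b U ▷ U' ⊗≫ U ◁ b U' ⊗≫ 𝟙 _)
    (unit : b (𝟙_ C) = (ρ_ X).hom ≫ (λ_ X).inv) : Cen C where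
  X := X
  b := b
  c U := 𝟙 _ ⊗≫ (U ⊗ X) ◁ δ.coev U ⊗≫ U ◁ b (rightDual U) ▷ U ⊗≫ δ.ev U ▷ (X ⊗ U) ⊗≫ 𝟙 _
  b_c U := by
    calc
      _ = 𝟙 _ ⊗≫ (b U ▷ (𝟙_ C) ≫ (U ⊗ X) ◁ δ.coev U) ⊗≫ U ◁ b (rightDual U) ▷ U ⊗≫
            δ.ev U ▷ (X ⊗ U) ⊗≫ 𝟙 _ := by monoidal
      _ = 𝟙 _ ⊗≫ (X ⊗ U) ◁ δ.coev U ⊗≫ (𝟙 (X ⊗ U ⊗ (rightDual U)) ⊗≫ b U ▷ (rightDual U) ⊗≫ U ◁ b (rightDual U) ⊗≫ 𝟙 ((U ⊗ (rightDual U)) ⊗ X)) ▷ U ⊗≫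
            δ.ev U ▷ (X ⊗ U) ⊗≫ 𝟙 _ := by rw [← whisker_exchange]; monoidal
      _ = 𝟙 _ ⊗≫ (X ⊗ U) ◁ δ.coev U ⊗≫ (b (U ⊗ (rightDual U)) ≫ δ.ev U ▷ X) ▷ U ⊗≫ 𝟙 _ := by
        rw [← tens]; monoidal
      _ = 𝟙 _ ⊗≫ X ◁ (U ◁ δ.coev U ⊗≫ δ.ev U ▷ U) ⊗≫ 𝟙 _ := by
        rw [← nat, unit]; monoidal
      _ = _ := by rw [Pivotal.zig]; monoidal
  c_b U := by
    calc
      _ = 𝟙 _ ⊗≫ (U ⊗ X) ◁ δ.coev U ⊗≫ U ◁ b (rightDual U) ▷ U ⊗≫ (δ.ev U ▷ (X ⊗ U) ≫ (𝟙_ C) ◁ b U) ⊗≫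
            𝟙 _ := by monoidal
      _ = 𝟙 _ ⊗≫ (U ⊗ X) ◁ δ.coev U ⊗≫ U ◁ (𝟙 (X ⊗ (rightDual U) ⊗ U) ⊗≫ b (rightDual U) ▷ U ⊗≫ (rightDual U) ◁ b U ⊗≫ 𝟙 (((rightDual U) ⊗ U) ⊗ X)) ⊗≫
            δ.ev U ▷ (U ⊗ X) ⊗≫ 𝟙 _ := by rw [← whisker_exchange]; monoidal
      _ = 𝟙 _ ⊗≫ U ◁ (X ◁ δ.coev U ≫ b ((rightDual U) ⊗ U)) ⊗≫ δ.ev U ▷ (U ⊗ X) ⊗≫ 𝟙 _ := by
        rw [← tens]; monoidal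
      _ = 𝟙 _ ⊗≫ (U ◁ δ.coev U ⊗≫ δ.ev U ▷ U) ▷ X ⊗≫ 𝟙 _ := by
        rw [nat, unit]; monoidal
      _ = _ := by rw [Pivotal.zig]; monoidal
  nat := nat
  tens := tens

end

end Cen

end Pool.Agent.H386
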