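import Pool.Agent.H386.Tw

set_option autoImplicit false
set_option linter.unusedSectionVars false

open CategoryTheory CategoryTheory.Limits MonoidalCategory

namespace Pool.Agent.H386

universe v u

open CategoryTheory.HasRightDual (rightDual)

attribute [-instance] CategoryTheory.hasRightDualUnit CategoryTheory.hasLeftDualUnit

variable {C : Type u} [Category.{v} C] [Abelian C] [Linear ℂ C]
    [MonoidalCategory C] [MonoidalPreadditive C] [MonoidalLinear ℂ C] [RigidCategory C]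

namespace Ctx

variable (K : Ctx C)

/-- the tensor-hom adjunction is linear -/
lemma finrank_adj (V X Y : C) :
    Module.finrank ℂ (X ⟶ V ⊗ Y) = Module.finrank ℂ ((rightDual V) ⊗ X ⟶ Y) := by
  let e : ((rightDual V) ⊗ X ⟶ Y) ≃ₗ[ℂ] (X ⟶ V ⊗ Y) :=
    { tensorLeftHomEquiv X V (rightDual V) Y with
      map_add' := by
        intro f g
        simp [tensorLeftHomEquiv]
      map_smul' := by
        intro a f
        simp [tensorLeftHomEquiv] }
  exact e.finrank_eq.symm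

/-- multiplicities are symmetric -/
lemma finrank_rot (V : C) (j k : Fin K.n) :
    Module.finrank ℂ (K.S j ⟶ (rightDual V) ⊗ K.S k) = Module.finrank ℂ (K.S k ⟶ V ⊗ K.S j) := by
  rw [finrank_adj V, ← K.finrank_symm]

/-- A (complex valued) character of the Grothendieck ring, invariant under duality. -/
structure Chr where
  c : C → ℂ
  mul : ∀ X Y, c (X ⊗ Y) = c X * c Y
  dual : ∀ X : C, c (rightDual X) = c X
  dec : ∀ (X : C) (d : Dec K.S X), c X = ∑ b, c (K.S (d.idx b))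
  unit : c (𝟙_ C) = 1

/-- the dimension character -/
def dimChr : K.Chr where
  c := K.dim
  mul := K.dim_tensor
  dual := K.dim_dual
  dec := fun _ d => K.dim_dec d
  unit := K.dim_unit

namespace Chr

variable {K} (χ : K.Chr)

lemma expand (X : C) : χ.c X = ∑ i, (Module.finrank ℂ (K.S i ⟶ X) : ℂ) * χ.c (K.S i) := by
  rw [χ.dec X (K.dec X), K.sum_dec (K.dec X) (fun i => χ.c (K.S i))]
  simp

lemma iso {X Y : C} (e : X ≅ Y) : χ.c X = χ.c Y := by
  rw [χ.expand X, χ.expand Y]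
  refine Finset.sum_congr rfl fun i _ => ?_
  have : Module.finrank ℂ (K.S i ⟶ X) = Module.finrank ℂ (K.S i ⟶ Y) := by
    let f : (K.S i ⟶ X) ≃ₗ[ℂ] (K.S i ⟶ Y) :=
      { toFun := fun g => g ≫ e.hom
        map_add' := by intro a b; simp
        map_smul' := by intro a b; simp
        invFun := fun g => g ≫ e.inv
        left_inv := by intro a; simp
        right_inv := by intro a; simp }
    exact f.finrank_eq
  rw [this]

lemma mul_expand (V : C) (j : Fin K.n) : χ.c V * χ.c (K.S j) =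
    ∑ k, (Module.finrank ℂ (K.S k ⟶ V ⊗ K.S j) : ℂ) * χ.c (K.S k) := by
  rw [← χ.mul, χ.expand]

lemma mul_expand' (V : C) (k : Fin K.n) : χ.c V * χ.c (K.S k) =
    ∑ j, (Module.finrank ℂ (K.S k ⟶ V ⊗ K.S j) : ℂ) * χ.c (K.S j) := by
  rw [← χ.dual V, ← χ.mul, χ.expand]
  refine Finset.sum_congr rfl fun j _ => ?_
  rw [K.finrank_rot]

/-- the squared norm of a character -/
def f : ℂ := ∑ j, χ.c (K.S j) ^ 2

lemma norm_pos : 0 < ∑ j, ‖χ.c (K.S j)‖ ^ 2 := by
  obtain ⟨j, ⟨e⟩⟩ := K.hS.complete (𝟙_ C) K.one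
  have h1 : χ.c (K.S j) = 1 := by rw [← χ.iso e, χ.unit]
  refine lt_of_lt_of_le ?_ (Finset.single_le_sum (f := fun j => ‖χ.c (K.S j)‖ ^ 2)
    (fun i _ => by positivity) (Finset.mem_univ j))
  simp [h1]

/-- characters are real valued -/
lemma conj_eq (V : C) : (starRingEnd ℂ) (χ.c V) = χ.c V := by
  have h1 : χ.c V * ∑ j, χ.c (K.S j) * (starRingEnd ℂ) (χ.c (K.S j)) =
      (starRingEnd ℂ) (χ.c V) * ∑ j, χ.c (K.S j) * (starRingEnd ℂ) (χ.c (K.S j)) := by
    calc
      _ = ∑ j, (χ.c V * χ.c (K.S j)) * (starRingEnd ℂ) (χ.c (K.S j)) := by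
        rw [Finset.mul_sum]
        exact Finset.sum_congr rfl fun j _ => by ring
      _ = ∑ j, ∑ k, (Module.finrank ℂ (K.S k ⟶ V ⊗ K.S j) : ℂ) * χ.c (K.S k) *
            (starRingEnd ℂ) (χ.c (K.S j)) := by
        refine Finset.sum_congr rfl fun j _ => ?_
        rw [χ.mul_expand, Finset.sum_mul]
      _ = ∑ k, χ.c (K.S k) * (starRingEnd ℂ) (∑ j,
            (Module.finrank ℂ (K.S k ⟶ V ⊗ K.S j) : ℂ) * χ.c (K.S j)) := by
        rw [Finset.sum_comm]
        refine Finset.sum_congr rfl fun k _ => ?_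
        rw [map_sum, Finset.mul_sum]
        refine Finset.sum_congr rfl fun j _ => ?_
        rw [map_mul, map_natCast]
        ring
      _ = _ := by
        rw [Finset.mul_sum]
        refine Finset.sum_congr rfl fun k _ => ?_
        rw [← χ.mul_expand', map_mul]
        ring
  have h2 : (∑ j, χ.c (K.S j) * (starRingEnd ℂ) (χ.c (K.S j))) =
      ((∑ j, ‖χ.c (K.S j)‖ ^ 2 : ℝ) : ℂ) := by
    push_cast
    refine Finset.sum_congr rfl fun j _ => ?_
    rw [Complex.mul_conj, Complex.normSq_eq_norm_sq]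
    push_cast
    rfl
  rw [h2] at h1
  have h3 : ((∑ j, ‖χ.c (K.S j)‖ ^ 2 : ℝ) : ℂ) ≠ 0 := by
    exact_mod_cast χ.norm_pos.ne'
  exact (mul_right_cancel₀ h3 h1).symm

lemma real (V : C) : ((χ.c V).re : ℂ) = χ.c V := Complex.conj_eq_iff_re.mp (χ.conj_eq V)

/-- the real value -/
def r (V : C) : ℝ := (χ.c V).re

lemma r_coe (V : C) : (χ.r V : ℂ) = χ.c V := χ.real V

lemma f_eq : χ.f = ((∑ j, χ.r (K.S j) ^ 2 : ℝ) : ℂ) := by
  unfold f
  push_cast
  exact Finset.sum_congr rfl fun j _ => by rw [χ.r_coe]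

lemma f_ge_one : 1 ≤ ∑ j, χ.r (K.S j) ^ 2 := by
  obtain ⟨j, ⟨e⟩⟩ := K.hS.complete (𝟙_ C) K.one
  have h1 : χ.r (K.S j) = 1 := by unfold r; rw [← χ.iso e, χ.unit]; rfl
  refine le_trans ?_ (Finset.single_le_sum (f := fun j => χ.r (K.S j) ^ 2)
    (fun i _ => by positivity) (Finset.mem_univ j))
  simp [h1]

lemma f_ne_zero : χ.f ≠ 0 := by
  rw [χ.f_eq]
  have := χ.f_ge_one
  exact_mod_cast (by linarith : (0:ℝ) < ∑ j, χ.r (K.S j) ^ 2).ne'

end Chr

lemma D_ne_zero : K.D ≠ 0 := K.dimChr.f_ne_zero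

end Ctx

end Pool.Agent.H386
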