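import Pool.Agent.H386.Sph

set_option autoImplicit false
set_option linter.unusedSectionVars false

open CategoryTheory CategoryTheory.Limits MonoidalCategory

namespace Pool.Agent.H386

universe v u

/-- Decomposition of an object into members of the list `S`. -/
structure Dec {C : Type u} [Category.{v} C] [Preadditive C] {r : ℕ} (S : Fin r → C) (Z : C) where
  n : ℕ
  idx : Fin n → Fin r
  inc : ∀ b, S (idx b) ⟶ Z
  prj : ∀ b, Z ⟶ S (idx b)
  sum : ∑ b, prj b ≫ inc b = 𝟙 Z
  same : ∀ b, inc b ≫ prj b = 𝟙 (S (idx b))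
  diff : ∀ b b', b ≠ b' → inc b ≫ prj b' = 0

section

variable {C : Type u} [Category.{v} C] [Abelian C] [Linear ℂ C] {r : ℕ} {S : Fin r → C}

lemma exists_dec (hS : IsSimpleList S)
    (hss : ∀ X : C, ∃ (n : ℕ) (S : Fin n → C) (b : Bicone S), (∀ i, Simple (S i)) ∧
      Nonempty b.IsBilimit ∧ Nonempty (X ≅ b.pt)) (Z : C) : Nonempty (Dec S Z) := by
  obtain ⟨n, T, b, hT, ⟨hb⟩, ⟨e⟩⟩ := hss Z
  have h1 : ∀ j, ∃ i, Nonempty (T j ≅ S i) := fun j => hS.complete (T j) (hT j)
  choose idx hidx using h1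
  let f : ∀ j, T j ≅ S (idx j) := fun j => (hidx j).some
  refine ⟨⟨n, idx, fun j => (f j).inv ≫ b.ι j ≫ e.inv, fun j => e.hom ≫ b.π j ≫ (f j).hom,
    ?_, ?_, ?_⟩⟩
  · have h2 : ∀ j, (e.hom ≫ b.π j ≫ (f j).hom) ≫ (f j).inv ≫ b.ι j ≫ e.inv =
        e.hom ≫ (b.π j ≫ b.ι j) ≫ e.inv := by
      intro j; simp
    simp_rw [h2]
    rw [← Preadditive.comp_sum, ← Preadditive.sum_comp, IsBilimit.total hb]
    simp
  · intro j; simp
  · intro j j' hj
    simp only [Category.assoc, Iso.inv_hom_id_assoc]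
    rw [← Category.assoc (b.ι j), b.ι_π, dif_neg hj]
    simp

/-- The scalar of an endomorphism of a simple object. -/
lemma exists_scalar (hfd : ∀ X Y : C, FiniteDimensional ℂ (X ⟶ Y)) (X : C) [Simple X] :
    ∃ sc : (X ⟶ X) →ₗ[ℂ] ℂ, (∀ f, f = sc f • 𝟙 X) ∧ sc (𝟙 X) = 1 := by
  have hne : (𝟙 X : X ⟶ X) ≠ 0 := id_nonzero X
  have h : ∀ f : X ⟶ X, ∃ c : ℂ, c • 𝟙 X = f := fun f => endomorphism_simple_eq_smul_id ℂ f
  choose sc hsc using h
  have hinj : ∀ c c' : ℂ, c • 𝟙 X = c' • 𝟙 X → c = c' := fun c c' h =>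
    smul_left_injective ℂ hne h
  refine ⟨{ toFun := sc, map_add' := ?_, map_smul' := ?_ }, ?_, ?_⟩
  · intro f g
    apply hinj
    rw [hsc, add_smul, hsc, hsc]
  · intro a f
    apply hinj
    rw [hsc, RingHom.id_apply, smul_assoc, hsc]
  · intro f
    exact (hsc f).symm
  · apply hinj
    simp only [LinearMap.coe_mk, AddHom.coe_mk]
    rw [hsc, one_smul]

end

/-- Standing data: a spherical fusion category with a list of simple objects, decompositions
of all objects, and the scalar of an endomorphism of the unit. -/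
structure Ctx (C : Type u) [Category.{v} C] [Abelian C] [Linear ℂ C]
    [MonoidalCategory C] [MonoidalPreadditive C] [MonoidalLinear ℂ C] [RigidCategory C] where
  n : ℕ
  S : Fin n → C
  hS : IsSimpleList S
  dec : ∀ X : C, Dec S X
  fd : ∀ X Y : C, FiniteDimensional ℂ (X ⟶ Y)
  one : Simple (𝟙_ C)
  δ : Pivotal C
  sph : δ.Spherical
  sc : (𝟙_ C ⟶ 𝟙_ C) →ₗ[ℂ] ℂ
  sc_spec : ∀ f, f = sc f • 𝟙 (𝟙_ C)
  sc_one : sc (𝟙 _) = 1

variable {C : Type u} [Category.{v} C] [Abelian C] [Linear ℂ C]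
    [MonoidalCategory C] [MonoidalPreadditive C] [MonoidalLinear ℂ C] [RigidCategory C]

lemma exists_ctx (hC : IsFusionCategory C) (δ : Pivotal C) (hδ : δ.Spherical) {n : ℕ}
    (S : Fin n → C) (hS : IsSimpleList S) :
    ∃ K : Ctx C, K.δ = δ ∧ ∃ h : K.n = n, ∀ i, K.S i = S (Fin.cast h i) := by
  classical
  have := hC.simple_unit
  obtain ⟨sc, h1, h2⟩ := exists_scalar hC.finiteDimensional_hom (𝟙_ C)
  exact ⟨⟨n, S, hS, fun X => (exists_dec hS hC.semisimple X).some, hC.finiteDimensional_hom,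
    hC.simple_unit, δ, hδ, sc, h1, h2⟩, rfl, rfl, fun i => rfl⟩

namespace Ctx

variable (K : Ctx C)

include K

lemma simple (i : Fin K.n) : Simple (K.S i) := K.hS.simple i

lemma sc_mul (f g : 𝟙_ C ⟶ 𝟙_ C) : K.sc (f ≫ g) = K.sc f * K.sc g := by
  conv_lhs => rw [K.sc_spec f, K.sc_spec g]
  simp [K.sc_one, mul_comm]

lemma sc_inj {f g : 𝟙_ C ⟶ 𝟙_ C} (h : K.sc f = K.sc g) : f = g := by
  rw [K.sc_spec f, K.sc_spec g, h]

/-- an endomorphism of a simple object is a scalar -/
lemma scalar (X : C) [Simple X] (f : X ⟶ X) : ∃ a : ℂ, f = a • 𝟙 X := by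
  have := K.fd
  obtain ⟨c, hc⟩ := endomorphism_simple_eq_smul_id ℂ f
  exact ⟨c, hc.symm⟩

/-- morphisms between nonisomorphic simple objects vanish -/
lemma hom_zero {X Y : C} [Simple X] [Simple Y] (h : ¬ Nonempty (X ≅ Y)) (f : X ⟶ Y) : f = 0 := by
  by_contra hf
  have := isIso_of_hom_simple hf
  exact h ⟨asIso f⟩

lemma hom_zero' {i j : Fin K.n} (h : i ≠ j) (f : K.S i ⟶ K.S j) : f = 0 := by
  have := K.simple i
  have := K.simple j
  exact K.hom_zero (fun e => h (K.hS.inj i j e)) f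

lemma hom_ext {X Y : C} {f g : X ⟶ Y} (h : ∀ j (i : K.S j ⟶ X), i ≫ f = i ≫ g) : f = g := by
  rw [← Category.id_comp f, ← Category.id_comp g, ← (K.dec X).sum, Preadditive.sum_comp,
    Preadditive.sum_comp]
  refine Finset.sum_congr rfl fun b _ => ?_
  rw [Category.assoc, Category.assoc, h]

lemma hom_ext_simple {X Y : C} {f g : X ⟶ Y}
    (h : ∀ (V : C), Simple V → ∀ (i : V ⟶ X), i ≫ f = i ≫ g) : f = g :=
  K.hom_ext fun j i => h _ (K.simple j) i

/-- a nonzero morphism from a simple object is a split mono -/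
lemma split {X Y : C} [Simple X] (f : X ⟶ Y) (hf : f ≠ 0) : ∃ r : Y ⟶ X, f ≫ r = 𝟙 X := by
  have h1 : ∃ b, f ≫ (K.dec Y).prj b ≠ 0 := by
    by_contra h
    push Not at h
    apply hf
    rw [← Category.comp_id f, ← (K.dec Y).sum, Preadditive.comp_sum]
    refine Finset.sum_eq_zero fun b _ => ?_
    rw [← Category.assoc, h b, zero_comp]
  obtain ⟨b, hb⟩ := h1
  have := K.simple ((K.dec Y).idx b)
  have := isIso_of_hom_simple hb
  refine ⟨(K.dec Y).prj b ≫ inv (f ≫ (K.dec Y).prj b), ?_⟩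
  rw [← Category.assoc, IsIso.hom_inv_id]

lemma finrank_simple (i j : Fin K.n) :
    Module.finrank ℂ (K.S i ⟶ K.S j) = if i = j then 1 else 0 := by
  have := K.simple i
  have := K.simple j
  have := K.fd
  split_ifs with h
  · subst h
    exact finrank_endomorphism_simple_eq_one ℂ (K.S i)
  · exact finrank_hom_simple_simple_eq_zero_of_not_iso ℂ (fun e => h (K.hS.inj i j ⟨e⟩))

/-- Hom spaces into a decomposed object. -/
lemma finrank_hom_dec {Z : C} (d : Dec K.S Z) (X : C) :
    Module.finrank ℂ (X ⟶ Z) = ∑ b, Module.finrank ℂ (X ⟶ K.S (d.idx b)) := by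
  have := K.fd
  let e : (X ⟶ Z) ≃ₗ[ℂ] (∀ b, (X ⟶ K.S (d.idx b))) :=
    { toFun := fun g b => g ≫ d.prj b
      map_add' := by intro g g'; ext b; simp
      map_smul' := by intro a g; ext b; simp
      invFun := fun f => ∑ b, f b ≫ d.inc b
      left_inv := by
        intro g
        simp only [Category.assoc]
        rw [← Preadditive.comp_sum, d.sum, Category.comp_id]
      right_inv := by
        intro f
        ext b
        simp only
        rw [Preadditive.sum_comp, Finset.sum_eq_single b]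
        · rw [Category.assoc, d.same, Category.comp_id]
        · intro b' _ hb
          rw [Category.assoc, d.diff b' b hb, comp_zero]
        · intro h; exact absurd (Finset.mem_univ _) h }
  rw [e.finrank_eq, Module.finrank_pi_fintype]

/-- Hom spaces from a decomposed object. -/
lemma finrank_hom_dec' {Z : C} (d : Dec K.S Z) (X : C) :
    Module.finrank ℂ (Z ⟶ X) = ∑ b, Module.finrank ℂ (K.S (d.idx b) ⟶ X) := by
  have := K.fd
  let e : (Z ⟶ X) ≃ₗ[ℂ] (∀ b, (K.S (d.idx b) ⟶ X)) :=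
    { toFun := fun g b => d.inc b ≫ g
      map_add' := by intro g g'; ext b; simp
      map_smul' := by intro a g; ext b; simp
      invFun := fun f => ∑ b, d.prj b ≫ f b
      left_inv := by
        intro g
        simp only [← Category.assoc]
        rw [← Preadditive.sum_comp, d.sum, Category.id_comp]
      right_inv := by
        intro f
        ext b
        simp only
        rw [Preadditive.comp_sum, Finset.sum_eq_single b]
        · rw [← Category.assoc, d.same, Category.id_comp]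
        · intro b' _ hb
          rw [← Category.assoc, d.diff b b' hb.symm, zero_comp]
        · intro h; exact absurd (Finset.mem_univ _) h }
  rw [e.finrank_eq, Module.finrank_pi_fintype]

lemma card_idx {Z : C} (d : Dec K.S Z) (i : Fin K.n) :
    (Finset.univ.filter fun b => d.idx b = i).card = Module.finrank ℂ (K.S i ⟶ Z) := by
  rw [K.finrank_hom_dec d (K.S i)]
  simp_rw [K.finrank_simple]
  rw [Finset.card_filter]
  exact Finset.sum_congr rfl fun b _ => by simp only [eq_comm]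

lemma finrank_symm (Z : C) (i : Fin K.n) :
    Module.finrank ℂ (Z ⟶ K.S i) = Module.finrank ℂ (K.S i ⟶ Z) := by
  rw [← K.card_idx (K.dec Z), K.finrank_hom_dec' (K.dec Z)]
  simp_rw [K.finrank_simple]
  rw [Finset.card_filter]

/-- Sums over a decomposition. -/
lemma sum_dec {Z : C} (d : Dec K.S Z) {A : Type*} [AddCommMonoid A]
    (g : Fin K.n → A) : ∑ b, g (d.idx b) = ∑ i, Module.finrank ℂ (K.S i ⟶ Z) • g i := by
  rw [← Finset.sum_fiberwise_of_maps_to (g := d.idx) (t := Finset.univ) (fun _ _ => Finset.mem_univ _)]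
  refine Finset.sum_congr rfl fun i _ => ?_
  rw [← K.card_idx d i, ← Finset.sum_const]
  refine Finset.sum_congr rfl fun b hb => ?_
  rw [(Finset.mem_filter.mp hb).2]

end Ctx

end Pool.Agent.H386
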