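import Mathlib

set_option autoImplicit false

namespace Pool.Agent.H386

lemma dec3 : ∀ T ∈ Finset.Icc 16 21, ∀ N ∈ Finset.Icc 1 150, N ∣ T ^ 3 →
    ∀ S ∈ Finset.Icc 1 N, N ^ 2 ∣ S ^ 3 →
    328509 + 172500 * S < 238050 * T + 125000 * N →
    16017800 * T + 8000000 * N < 22665187 + 11320000 * S →
    1651225 * T + 15625 * N < 16974593 + 160625 * S → False := by
  decide +kernel

end Pool.Agent.H386
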