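import Mathlib

/-!
Definitions: complex fusion categories, pivotal and spherical structures, global dimensions.
-/

set_option autoImplicit false

open CategoryTheory CategoryTheory.Limits MonoidalCategory

namespace Pool.Agent.H386

universe v u

/-- A complex fusion category: an abelian `ℂ`-linear rigid monoidal category (with bilinear tensor
product) with finite dimensional Hom spaces in which every object is a finite direct sum of simple
objects, there are finitely many isomorphism classes of simple objects, and the unit is simple. -/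
structure IsFusionCategory (C : Type u) [Category.{v} C] [Abelian C] [Linear ℂ C]
    [MonoidalCategory C] [MonoidalPreadditive C] [MonoidalLinear ℂ C] [RigidCategory C] : Prop where
  finiteDimensional_hom : ∀ X Y : C, FiniteDimensional ℂ (X ⟶ Y)
  semisimple : ∀ X : C, ∃ (n : ℕ) (S : Fin n → C) (b : Bicone S), (∀ i, Simple (S i)) ∧
    Nonempty b.IsBilimit ∧ Nonempty (X ≅ b.pt)
  finitely_many_simples : ∃ (n : ℕ) (S : Fin n → C), ∀ Y : C, Simple Y → ∃ i, Nonempty (Y ≅ S i)
  simple_unit : Simple (𝟙_ C)

/-- `S` is a complete list, without repetition, of representatives of the isomorphism classes of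
simple objects. -/
structure IsSimpleList {C : Type u} [Category.{v} C] [Abelian C] {n : ℕ} (S : Fin n → C) :
    Prop where
  simple : ∀ i, Simple (S i)
  inj : ∀ i j, Nonempty (S i ≅ S j) → i = j
  complete : ∀ Y : C, Simple Y → ∃ i, Nonempty (Y ≅ S i)

/-- A pivotal structure on a rigid monoidal category: a natural isomorphism from the identity
functor to the double (right) dual functor which is compatible with tensor products, the tensor
structure of the double dual functor being the canonical one. (The compatibility with the unit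
object is a consequence.) -/
structure Pivotal (C : Type u) [Category.{v} C] [MonoidalCategory C] [RigidCategory C] where
  /-- the components of the natural isomorphism -/
  iso : ∀ X : C, X ≅ (Xᘁ)ᘁ
  naturality : ∀ {X Y : C} (f : X ⟶ Y), f ≫ (iso Y).hom = (iso X).hom ≫ (fᘁ)ᘁ
  tensor : ∀ X Y : C, (iso (X ⊗ Y)).hom ≫ ((rightDualTensorIso X Y).inv)ᘁ ≫
    (rightDualTensorIso (Yᘁ) (Xᘁ)).hom = (iso X).hom ⊗ₘ (iso Y).hom

/-- The quantum dimension `Tr(δ_X)` of an object, as an endomorphism of the unit object. -/
def Pivotal.qdim {C : Type u} [Category.{v} C] [MonoidalCategory C] [RigidCategory C]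
    (δ : Pivotal C) (X : C) : 𝟙_ C ⟶ 𝟙_ C :=
  η_ X (Xᘁ) ≫ (δ.iso X).hom ▷ (Xᘁ) ≫ ε_ (Xᘁ) ((Xᘁ)ᘁ)

/-- The pivotal structure is spherical: `Tr(δ_X) = Tr(δ_{X*})` for all objects `X`. -/
def Pivotal.Spherical {C : Type u} [Category.{v} C] [MonoidalCategory C] [RigidCategory C]
    (δ : Pivotal C) : Prop :=
  ∀ X : C, δ.qdim X = δ.qdim (Xᘁ)

/-- `x` is the global dimension of the pivotal fusion category `(C, δ)`: the sum of the squares
of the quantum dimensions of the simple objects. -/
def IsGlobalDim {C : Type u} [Category.{v} C] [Abelian C] [Linear ℂ C] [MonoidalCategory C]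
    [RigidCategory C] (δ : Pivotal C) (x : ℝ) : Prop :=
  ∃ (n : ℕ) (S : Fin n → C) (d : Fin n → ℂ), IsSimpleList S ∧
    (∀ i, δ.qdim (S i) = d i • 𝟙 (𝟙_ C)) ∧ (x : ℂ) = ∑ i, d i ^ 2

/-- The set of global dimensions of spherical fusion categories. -/
def sphericalDims : Set ℝ :=
  {x | ∃ (C : Type u) (_ : Category.{v} C) (_ : Abelian C) (_ : Linear ℂ C)
    (_ : MonoidalCategory C) (_ : MonoidalPreadditive C) (_ : MonoidalLinear ℂ C)
    (_ : RigidCategory C), IsFusionCategory C ∧ ∃ δ : Pivotal C, δ.Spherical ∧ IsGlobalDim δ x}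

end Pool.Agent.H386
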