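import Mathlib

set_option autoImplicit false
set_option linter.unusedSectionVars false

open Polynomial

namespace Pool.Agent.H386.Alg

variable {V : Type*} [AddCommGroup V] [Module ℂ V] [FiniteDimensional ℂ V]

lemma multiset_prod_norm_le (s : Multiset ℂ) (M : ℝ) (h : ∀ a ∈ s, ‖a‖ ≤ M) :
    ‖s.prod‖ ≤ M ^ s.card := by
  induction s using Multiset.induction_on with
  | empty => simp
  | cons a s ih =>
    rw [Multiset.prod_cons, Multiset.card_cons, norm_mul, pow_succ, mul_comm]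
    have h1 := h a (Multiset.mem_cons_self a s)
    have h2 := ih fun b hb => h b (Multiset.mem_cons_of_mem hb)
    have h3 : 0 ≤ ‖s.prod‖ := norm_nonneg _
    have h4 : 0 ≤ ‖a‖ := norm_nonneg _
    exact mul_le_mul h2 h1 h4 (le_trans h3 h2)

lemma le_multiset_prod_norm (s : Multiset ℂ) (m : ℝ) (hm : 0 ≤ m) (h : ∀ a ∈ s, m ≤ ‖a‖) :
    m ^ s.card ≤ ‖s.prod‖ := by
  induction s using Multiset.induction_on with
  | empty => simp
  | cons a s ih =>
    rw [Multiset.prod_cons, Multiset.card_cons, norm_mul, pow_succ, mul_comm]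
    have h1 := h a (Multiset.mem_cons_self a s)
    have h2 := ih fun b hb => h b (Multiset.mem_cons_of_mem hb)
    exact mul_le_mul h1 h2 (by positivity) (norm_nonneg _)

/-- The determinant of an operator all of whose eigenvalues lie in an annulus. -/
lemma det_bounds (T : Module.End ℂ V) (m M : ℝ) (hm : 0 ≤ m)
    (h : ∀ μ, T.HasEigenvalue μ → m ≤ ‖μ‖ ∧ ‖μ‖ ≤ M) :
    m ^ (Module.finrank ℂ V) ≤ ‖LinearMap.det T‖ ∧
      ‖LinearMap.det T‖ ≤ M ^ (Module.finrank ℂ V) := by
  have hs : T.charpoly.Splits := IsAlgClosed.splits _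
  have hc : T.charpoly.roots.card = Module.finrank ℂ V := by
    rw [← hs.natDegree_eq_card_roots, LinearMap.charpoly_natDegree]
  have hd := Module.End.det_eq_prod_roots_charpoly_of_splits hs
  have hr : ∀ a ∈ T.charpoly.roots, T.HasEigenvalue a := by
    intro a ha
    rw [Module.End.hasEigenvalue_iff_isRoot_charpoly]
    exact (mem_roots'.mp ha).2
  rw [hd, ← hc]
  exact ⟨le_multiset_prod_norm _ m hm fun a ha => (h a (hr a ha)).1,
    multiset_prod_norm_le _ M fun a ha => (h a (hr a ha)).2⟩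

/-- eigenvalues are roots of annihilating polynomials -/
lemma eigen_root (T : Module.End ℂ V) (q : ℂ[X]) (hq : aeval T q = 0) (μ : ℂ)
    (h : T.HasEigenvalue μ) : q.IsRoot μ := by
  obtain ⟨x, hx⟩ := h.exists_hasEigenvector
  have h1 := Module.End.aeval_apply_of_hasEigenvector (p := q) hx
  rw [hq, LinearMap.zero_apply] at h1
  rcases smul_eq_zero.mp h1.symm with h | h
  · exact h
  · exact absurd h hx.2

lemma numerics_one (N : ℕ) (hN : 0 < N) (m M s : ℝ) (hm : 0 < m) (hM : 0 < M)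
    (hs : 0 < s) (h1 : M ^ (2 * N) * s ≤ M ^ N) (h2 : m ^ N ≤ M ^ (4 * N) * s ^ 6) :
    m * M ^ 2 ≤ 1 := by
  have hMN : 0 < M ^ N := by positivity
  have e1 : M ^ N * s ≤ 1 := by
    have : M ^ N * (M ^ N * s) ≤ M ^ N * 1 := by
      calc
        _ = M ^ (2 * N) * s := by ring
        _ ≤ M ^ N * 1 := by linarith
    exact le_of_mul_le_mul_left this hMN
  have e3 : (m * M ^ 2) ^ N ≤ 1 := by
    calc
      (m * M ^ 2) ^ N = m ^ N * (M ^ N) ^ 2 := by ring
      _ ≤ (M ^ (4 * N) * s ^ 6) * (M ^ N) ^ 2 := by gcongr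
      _ = (M ^ N * s) ^ 6 := by ring
      _ ≤ 1 := pow_le_one₀ (by positivity) e1
  by_contra h
  push Not at h
  have := one_lt_pow₀ h hN.ne'
  linarith

lemma numerics_two (N : ℕ) (hN : 0 < N) (m M s : ℝ) (hm : 0 < m) (hM : 0 < M)
    (h3 : m ^ N ≤ m ^ (2 * N) * s) (h4 : m ^ (4 * N) * s ^ 6 ≤ M ^ N) :
    1 ≤ M * m ^ 2 := by
  have hmN : 0 < m ^ N := by positivity
  have e2 : 1 ≤ m ^ N * s := by
    have : m ^ N * 1 ≤ m ^ N * (m ^ N * s) := by
      calc
        _ = m ^ N := by ring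
        _ ≤ m ^ (2 * N) * s := h3
        _ = _ := by ring
    exact le_of_mul_le_mul_left this hmN
  have e4 : 1 ≤ (M * m ^ 2) ^ N := by
    calc
      1 ≤ (m ^ N * s) ^ 6 := one_le_pow₀ e2
      _ = (m ^ (4 * N) * s ^ 6) * (m ^ N) ^ 2 := by ring
      _ ≤ M ^ N * (m ^ N) ^ 2 := by gcongr
      _ = _ := by ring
  by_contra h
  push Not at h
  have := pow_lt_one₀ (by positivity) h hN.ne'
  linarith

/-- The numerical part of the unimodularity argument. -/
lemma unimodular_numerics (m M : ℝ) (hm : 0 < m) (hM : 0 < M) (f3 : m * M ^ 2 ≤ 1)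
    (f4 : 1 ≤ M * m ^ 2) (hle : m ≤ M) : m = 1 ∧ M = 1 := by
  have g1 : m * M ^ 2 ≤ M * m ^ 2 := le_trans f3 f4
  have g2 : M ≤ m := by
    have h5 : (m * M) * M ≤ (m * M) * m := by nlinarith
    exact le_of_mul_le_mul_left h5 (by positivity)
  have g3 : m = M := le_antisymm hle g2
  subst g3
  have h5 : m ^ 3 = 1 := le_antisymm (by nlinarith) (by nlinarith)
  have h6 : m = 1 := by
    have := pow_eq_one_iff_of_nonneg hm.le (n := 3) (by norm_num)
    exact this.mp h5
  exact ⟨h6, h6⟩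

end Pool.Agent.H386.Alg
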