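import Pool.Agent.H386.JV

set_option autoImplicit false
set_option linter.unusedSectionVars false

open CategoryTheory CategoryTheory.Limits MonoidalCategory

namespace Pool.Agent.H386

universe v u

open CategoryTheory.HasRightDual (rightDual)

attribute [-instance] CategoryTheory.hasRightDualUnit CategoryTheory.hasLeftDualUnit

variable {C : Type u} [Category.{v} C] [Abelian C] [Linear ℂ C]
    [MonoidalCategory C] [MonoidalPreadditive C] [MonoidalLinear ℂ C] [RigidCategory C]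

namespace Ctx

variable (K : Ctx C)

/-- The free center object on `V`. -/
structure Free (V : C) where
  Z : Cen C
  u : V ⟶ Z.X
  inc : ∀ j, (rightDual (K.S j)) ⊗ (V ⊗ K.S j) ⟶ Z.X
  prj : ∀ j, Z.X ⟶ (rightDual (K.S j)) ⊗ (V ⊗ K.S j)
  sum : ∑ j, prj j ≫ inc j = 𝟙 _
  same : ∀ j, inc j ≫ prj j = 𝟙 _
  diff : ∀ j k, j ≠ k → inc j ≫ prj k = 0
  hu : ∀ j, u ▷ K.S j ≫ Z.b (K.S j) =
    𝟙 _ ⊗≫ η_ (K.S j) (rightDual (K.S j)) ▷ (V ⊗ K.S j) ⊗≫ K.S j ◁ inc j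

lemma exists_free (V : C) : Nonempty (K.Free V) := by
  obtain ⟨P⟩ := K.exists_preFree V
  have hup : ∀ X : C, ∃ g : P.J ⊗ X ⟶ X ⊗ P.J, ∀ U,
      (α_ V U X).inv ≫ P.ω U ▷ X ≫ (α_ U P.J X).hom ≫ U ◁ g =
        P.ω (U ⊗ X) ≫ (α_ U X P.J).hom := by
    intro X
    refine P.exists_up (fun U => P.ω (U ⊗ X) ≫ (α_ U X P.J).hom) ?_
    intro U U' f
    calc
      _ = (V ◁ (f ▷ X) ≫ P.ω (U' ⊗ X)) ≫ (α_ U' X P.J).hom := by simp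
      _ = _ := by rw [P.nat]; simp
  choose b hb using hup
  have hb' : ∀ X U, (P.ω U ▷ X ⊗≫ U ◁ b X : (V ⊗ U) ⊗ X ⟶ U ⊗ (X ⊗ P.J)) =
      𝟙 _ ⊗≫ P.ω (U ⊗ X) ⊗≫ 𝟙 _ := by
    intro X U
    calc
      _ = 𝟙 _ ⊗≫ ((α_ V U X).inv ≫ P.ω U ▷ X ≫ (α_ U P.J X).hom ≫ U ◁ b X) ⊗≫ 𝟙 _ := by
        monoidal
      _ = _ := by rw [hb]; monoidal
  have hnat : ∀ {U U' : C} (f : U ⟶ U'), P.J ◁ f ≫ b U' = b U ≫ f ▷ P.J := by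
    intro X X' f
    apply P.ext
    intro j
    calc
      _ = 𝟙 _ ⊗≫ (P.ω (K.S j) ▷ X ≫ (K.S j ⊗ P.J) ◁ f) ⊗≫ K.S j ◁ b X' ⊗≫ 𝟙 _ := by monoidal
      _ = 𝟙 _ ⊗≫ (V ⊗ K.S j) ◁ f ⊗≫ (P.ω (K.S j) ▷ X' ⊗≫ K.S j ◁ b X') ⊗≫ 𝟙 _ := by
        rw [← whisker_exchange]; monoidal
      _ = 𝟙 _ ⊗≫ (V ◁ (K.S j ◁ f) ≫ P.ω (K.S j ⊗ X')) ⊗≫ 𝟙 _ := by
        rw [hb']; monoidal
      _ = (𝟙 ((V ⊗ K.S j) ⊗ X) ⊗≫ P.ω (K.S j ⊗ X) ⊗≫ 𝟙 (K.S j ⊗ (X ⊗ P.J))) ⊗≫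
            K.S j ◁ f ▷ P.J ⊗≫ 𝟙 _ := by
        rw [P.nat]; monoidal
      _ = _ := by rw [← hb']; monoidal
  have htens : ∀ U U', b (U ⊗ U') = 𝟙 _ ⊗≫ b U ▷ U' ⊗≫ U ◁ b U' ⊗≫ 𝟙 _ := by
    intro X X'
    apply P.ext
    intro j
    calc
      _ = 𝟙 _ ⊗≫ (V ◁ (α_ (K.S j) X X').hom ≫ P.ω (K.S j ⊗ X ⊗ X')) ⊗≫ 𝟙 _ := by
        rw [hb']; monoidal
      _ = 𝟙 _ ⊗≫ (P.ω ((K.S j ⊗ X) ⊗ X') ≫ (α_ (K.S j ⊗ X) X' P.J).hom) ⊗≫ 𝟙 _ := by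
        rw [P.nat]; monoidal
      _ = 𝟙 _ ⊗≫ (P.ω (K.S j ⊗ X) ≫ (α_ (K.S j) X P.J).hom) ▷ X' ⊗≫
            (K.S j ⊗ X) ◁ b X' ⊗≫ 𝟙 _ := by
        rw [← hb X' (K.S j ⊗ X)]; monoidal
      _ = _ := by rw [← hb X (K.S j)]; monoidal
  have hunit : b (𝟙_ C) = (ρ_ P.J).hom ≫ (λ_ P.J).inv := by
    apply P.ext
    intro j
    calc
      _ = 𝟙 _ ⊗≫ (P.ω (K.S j ⊗ 𝟙_ C) ≫ (ρ_ (K.S j)).hom ▷ P.J) ⊗≫ 𝟙 _ := by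
        rw [hb']; monoidal
      _ = _ := by
        rw [← P.nat]; monoidal
  refine ⟨⟨Cen.ofNat K.δ P.J b hnat htens hunit, (ρ_ V).inv ≫ P.ω (𝟙_ C) ≫ (λ_ P.J).hom, P.inc,
    P.prj, P.sum, P.same, P.diff, ?_⟩⟩
  intro j
  change ((ρ_ V).inv ≫ P.ω (𝟙_ C) ≫ (λ_ P.J).hom) ▷ K.S j ≫ b (K.S j) = _
  refine Eq.trans ?_ (P.hω j)
  calc
    _ = 𝟙 _ ⊗≫ ((α_ V (𝟙_ C) (K.S j)).inv ≫ P.ω (𝟙_ C) ▷ (K.S j) ≫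
          (α_ (𝟙_ C) P.J (K.S j)).hom ≫ (𝟙_ C) ◁ b (K.S j)) ⊗≫ 𝟙 _ := by monoidal
    _ = 𝟙 _ ⊗≫ (P.ω (𝟙_ C ⊗ K.S j) ≫ (λ_ (K.S j)).hom ▷ P.J) ⊗≫ 𝟙 _ := by
      rw [hb]; monoidal
    _ = _ := by rw [← P.nat]; monoidal

/-- A chosen free center object. -/
noncomputable def J (V : C) : K.Free V := (K.exists_free V).some

namespace Free

variable {K} {V W : C} (F : K.Free V)

/-- the universal natural family -/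
def ω (U : C) : V ⊗ U ⟶ U ⊗ F.Z.X := F.u ▷ U ≫ F.Z.b U

lemma ω_nat {U U' : C} (f : U ⟶ U') : V ◁ f ≫ F.ω U' = F.ω U ≫ f ▷ F.Z.X := by
  unfold ω
  rw [← Category.assoc, whisker_exchange, Category.assoc, F.Z.nat, Category.assoc]

lemma ω_tens (U X : C) : F.ω (U ⊗ X) = 𝟙 _ ⊗≫ F.ω U ▷ X ⊗≫ U ◁ F.Z.b X ⊗≫ 𝟙 _ := by
  unfold ω
  rw [F.Z.tens]; monoidal

lemma inc_eq {B : C} (g : F.Z.X ⟶ B) (j : Fin K.n) :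
    F.inc j ≫ g = 𝟙 _ ⊗≫ (rightDual (K.S j)) ◁ (F.ω (K.S j) ≫ K.S j ◁ g) ⊗≫
      ε_ (K.S j) (rightDual (K.S j)) ▷ B ⊗≫ 𝟙 _ := by
  symm
  calc
    _ = 𝟙 _ ⊗≫ (rightDual (K.S j)) ◁ (η_ (K.S j) (rightDual (K.S j)) ▷ (V ⊗ K.S j)) ⊗≫
          (((rightDual (K.S j)) ⊗ K.S j) ◁ (F.inc j ≫ g) ≫ ε_ (K.S j) (rightDual (K.S j)) ▷ B) ⊗≫ 𝟙 _ := by
      rw [ω, F.hu]; monoidal
    _ = 𝟙 _ ⊗≫ ((rightDual (K.S j)) ◁ η_ (K.S j) (rightDual (K.S j)) ⊗≫ ε_ (K.S j) (rightDual (K.S j)) ▷ (rightDual (K.S j))) ▷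
          (V ⊗ K.S j) ⊗≫ (F.inc j ≫ g) ⊗≫ 𝟙 _ := by
      rw [whisker_exchange]; monoidal
    _ = _ := by
      rw [ExactPairing.coevaluation_evaluation'']; monoidal

lemma ext_inc {B : C} {g g' : F.Z.X ⟶ B} (h : ∀ j, F.inc j ≫ g = F.inc j ≫ g') : g = g' := by
  have key : ∀ g : F.Z.X ⟶ B, g = ∑ j, F.prj j ≫ F.inc j ≫ g := by
    intro g
    simp_rw [← Category.assoc]
    rw [← Preadditive.sum_comp, F.sum, Category.id_comp]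
  rw [key g, key g']
  refine Finset.sum_congr rfl fun j _ => ?_
  rw [h]

/-- morphisms out of the free object are determined by the natural family. -/
lemma ext {B : C} {g g' : F.Z.X ⟶ B} (h : ∀ U, F.ω U ≫ U ◁ g = F.ω U ≫ U ◁ g') : g = g' := by
  apply F.ext_inc
  intro j
  rw [F.inc_eq, F.inc_eq, h]

lemma ext_unit {B : C} {g g' : F.Z.X ⟶ B} (h1 : F.ω (𝟙_ C) ≫ 𝟙_ C ◁ g = F.ω (𝟙_ C) ≫ 𝟙_ C ◁ g')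
    (h2 : ∀ U : C, Simple U → ¬ Nonempty (U ≅ 𝟙_ C) → F.ω U ≫ U ◁ g = F.ω U ≫ U ◁ g') :
    g = g' := by
  apply F.ext
  refine K.nat_ext_unit (tensorLeft V) (tensorRight B) ?_ ?_ h1 h2
  · intro U U' f
    change V ◁ f ≫ F.ω U' ≫ U' ◁ g = (F.ω U ≫ U ◁ g) ≫ f ▷ B
    rw [← Category.assoc, F.ω_nat, Category.assoc, ← whisker_exchange, Category.assoc]
  · intro U U' f
    change V ◁ f ≫ F.ω U' ≫ U' ◁ g' = (F.ω U ≫ U ◁ g') ≫ f ▷ B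
    rw [← Category.assoc, F.ω_nat, Category.assoc, ← whisker_exchange, Category.assoc]

lemma u_eq : F.u = (ρ_ V).inv ≫ F.ω (𝟙_ C) ≫ (λ_ F.Z.X).hom := by
  unfold ω
  rw [F.Z.b_unit]
  simp

/-- a natural family factors through the universal one. -/
lemma exists_up {B : C} (Φ : ∀ U, V ⊗ U ⟶ U ⊗ B)
    (hΦ : ∀ {U U' : C} (f : U ⟶ U'), V ◁ f ≫ Φ U' = Φ U ≫ f ▷ B) :
    ∃ g : F.Z.X ⟶ B, ∀ U, F.ω U ≫ U ◁ g = Φ U := by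
  let g : F.Z.X ⟶ B := ∑ j, F.prj j ≫ (𝟙 _ ⊗≫ (rightDual (K.S j)) ◁ Φ (K.S j) ⊗≫
      ε_ (K.S j) (rightDual (K.S j)) ▷ B ⊗≫ 𝟙 _)
  have hg : ∀ j, F.inc j ≫ g = 𝟙 _ ⊗≫ (rightDual (K.S j)) ◁ Φ (K.S j) ⊗≫
      ε_ (K.S j) (rightDual (K.S j)) ▷ B ⊗≫ 𝟙 _ := by
    intro j
    rw [Preadditive.comp_sum, Finset.sum_eq_single j]
    · rw [← Category.assoc, F.same, Category.id_comp]
    · intro k _ hk
      rw [← Category.assoc, F.diff j k hk.symm, zero_comp]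
    · intro h; exact absurd (Finset.mem_univ _) h
  refine ⟨g, fun U => ?_⟩
  refine K.nat_ext (tensorLeft V) (tensorRight B)
    (Φ := fun U => F.ω U ≫ U ◁ g) (Ψ := Φ) ?_ ?_ ?_ U
  · intro U U' f
    change V ◁ f ≫ F.ω U' ≫ U' ◁ g = (F.ω U ≫ U ◁ g) ≫ f ▷ B
    rw [← Category.assoc, F.ω_nat, Category.assoc, ← whisker_exchange, Category.assoc]
  · intro U U' f
    exact hΦ f
  · intro j
    calc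
      _ = 𝟙 _ ⊗≫ η_ (K.S j) (rightDual (K.S j)) ▷ (V ⊗ K.S j) ⊗≫ K.S j ◁ (F.inc j ≫ g) := by
        rw [ω, F.hu]; monoidal
      _ = 𝟙 _ ⊗≫ (η_ (K.S j) (rightDual (K.S j)) ▷ (V ⊗ K.S j) ≫
            (K.S j ⊗ (rightDual (K.S j))) ◁ Φ (K.S j)) ⊗≫ K.S j ◁ (ε_ (K.S j) (rightDual (K.S j)) ▷ B) ⊗≫ 𝟙 _ := by
        rw [hg]; monoidal
      _ = Φ (K.S j) ⊗≫ (η_ (K.S j) (rightDual (K.S j)) ▷ (K.S j) ⊗≫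
            (K.S j) ◁ ε_ (K.S j) (rightDual (K.S j))) ▷ B ⊗≫ 𝟙 _ := by
        rw [← whisker_exchange]; monoidal
      _ = _ := by
        rw [ExactPairing.evaluation_coevaluation'']; monoidal

/-- morphisms of center objects out of the free object. -/
lemma exists_hat (Y : Cen C) (f : V ⟶ Y.X) :
    ∃ g : F.Z.X ⟶ Y.X, F.Z.IsHom Y g ∧ F.u ≫ g = f := by
  obtain ⟨g, hg⟩ := F.exists_up (fun U => f ▷ U ≫ Y.b U) (by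
    intro U U' h
    rw [← Category.assoc, whisker_exchange, Category.assoc, Y.nat, Category.assoc])
  have hug : F.u ≫ g = f := by
    have h1 := hg (𝟙_ C)
    rw [u_eq]
    calc
      _ = (ρ_ V).inv ≫ (F.ω (𝟙_ C) ≫ 𝟙_ C ◁ g) ≫ (λ_ _).hom := by simp
      _ = _ := by
        rw [h1, Y.b_unit]; simp
  refine ⟨g, ?_, hug⟩
  intro X
  -- check on the components
  have key : ∀ h : F.Z.X ⊗ X ⟶ X ⊗ Y.X, h = ∑ j, F.prj j ▷ X ≫ F.inc j ▷ X ≫ h := by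
    intro h
    simp_rw [← Category.assoc, ← comp_whiskerRight]
    rw [← Preadditive.sum_comp, ← sum_whiskerRight, F.sum, id_whiskerRight, Category.id_comp]
  rw [key (g ▷ X ≫ Y.b X), key (F.Z.b X ≫ X ◁ g)]
  refine Finset.sum_congr rfl fun j _ => ?_
  congr 1
  calc
    _ = (F.inc j ≫ g) ▷ X ≫ Y.b X := by simp
    _ = 𝟙 _ ⊗≫ ((rightDual (K.S j)) ◁ (f ▷ K.S j ≫ Y.b (K.S j))) ▷ X ⊗≫
      (ε_ (K.S j) (rightDual (K.S j)) ▷ (Y.X ⊗ X) ≫ 𝟙_ C ◁ Y.b X) ⊗≫ 𝟙 _ := by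
      rw [F.inc_eq, hg]; monoidal
    _ = 𝟙 _ ⊗≫ (rightDual (K.S j)) ◁ (f ▷ (K.S j ⊗ X) ≫ (𝟙 _ ⊗≫ Y.b (K.S j) ▷ X ⊗≫ K.S j ◁ Y.b X ⊗≫ 𝟙 _ :
          Y.X ⊗ (K.S j ⊗ X) ⟶ (K.S j ⊗ X) ⊗ Y.X)) ⊗≫
      ε_ (K.S j) (rightDual (K.S j)) ▷ (X ⊗ Y.X) ⊗≫ 𝟙 _ := by
      rw [← whisker_exchange]; monoidal
    _ = 𝟙 _ ⊗≫ (rightDual (K.S j)) ◁ (F.ω (K.S j ⊗ X) ≫ (K.S j ⊗ X) ◁ g) ⊗≫
      ε_ (K.S j) (rightDual (K.S j)) ▷ (X ⊗ Y.X) ⊗≫ 𝟙 _ := by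
      rw [← Y.tens, hg]
    _ = 𝟙 _ ⊗≫ ((rightDual (K.S j)) ◁ F.ω (K.S j)) ▷ X ⊗≫
      (((rightDual (K.S j)) ⊗ K.S j) ◁ (F.Z.b X ≫ X ◁ g) ≫ ε_ (K.S j) (rightDual (K.S j)) ▷ (X ⊗ Y.X)) ⊗≫ 𝟙 _ := by
      rw [F.ω_tens]; monoidal
    _ = (𝟙 _ ⊗≫ (rightDual (K.S j)) ◁ (F.ω (K.S j) ≫ K.S j ◁ 𝟙 _) ⊗≫
      ε_ (K.S j) (rightDual (K.S j)) ▷ F.Z.X ⊗≫ 𝟙 _ : (rightDual (K.S j)) ⊗ (V ⊗ K.S j) ⟶ F.Z.X) ▷ X ≫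
        (F.Z.b X ≫ X ◁ g) := by
      rw [whisker_exchange, MonoidalCategory.whiskerLeft_id, Category.comp_id]; monoidal
    _ = _ := by
      rw [← F.inc_eq, Category.comp_id]

lemma hom_ext {Y : Cen C} {g g' : F.Z.X ⟶ Y.X} (hg : F.Z.IsHom Y g) (hg' : F.Z.IsHom Y g')
    (h : F.u ≫ g = F.u ≫ g') : g = g' := by
  apply F.ext
  intro U
  unfold ω
  rw [Category.assoc, Category.assoc, ← hg U, ← hg' U, ← Category.assoc, ← Category.assoc,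
    ← comp_whiskerRight, ← comp_whiskerRight, h]

/-- the extension to the free object -/
noncomputable def hat (Y : Cen C) (f : V ⟶ Y.X) : F.Z.X ⟶ Y.X := (F.exists_hat Y f).choose

lemma hat_hom (Y : Cen C) (f : V ⟶ Y.X) : F.Z.IsHom Y (F.hat Y f) :=
  (F.exists_hat Y f).choose_spec.1

lemma u_hat (Y : Cen C) (f : V ⟶ Y.X) : F.u ≫ F.hat Y f = f :=
  (F.exists_hat Y f).choose_spec.2

lemma hat_u (Y : Cen C) {g : F.Z.X ⟶ Y.X} (hg : F.Z.IsHom Y g) : F.hat Y (F.u ≫ g) = g :=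
  F.hom_ext (F.hat_hom _ _) hg (F.u_hat _ _)

lemma ω_hom {Y : Cen C} {g : F.Z.X ⟶ Y.X} (hg : F.Z.IsHom Y g) (U : C) :
    F.ω U ≫ U ◁ g = (F.u ≫ g) ▷ U ≫ Y.b U := by
  unfold ω
  rw [Category.assoc, ← hg U, comp_whiskerRight, Category.assoc]

end Free

end Ctx

end Pool.Agent.H386
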