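import Pool.Agent.H386.Spec2

set_option autoImplicit false
set_option linter.unusedSectionVars false

open CategoryTheory CategoryTheory.Limits MonoidalCategory

namespace Pool.Agent.H386

universe v u

variable {C : Type u} [Category.{v} C] [Abelian C] [Linear ℂ C]
    [MonoidalCategory C] [MonoidalPreadditive C] [MonoidalLinear ℂ C] [RigidCategory C]

namespace Ctx

variable (K : Ctx C)

/-- The key inequality. -/
theorem key_inequality (χ : K.Chr) :
    8 * (∑ a, K.dimChr.r (K.S a) ^ 2) / (∑ a, χ.r (K.S a) ^ 2) ^ 2 ≤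
      3 * (∑ a, K.dimChr.r (K.S a) ^ 2) + 4 + ∑ a, (K.δ.nu (K.S a) : ℝ) * K.dimChr.r (K.S a) := by
  obtain ⟨m, κ, θ, x, h1, h2, h3, h4, h5, h6, h7, -⟩ := K.exists_spec χ
  set D : ℝ := ∑ a, K.dimChr.r (K.S a) ^ 2 with hD
  set f : ℝ := ∑ a, χ.r (K.S a) ^ 2 with hf
  set h : ℝ := ∑ a, (K.δ.nu (K.S a) : ℝ) * K.dimChr.r (K.S a) with hh
  have hDpos : 1 ≤ D := K.dimChr.f_ge_one
  have hfpos : 1 ≤ f := χ.f_ge_one
  have hDc : K.D = (D : ℂ) := K.dimChr.f_eq
  have hfc : χ.f = (f : ℂ) := χ.f_eq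
  have hhc : ∑ a, K.dim (K.S a) * (K.δ.nu (K.S a) : ℂ) = (h : ℂ) := by
    rw [hh]
    push_cast
    refine Finset.sum_congr rfl fun a _ => ?_
    rw [K.dimChr.r_coe]
    change K.dim (K.S a) * _ = _ * K.dim (K.S a)
    ring
  rw [hDc] at h4 h5 h6 h7
  rw [hfc] at h7
  rw [hhc] at h6
  -- real versions
  have r4 : ∑ z, κ z ^ 2 = D * D := by
    have : ((∑ z, κ z ^ 2 : ℝ) : ℂ) = ((D * D : ℝ) : ℂ) := by
      push_cast
      exact h4
    exact_mod_cast this
  have r5 : ∑ z, κ z ^ 2 * (θ z).re = D := by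
    have := congrArg Complex.re h5
    rw [Complex.re_sum, Complex.ofReal_re] at this
    rw [← this]
    refine Finset.sum_congr rfl fun z _ => ?_
    rw [← Complex.ofReal_pow, Complex.re_ofReal_mul]
  have r6 : ∑ z, κ z ^ 2 * ((θ z) ^ 2).re = D * h := by
    have := congrArg Complex.re h6
    rw [Complex.re_sum, ← Complex.ofReal_mul, Complex.ofReal_re] at this
    rw [← this]
    refine Finset.sum_congr rfl fun z _ => ?_
    rw [← Complex.ofReal_pow, Complex.re_ofReal_mul]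
  have r7 : ∑ z, κ z * (x z : ℝ) = D / f := by
    have : ((∑ z, κ z * (x z : ℝ) : ℝ) : ℂ) = ((D / f : ℝ) : ℂ) := by
      push_cast
      rw [h7]; ring
    exact_mod_cast this
  -- the test function
  have hsq : ∀ z, ((θ z) ^ 2).re = 2 * (θ z).re ^ 2 - 1 := by
    intro z
    have e1 : (θ z).re ^ 2 + (θ z).im ^ 2 = 1 := by
      have := h1 z
      have e2 : Complex.normSq (θ z) = 1 := by
        rw [Complex.normSq_eq_norm_sq, this]; norm_num
      rw [Complex.normSq_apply] at e2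
      nlinarith
    rw [sq, Complex.mul_re]
    nlinarith
  have hG : ∑ z, (κ z * (2 + 2 * (θ z).re)) ^ 2 = 6 * (D * D) + 8 * D + 2 * (D * h) := by
    rw [← r4, ← r6]
    conv_rhs => rw [← r5]
    rw [Finset.mul_sum, Finset.mul_sum, Finset.mul_sum, ← Finset.sum_add_distrib,
      ← Finset.sum_add_distrib]
    refine Finset.sum_congr rfl fun z _ => ?_
    rw [hsq]
    ring
  have hX : ∑ z, (κ z * (2 + 2 * (θ z).re)) * (x z : ℝ) = 4 * (D / f) := by
    rw [← r7, Finset.mul_sum]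
    refine Finset.sum_congr rfl fun z _ => ?_
    by_cases hz : x z = 0
    · rw [hz]; simp
    · rw [h2 z hz]
      simp only [Complex.one_re]
      ring
  have hCS := Finset.sum_mul_sq_le_sq_mul_sq Finset.univ
    (fun z => κ z * (2 + 2 * (θ z).re)) (fun z => (x z : ℝ))
  rw [hX, hG, h3, mul_one] at hCS
  have hmain : 2 * D * (8 * D / f ^ 2) ≤ 2 * D * (3 * D + 4 + h) := by
    calc
      _ = (4 * (D / f)) ^ 2 := by
        field_simp
        ring
      _ ≤ _ := hCS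
      _ = _ := by ring
  exact le_of_mul_le_mul_left hmain (by linarith)

/-- The codegree of a character is an integral combination of dimensions. -/
theorem codegree (χ : K.Chr) : ∃ r : Fin K.n → ℕ,
    (∑ a, K.dimChr.r (K.S a) ^ 2) / (∑ a, χ.r (K.S a) ^ 2) =
      ∑ a, (r a : ℝ) * K.dimChr.r (K.S a) := by
  obtain ⟨m, κ, θ, x, h1, h2, h3, h4, h5, h6, h7, r, hr⟩ := K.exists_spec χ
  refine ⟨r, ?_⟩
  have hDc : K.D = ((∑ a, K.dimChr.r (K.S a) ^ 2 : ℝ) : ℂ) := K.dimChr.f_eq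
  rw [hDc, χ.f_eq] at hr
  have : (((∑ a, K.dimChr.r (K.S a) ^ 2) / (∑ a, χ.r (K.S a) ^ 2) : ℝ) : ℂ) =
      ((∑ a, (r a : ℝ) * K.dimChr.r (K.S a) : ℝ) : ℂ) := by
    rw [Complex.ofReal_div, div_eq_mul_inv, hr]
    push_cast
    refine Finset.sum_congr rfl fun a _ => ?_
    rw [K.dimChr.r_coe]
    rfl
  exact_mod_cast this

/-- distinct characters are orthogonal -/
theorem orthogonal (χ ψ : K.Chr) (V : C) (h : χ.c V ≠ ψ.c V) :
    ∑ a, χ.r (K.S a) * ψ.r (K.S a) = 0 := by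
  have h1 : χ.c V * ∑ j, χ.c (K.S j) * ψ.c (K.S j) =
      ψ.c V * ∑ j, χ.c (K.S j) * ψ.c (K.S j) := by
    calc
      _ = ∑ j, (χ.c V * χ.c (K.S j)) * ψ.c (K.S j) := by
        rw [Finset.mul_sum]
        exact Finset.sum_congr rfl fun j _ => by ring
      _ = ∑ j, ∑ k, (Module.finrank ℂ (K.S k ⟶ V ⊗ K.S j) : ℂ) * χ.c (K.S k) *
            ψ.c (K.S j) := by
        refine Finset.sum_congr rfl fun j _ => ?_
        rw [χ.mul_expand, Finset.sum_mul]
      _ = ∑ k, χ.c (K.S k) * (∑ j,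
            (Module.finrank ℂ (K.S k ⟶ V ⊗ K.S j) : ℂ) * ψ.c (K.S j)) := by
        rw [Finset.sum_comm]
        refine Finset.sum_congr rfl fun k _ => ?_
        rw [Finset.mul_sum]
        refine Finset.sum_congr rfl fun j _ => ?_
        ring
      _ = _ := by
        rw [Finset.mul_sum]
        refine Finset.sum_congr rfl fun k _ => ?_
        rw [← ψ.mul_expand']
        ring
  have h2 : (χ.c V - ψ.c V) * ∑ j, χ.c (K.S j) * ψ.c (K.S j) = 0 := by
    rw [sub_mul, h1, sub_self]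
  have h3 : ∑ j, χ.c (K.S j) * ψ.c (K.S j) = 0 := by
    rcases mul_eq_zero.mp h2 with h4 | h4
    · exact absurd (sub_eq_zero.mp h4) h
    · exact h4
  have h4 : ((∑ a, χ.r (K.S a) * ψ.r (K.S a) : ℝ) : ℂ) = 0 := by
    push_cast
    rw [← h3]
    exact Finset.sum_congr rfl fun j _ => by rw [χ.r_coe, ψ.r_coe]
  exact_mod_cast h4

end Ctx

end Pool.Agent.H386
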