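import Pool.Agent.H386.Cen

set_option autoImplicit false
set_option linter.unusedSectionVars false

open CategoryTheory CategoryTheory.Limits MonoidalCategory

namespace Pool.Agent.H386

universe v u

open CategoryTheory.HasRightDual (rightDual)

attribute [-instance] CategoryTheory.hasRightDualUnit CategoryTheory.hasLeftDualUnit

variable {C : Type u} [Category.{v} C] [Abelian C] [Linear ℂ C]
    [MonoidalCategory C] [MonoidalPreadditive C] [MonoidalLinear ℂ C] [RigidCategory C]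

namespace Ctx

variable (K : Ctx C)

/-- The data of the free center object before the half braiding is constructed. -/
structure PreFree (V : C) where
  J : C
  inc : ∀ j, (rightDual (K.S j)) ⊗ (V ⊗ K.S j) ⟶ J
  prj : ∀ j, J ⟶ (rightDual (K.S j)) ⊗ (V ⊗ K.S j)
  sum : ∑ j, prj j ≫ inc j = 𝟙 _
  same : ∀ j, inc j ≫ prj j = 𝟙 _
  diff : ∀ j k, j ≠ k → inc j ≫ prj k = 0
  ω : ∀ U, V ⊗ U ⟶ U ⊗ J
  nat : ∀ {U U' : C} (f : U ⟶ U'), V ◁ f ≫ ω U' = ω U ≫ f ▷ J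
  hω : ∀ j, ω (K.S j) = 𝟙 _ ⊗≫ η_ (K.S j) (rightDual (K.S j)) ▷ (V ⊗ K.S j) ⊗≫ K.S j ◁ inc j

lemma exists_preFree (V : C) : Nonempty (K.PreFree V) := by
  classical
  have : HasFiniteBiproducts C := Abelian.hasFiniteBiproducts
  let M : Fin K.n → C := fun j => (rightDual (K.S j)) ⊗ (V ⊗ K.S j)
  obtain ⟨ω, h1, h2⟩ := K.nat_exists (tensorLeft V) (tensorRight (⨁ M))
    (fun j => (𝟙 _ ⊗≫ η_ (K.S j) (rightDual (K.S j)) ▷ (V ⊗ K.S j) ⊗≫ K.S j ◁ biproduct.ι M j :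
      V ⊗ K.S j ⟶ K.S j ⊗ (⨁ M)))
  exact ⟨⟨⨁ M, biproduct.ι M, biproduct.π M, biproduct.total, fun j => biproduct.ι_π_self M j,
    fun i j h => biproduct.ι_π_ne M h, ω, fun f => h1 f, h2⟩⟩

namespace PreFree

variable {K} {V : C} (P : K.PreFree V)

lemma inc_eq {X B : C} (g : P.J ⊗ X ⟶ B) (j : Fin K.n) :
    P.inc j ▷ X ≫ g = 𝟙 _ ⊗≫ (rightDual (K.S j)) ◁ (P.ω (K.S j) ▷ X ⊗≫ K.S j ◁ g) ⊗≫
      ε_ (K.S j) (rightDual (K.S j)) ▷ B ⊗≫ 𝟙 _ := by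
  symm
  calc
    _ = 𝟙 _ ⊗≫ (rightDual (K.S j)) ◁ (η_ (K.S j) (rightDual (K.S j)) ▷ (V ⊗ K.S j ⊗ X)) ⊗≫
          (((rightDual (K.S j)) ⊗ K.S j) ◁ (P.inc j ▷ X ≫ g) ≫ ε_ (K.S j) (rightDual (K.S j)) ▷ B) ⊗≫ 𝟙 _ := by
      rw [P.hω]; monoidal
    _ = 𝟙 _ ⊗≫ ((rightDual (K.S j)) ◁ η_ (K.S j) (rightDual (K.S j)) ⊗≫ ε_ (K.S j) (rightDual (K.S j)) ▷ (rightDual (K.S j))) ▷
          (V ⊗ K.S j ⊗ X) ⊗≫ (P.inc j ▷ X ≫ g) ⊗≫ 𝟙 _ := by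
      rw [whisker_exchange]; monoidal
    _ = _ := by
      rw [ExactPairing.coevaluation_evaluation'']; monoidal

lemma ext {X B : C} {g g' : P.J ⊗ X ⟶ B}
    (h : ∀ j, (P.ω (K.S j) ▷ X ⊗≫ K.S j ◁ g : (V ⊗ K.S j) ⊗ X ⟶ K.S j ⊗ B) =
      P.ω (K.S j) ▷ X ⊗≫ K.S j ◁ g') : g = g' := by
  have key : ∀ g : P.J ⊗ X ⟶ B, g = ∑ j, P.prj j ▷ X ≫ P.inc j ▷ X ≫ g := by
    intro g
    simp_rw [← Category.assoc, ← comp_whiskerRight]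
    rw [← Preadditive.sum_comp, ← sum_whiskerRight, P.sum, id_whiskerRight, Category.id_comp]
  rw [key g, key g']
  refine Finset.sum_congr rfl fun j _ => ?_
  rw [P.inc_eq, P.inc_eq, h]

lemma exists_up {X B : C} (Φ : ∀ U, V ⊗ (U ⊗ X) ⟶ U ⊗ B)
    (hΦ : ∀ {U U' : C} (f : U ⟶ U'), V ◁ f ▷ X ≫ Φ U' = Φ U ≫ f ▷ B) :
    ∃ g : P.J ⊗ X ⟶ B, ∀ U, (α_ V U X).inv ≫ P.ω U ▷ X ≫ (α_ U P.J X).hom ≫ U ◁ g = Φ U := by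
  let g : P.J ⊗ X ⟶ B := ∑ j, P.prj j ▷ X ≫ (𝟙 _ ⊗≫ (rightDual (K.S j)) ◁ Φ (K.S j) ⊗≫
      ε_ (K.S j) (rightDual (K.S j)) ▷ B ⊗≫ 𝟙 _)
  have hg : ∀ j, P.inc j ▷ X ≫ g = 𝟙 _ ⊗≫ (rightDual (K.S j)) ◁ Φ (K.S j) ⊗≫
      ε_ (K.S j) (rightDual (K.S j)) ▷ B ⊗≫ 𝟙 _ := by
    intro j
    rw [Preadditive.comp_sum, Finset.sum_eq_single j]
    · rw [← Category.assoc, ← comp_whiskerRight, P.same, id_whiskerRight, Category.id_comp]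
    · intro k _ hk
      rw [← Category.assoc, ← comp_whiskerRight, P.diff j k hk.symm,
        MonoidalPreadditive.zero_whiskerRight, zero_comp]
    · intro h; exact absurd (Finset.mem_univ _) h
  refine ⟨g, fun U => ?_⟩
  refine K.nat_ext (tensorRight X ⋙ tensorLeft V) (tensorRight B)
    (Φ := fun U => (α_ V U X).inv ≫ P.ω U ▷ X ≫ (α_ U P.J X).hom ≫ U ◁ g) (Ψ := Φ) ?_ ?_ ?_ U
  · intro U U' f
    change V ◁ f ▷ X ≫ (α_ V U' X).inv ≫ P.ω U' ▷ X ≫ (α_ U' P.J X).hom ≫ U' ◁ g =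
      ((α_ V U X).inv ≫ P.ω U ▷ X ≫ (α_ U P.J X).hom ≫ U ◁ g) ≫ f ▷ B
    calc
      _ = 𝟙 _ ⊗≫ (V ◁ f ≫ P.ω U') ▷ X ⊗≫ U' ◁ g := by monoidal
      _ = 𝟙 _ ⊗≫ P.ω U ▷ X ⊗≫ (f ▷ (P.J ⊗ X) ≫ U' ◁ g) ⊗≫ 𝟙 _ := by
        rw [P.nat]; monoidal
      _ = _ := by rw [← whisker_exchange]; monoidal
  · intro U U' f
    exact hΦ f
  · intro j
    calc
      _ = 𝟙 _ ⊗≫ η_ (K.S j) (rightDual (K.S j)) ▷ (V ⊗ K.S j ⊗ X) ⊗≫ K.S j ◁ (P.inc j ▷ X ≫ g) := by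
        rw [P.hω]; monoidal
      _ = 𝟙 _ ⊗≫ (η_ (K.S j) (rightDual (K.S j)) ▷ (V ⊗ K.S j ⊗ X) ≫
            (K.S j ⊗ (rightDual (K.S j))) ◁ Φ (K.S j)) ⊗≫ K.S j ◁ (ε_ (K.S j) (rightDual (K.S j)) ▷ B) ⊗≫ 𝟙 _ := by
        rw [hg]; monoidal
      _ = Φ (K.S j) ⊗≫ (η_ (K.S j) (rightDual (K.S j)) ▷ (K.S j) ⊗≫
            (K.S j) ◁ ε_ (K.S j) (rightDual (K.S j))) ▷ B ⊗≫ 𝟙 _ := by
        rw [← whisker_exchange]; monoidal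
      _ = _ := by
        rw [ExactPairing.evaluation_coevaluation'']; monoidal

end PreFree

end Ctx

end Pool.Agent.H386
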