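import Pool.Agent.H386.Chr

set_option autoImplicit false
set_option linter.unusedSectionVars false

open CategoryTheory CategoryTheory.Limits MonoidalCategory

namespace Pool.Agent.H386

universe v u

open CategoryTheory.HasRightDual (rightDual)

attribute [-instance] CategoryTheory.hasRightDualUnit CategoryTheory.hasLeftDualUnit

variable {C : Type u} [Category.{v} C] [Abelian C] [Linear ℂ C]
    [MonoidalCategory C] [MonoidalPreadditive C] [MonoidalLinear ℂ C] [RigidCategory C]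

namespace Ctx

variable (K : Ctx C)

/-- The direct sum of all simple objects of the list. -/
structure Gen where
  P : C
  π : ∀ a, P ⟶ K.S a
  ι : ∀ a, K.S a ⟶ P
  same : ∀ a, ι a ≫ π a = 𝟙 _
  diff : ∀ a b, a ≠ b → ι a ≫ π b = 0
  sum : ∑ a, π a ≫ ι a = 𝟙 P

lemma exists_gen : Nonempty K.Gen := by
  have : HasFiniteBiproducts C := Abelian.hasFiniteBiproducts
  classical
  exact ⟨⟨⨁ K.S, biproduct.π K.S, biproduct.ι K.S, fun i => biproduct.ι_π_self K.S i,
    fun i j h => biproduct.ι_π_ne K.S h, biproduct.total⟩⟩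

namespace Gen

variable {K} (G : K.Gen)

/-- the dimension operator -/
def k : G.P ⟶ G.P := ∑ a, K.dim (K.S a) • (G.π a ≫ G.ι a)

lemma k_π (a : Fin K.n) : G.k ≫ G.π a = K.dim (K.S a) • G.π a := by
  unfold k
  rw [Preadditive.sum_comp, Finset.sum_eq_single a]
  · rw [Linear.smul_comp, Category.assoc, G.same, Category.comp_id]
  · intro b _ hb
    rw [Linear.smul_comp, Category.assoc, G.diff b a hb, comp_zero, smul_zero]
  · intro h; exact absurd (Finset.mem_univ _) h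

lemma hom_simple {k : Fin K.n} (f : G.P ⟶ K.S k) : f = G.π k ≫ G.ι k ≫ f := by
  conv_lhs => rw [← Category.id_comp f, ← G.sum, Preadditive.sum_comp]
  rw [Finset.sum_eq_single k]
  · rw [Category.assoc]
  · intro b _ hb
    rw [Category.assoc, K.hom_zero' hb (G.ι b ≫ f), comp_zero]
  · intro h; exact absurd (Finset.mem_univ _) h

/-- pre and post composition -/
def op {P W : C} (k : P ⟶ P) (y : W ⟶ W) : (P ⟶ W) →ₗ[ℂ] (P ⟶ W) :=
  (Linear.leftComp ℂ W k) ∘ₗ (Linear.rightComp ℂ P y)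

lemma op_apply {P W : C} (k : P ⟶ P) (y : W ⟶ W) (h : P ⟶ W) : op k y h = k ≫ h ≫ y := rfl

lemma simple_scalar (k : Fin K.n) (f : K.S k ⟶ K.S k) :
    f = ((K.dim (K.S k))⁻¹ * K.tr f) • 𝟙 _ := by
  have := K.simple k
  obtain ⟨a, ha⟩ := K.scalar _ f
  have h := K.dim_ne_zero (K.S k)
  rw [ha, K.tr_smul, K.tr_id]
  congr 1
  field_simp

/-- the pivotal trace as a linear trace -/
theorem tr_eq_trace {W : C} (y : W ⟶ W) : K.tr y = LinearMap.trace ℂ (G.P ⟶ W) (op G.k y) := by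
  have := K.fd
  let d := K.dec W
  let φ : ∀ b, (G.P ⟶ W) →ₗ[ℂ] ℂ := fun b => (K.dim (K.S (d.idx b)))⁻¹ •
    ((K.trL _) ∘ₗ (Linear.leftComp ℂ _ (G.ι (d.idx b))) ∘ₗ (Linear.rightComp ℂ G.P (d.prj b)))
  have hφ : ∀ b (h : G.P ⟶ W), φ b h =
      (K.dim (K.S (d.idx b)))⁻¹ * K.tr (G.ι (d.idx b) ≫ h ≫ d.prj b) := fun b h => rfl
  have h1 : ∀ h : G.P ⟶ W, h = ∑ b, φ b h • (G.π (d.idx b) ≫ d.inc b) := by
    intro h
    conv_lhs => rw [← Category.comp_id h, ← d.sum, Preadditive.comp_sum]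
    refine Finset.sum_congr rfl fun b _ => ?_
    rw [← Category.assoc, G.hom_simple (h ≫ d.prj b), simple_scalar _ (G.ι (d.idx b) ≫ h ≫ d.prj b),
      ← hφ]
    simp
  have h2 : op G.k y = ∑ b, (φ b).smulRight (op G.k y (G.π (d.idx b) ≫ d.inc b)) := by
    ext h
    conv_lhs => rw [h1 h, map_sum]
    simp
  rw [h2, map_sum, K.tr_dec d]
  refine Finset.sum_congr rfl fun b _ => ?_
  rw [LinearMap.trace_smulRight, hφ, op_apply]
  have h3 : G.ι (d.idx b) ≫ (G.k ≫ (G.π (d.idx b) ≫ d.inc b) ≫ y) ≫ d.prj b =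
      K.dim (K.S (d.idx b)) • (d.inc b ≫ y ≫ d.prj b) := by
    calc
      _ = (G.ι (d.idx b) ≫ (G.k ≫ G.π (d.idx b))) ≫ d.inc b ≫ y ≫ d.prj b := by simp
      _ = _ := by
        rw [G.k_π, Linear.comp_smul, G.same, Linear.smul_comp, Category.id_comp]
  rw [h3, K.tr_smul]
  have := K.simple (d.idx b)
  have h := K.dim_ne_zero (K.S (d.idx b))
  field_simp

lemma tr_k : K.tr G.k = K.D := by
  unfold k D
  rw [K.tr_sum]
  refine Finset.sum_congr rfl fun a _ => ?_
  rw [K.tr_smul, K.tr_comm, G.same, K.tr_id]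
  ring

/-- trace against `k` of an endomorphism -/
lemma tr_k_comp (y : G.P ⟶ G.P) : K.tr (G.k ≫ y) =
    ∑ a, K.dim (K.S a) * K.tr (G.ι a ≫ y ≫ G.π a) := by
  unfold k
  rw [Preadditive.sum_comp, K.tr_sum]
  refine Finset.sum_congr rfl fun a _ => ?_
  rw [Linear.smul_comp, K.tr_smul, Category.assoc, K.tr_comm, Category.assoc]

end Gen

end Ctx

end Pool.Agent.H386
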