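import Pool.Agent.H386.Rot

set_option autoImplicit false
set_option linter.unusedSectionVars false

open CategoryTheory CategoryTheory.Limits MonoidalCategory

namespace Pool.Agent.H386

universe v u

open CategoryTheory.HasRightDual (rightDual)

attribute [-instance] CategoryTheory.hasRightDualUnit CategoryTheory.hasLeftDualUnit

variable {C : Type u} [Category.{v} C] [Abelian C] [Linear ℂ C]
    [MonoidalCategory C] [MonoidalPreadditive C] [MonoidalLinear ℂ C] [RigidCategory C]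

namespace Ctx

variable {K : Ctx C}

namespace Free

lemma tr_gen (τ : ∀ Z : Cen C, Z.X ⟶ Z.X)
    (hτ : ∀ {Z Y : Cen C} {g : Z.X ⟶ Y.X}, Z.IsHom Y g → g ≫ τ Y = τ Z ≫ g)
    (hτc : ∀ Z : Cen C, Z.IsHom Z (τ Z)) (G : K.Gen) (F : K.Free G.P) :
    K.tr (F.map F G.k ≫ τ F.Z) = K.D * ∑ a, K.dim (K.S a) *
      K.tr ((K.J (K.S a)).u ≫ τ (K.J (K.S a)).Z ≫ (K.J (K.S a)).p) := by
  rw [F.trace_identity _ ((F.map_hom F G.k).comp (hτc _))]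
  congr 1
  have h1 : F.u ≫ (F.map F G.k ≫ τ F.Z) ≫ F.p = G.k ≫ (F.u ≫ τ F.Z ≫ F.p) := by
    rw [Category.assoc, ← Category.assoc, F.u_map, Category.assoc]
  rw [h1, G.tr_k_comp]
  refine Finset.sum_congr rfl fun a _ => ?_
  congr 1
  have h2 : G.ι a ≫ (F.u ≫ τ F.Z ≫ F.p) ≫ G.π a =
      ((K.J (K.S a)).u ≫ τ (K.J (K.S a)).Z ≫ (K.J (K.S a)).p) ≫ (G.ι a ≫ G.π a) := by
    calc
      _ = (G.ι a ≫ F.u) ≫ τ F.Z ≫ F.p ≫ G.π a := by simp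
      _ = (K.J (K.S a)).u ≫ ((K.J (K.S a)).map F (G.ι a) ≫ τ F.Z) ≫ F.p ≫ G.π a := by
        rw [← (K.J (K.S a)).u_map F]; simp
      _ = (K.J (K.S a)).u ≫ τ (K.J (K.S a)).Z ≫ ((K.J (K.S a)).map F (G.ι a) ≫ F.p) ≫ G.π a := by
        rw [hτ ((K.J (K.S a)).map_hom F _)]; simp
      _ = _ := by
        rw [map_p]; simp
  rw [h2, G.same, Category.comp_id]

variable (G : K.Gen) (F : K.Free G.P)

theorem mom0 : K.tr (F.map F G.k) = K.D * K.D := by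
  have h := tr_gen (K := K) (fun Z => 𝟙 Z.X) (by intro Z Y g _; simp) (fun Z => Cen.IsHom.id) G F
  rw [Category.comp_id] at h
  rw [h]
  congr 1
  unfold D
  refine Finset.sum_congr rfl fun a _ => ?_
  rw [Category.id_comp, u_p, K.tr_id]
  ring

/-- the first moment at an object isomorphic to the unit -/
lemma tr_θ_unit {V : C} (e : V ≅ 𝟙_ C) (F : K.Free V) : K.tr (F.u ≫ K.δ.θ F.Z ≫ F.p) = 1 := by
  let F1 := K.J (𝟙_ C)
  have h : e.inv ≫ (F.u ≫ K.δ.θ F.Z ≫ F.p) ≫ e.hom = 𝟙 _ := by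
    calc
      _ = (e.inv ≫ F.u) ≫ K.δ.θ F.Z ≫ F.p ≫ e.hom := by simp
      _ = F1.u ≫ (F1.map F e.inv ≫ K.δ.θ F.Z) ≫ F.p ≫ e.hom := by
        rw [← F1.u_map F]; simp
      _ = (F1.u ≫ K.δ.θ F1.Z) ≫ (F1.map F e.inv ≫ F.p) ≫ e.hom := by
        rw [Pivotal.θ_nat K.δ (F1.map_hom F _)]; simp
      _ = _ := by
        rw [Pivotal.unit_comp_θ, map_p]
        simp [F1.u_p]
  have h2 : K.tr (F.u ≫ K.δ.θ F.Z ≫ F.p) = K.tr (e.inv ≫ (F.u ≫ K.δ.θ F.Z ≫ F.p) ≫ e.hom) := by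
    rw [K.tr_comm e.inv, Category.assoc, e.hom_inv_id, Category.comp_id]
  rw [h2, h, K.tr_id, K.dim_unit]

lemma tr_θ_ne {V : C} [Simple V] (h : ¬ Nonempty (V ≅ 𝟙_ C)) (F : K.Free V) :
    K.tr (F.u ≫ K.δ.θ F.Z ≫ F.p) = 0 := by
  rw [F.u_θ_p, F.p_zero V inferInstance h, Pivotal.lptr_zero, K.tr_zero]

theorem mom1 : K.tr (F.map F G.k ≫ K.δ.θ F.Z) = K.D := by
  rw [tr_gen (K := K) (fun Z => K.δ.θ Z) (fun h => Pivotal.θ_nat K.δ h) (fun Z => K.θ_hom Z) G F]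
  obtain ⟨j, ⟨e⟩⟩ := K.hS.complete (𝟙_ C) K.one
  rw [Finset.sum_eq_single j]
  · rw [tr_θ_unit e.symm, ← K.dim_iso e, K.dim_unit]
    ring
  · intro a _ ha
    have := K.simple a
    rw [tr_θ_ne, mul_zero]
    rintro ⟨e'⟩
    exact ha (K.hS.inj a j ⟨e' ≪≫ e⟩)
  · intro h; exact absurd (Finset.mem_univ _) h

theorem mom2 : K.tr (F.map F G.k ≫ K.δ.θ F.Z ≫ K.δ.θ F.Z) =
    K.D * ∑ a, K.dim (K.S a) * (K.δ.nu (K.S a) : ℂ) := by
  rw [tr_gen (K := K) (fun Z => K.δ.θ Z ≫ K.δ.θ Z) (fun h => by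
      rw [← Category.assoc, Pivotal.θ_nat K.δ h, Category.assoc, Pivotal.θ_nat K.δ h,
        Category.assoc]) (fun Z => (K.θ_hom Z).comp (K.θ_hom Z)) G F]
  congr 1
  refine Finset.sum_congr rfl fun a _ => ?_
  have := K.simple a
  rw [Category.assoc, tr_θ_θ]

end Free

end Ctx

end Pool.Agent.H386
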