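import Pool.Agent.H386.Tr

set_option autoImplicit false
set_option linter.unusedSectionVars false

open CategoryTheory CategoryTheory.Limits MonoidalCategory

namespace Pool.Agent.H386

universe v u

variable {C : Type u} [Category.{v} C] [Abelian C] [Linear ℂ C]
    [MonoidalCategory C] [MonoidalPreadditive C] [MonoidalLinear ℂ C] [RigidCategory C]

namespace Ctx

variable (K : Ctx C)

include K

/-- natural families agreeing on the simple objects of the list agree -/
lemma nat_ext (F G : C ⥤ C) [F.Additive] [G.Additive] {Φ Ψ : ∀ U, F.obj U ⟶ G.obj U}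
    (hΦ : ∀ {U U' : C} (f : U ⟶ U'), F.map f ≫ Φ U' = Φ U ≫ G.map f)
    (hΨ : ∀ {U U' : C} (f : U ⟶ U'), F.map f ≫ Ψ U' = Ψ U ≫ G.map f)
    (h : ∀ j, Φ (K.S j) = Ψ (K.S j)) (U : C) : Φ U = Ψ U := by
  have key : ∀ {Φ : ∀ U, F.obj U ⟶ G.obj U}
      (hΦ : ∀ {U U' : C} (f : U ⟶ U'), F.map f ≫ Φ U' = Φ U ≫ G.map f),
      Φ U = ∑ b, F.map ((K.dec U).prj b) ≫ Φ (K.S ((K.dec U).idx b)) ≫
        G.map ((K.dec U).inc b) := by
    intro Φ hΦ
    conv_lhs => rw [← Category.id_comp (Φ U), ← F.map_id, ← (K.dec U).sum, F.map_sum,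
      Preadditive.sum_comp]
    refine Finset.sum_congr rfl fun b _ => ?_
    rw [F.map_comp, Category.assoc, hΦ]
  rw [key hΦ, key hΨ]
  refine Finset.sum_congr rfl fun b _ => ?_
  rw [h]

/-- natural families agreeing on the unit and on the simple objects not isomorphic to it agree -/
lemma nat_ext_unit (F G : C ⥤ C) [F.Additive] [G.Additive] {Φ Ψ : ∀ U, F.obj U ⟶ G.obj U}
    (hΦ : ∀ {U U' : C} (f : U ⟶ U'), F.map f ≫ Φ U' = Φ U ≫ G.map f)
    (hΨ : ∀ {U U' : C} (f : U ⟶ U'), F.map f ≫ Ψ U' = Ψ U ≫ G.map f)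
    (h1 : Φ (𝟙_ C) = Ψ (𝟙_ C))
    (h2 : ∀ U : C, Simple U → ¬ Nonempty (U ≅ 𝟙_ C) → Φ U = Ψ U) (U : C) : Φ U = Ψ U := by
  refine K.nat_ext F G hΦ hΨ (fun j => ?_) U
  by_cases h : Nonempty (K.S j ≅ 𝟙_ C)
  · obtain ⟨e⟩ := h
    have e1 := hΦ e.hom
    have e2 := hΨ e.hom
    rw [h1, e2] at e1
    have : IsIso (G.map e.hom) := inferInstance
    exact ((cancel_mono (G.map e.hom)).mp e1).symm
  · exact h2 _ (K.simple j) h

/-- a family of morphisms on the simple objects extends to a natural family -/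
lemma nat_exists (F G : C ⥤ C) [F.Additive] [G.Additive] [F.Linear ℂ] [G.Linear ℂ]
    (φ : ∀ j, F.obj (K.S j) ⟶ G.obj (K.S j)) :
    ∃ Φ : ∀ U, F.obj U ⟶ G.obj U,
      (∀ {U U' : C} (f : U ⟶ U'), F.map f ≫ Φ U' = Φ U ≫ G.map f) ∧
      (∀ j, Φ (K.S j) = φ j) := by
  have hg : ∀ {j k : Fin K.n} (g : K.S j ⟶ K.S k), F.map g ≫ φ k = φ j ≫ G.map g := by
    intro j k g
    by_cases hjk : j = k
    · subst hjk
      have := K.simple j
      obtain ⟨a, ha⟩ := K.scalar (K.S j) g
      rw [ha, F.map_smul, G.map_smul, F.map_id, G.map_id]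
      simp
    · rw [K.hom_zero' hjk g, F.map_zero, G.map_zero]
      simp
  refine ⟨fun U => ∑ b, F.map ((K.dec U).prj b) ≫ φ ((K.dec U).idx b) ≫
        G.map ((K.dec U).inc b), ?_, ?_⟩
  · intro U U' f
    rw [Preadditive.comp_sum, Preadditive.sum_comp]
    have e1 : ∀ b', F.map f ≫ F.map ((K.dec U').prj b') ≫ φ ((K.dec U').idx b') ≫
        G.map ((K.dec U').inc b') = ∑ b, F.map ((K.dec U).prj b) ≫ φ ((K.dec U).idx b) ≫
          G.map ((K.dec U).inc b ≫ f ≫ (K.dec U').prj b' ≫ (K.dec U').inc b') := by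
      intro b'
      calc
        _ = F.map ((∑ b, (K.dec U).prj b ≫ (K.dec U).inc b) ≫ f ≫ (K.dec U').prj b') ≫
            φ ((K.dec U').idx b') ≫ G.map ((K.dec U').inc b') := by
          rw [(K.dec U).sum, Category.id_comp, F.map_comp, Category.assoc]
        _ = ∑ b, F.map ((K.dec U).prj b) ≫ (F.map ((K.dec U).inc b ≫ f ≫ (K.dec U').prj b') ≫
            φ ((K.dec U').idx b')) ≫ G.map ((K.dec U').inc b') := by
          rw [Preadditive.sum_comp, F.map_sum, Preadditive.sum_comp]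
          refine Finset.sum_congr rfl fun b _ => ?_
          simp only [Functor.map_comp, Category.assoc]
        _ = _ := by
          refine Finset.sum_congr rfl fun b _ => ?_
          rw [hg]
          simp only [Functor.map_comp, Category.assoc]
    simp_rw [e1]
    rw [Finset.sum_comm]
    refine Finset.sum_congr rfl fun b _ => ?_
    simp only [← Preadditive.comp_sum, ← G.map_sum]
    rw [(K.dec U').sum, Category.comp_id, G.map_comp]
    simp only [Category.assoc]
  · intro j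
    simp only [← Category.assoc]
    simp_rw [hg]
    simp only [Category.assoc]
    rw [← Preadditive.comp_sum]
    simp_rw [← G.map_comp]
    rw [← G.map_sum, (K.dec _).sum, G.map_id, Category.comp_id]

end Ctx

end Pool.Agent.H386
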