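import Pool.Agent.H386.AutC

set_option autoImplicit false

namespace Pool.Agent.H386

open IntermediateField

/-- An algebraic integer fixed by all automorphisms of `ℂ` is an integer. -/
theorem fixed_int (z : ℂ) (hz : IsIntegral ℤ z) (h : ∀ σ : ℂ ≃+* ℂ, σ z = z) :
    ∃ k : ℤ, z = k := by
  have hzQ : IsIntegral ℚ z := hz.tower_top
  have : FiniteDimensional ℚ ℚ⟮z⟯ := adjoin.finiteDimensional hzQ
  have hsub : Subsingleton (ℚ⟮z⟯ →ₐ[ℚ] ℂ) := by
    refine ⟨fun φ ψ => ?_⟩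
    obtain ⟨σ, hσ⟩ := exists_aut _ φ
    obtain ⟨τ, hτ⟩ := exists_aut _ ψ
    refine IntermediateField.algHom_ext_of_eq_adjoin _ rfl ?_
    intro x hx
    have hx' : x = z := hx
    have h1 : σ x = τ x := by rw [hx', h, h]
    exact (hσ ⟨x, _⟩).symm.trans (h1.trans (hτ ⟨x, _⟩))
  have hcard : Fintype.card (ℚ⟮z⟯ →ₐ[ℚ] ℂ) = Module.finrank ℚ ℚ⟮z⟯ := AlgHom.card ℚ _ ℂ
  have h1 : Module.finrank ℚ ℚ⟮z⟯ = 1 := by
    refine le_antisymm ?_ Module.finrank_pos
    rw [← hcard]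
    exact Fintype.card_le_one_iff_subsingleton.mpr hsub
  rw [IntermediateField.finrank_adjoin_simple_eq_one_iff, IntermediateField.mem_bot] at h1
  obtain ⟨q, hq⟩ := h1
  have hq' : IsIntegral ℤ q := by
    rw [← hq] at hz
    exact (isIntegral_algebraMap_iff (algebraMap ℚ ℂ).injective).mp hz
  obtain ⟨k, hk⟩ := IsIntegrallyClosed.isIntegral_iff.mp hq'
  refine ⟨k, ?_⟩
  rw [← hq, ← hk]
  simp

/-- the set of conjugates of an algebraic number is finite. -/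
lemma conj_finite (z : ℂ) (hz : IsIntegral ℤ z) : {w : ℂ | ∃ σ : ℂ ≃+* ℂ, w = σ z}.Finite := by
  classical
  refine Set.Finite.subset ((minpoly ℤ z).map (algebraMap ℤ ℂ)).roots.toFinset.finite_toSet ?_
  rintro w ⟨σ, rfl⟩
  have h0 : (minpoly ℤ z).map (algebraMap ℤ ℂ) ≠ 0 :=
    ((minpoly.monic hz).map _).ne_zero
  simp only [Finset.mem_coe, Multiset.mem_toFinset]
  rw [Polynomial.mem_roots h0, Polynomial.IsRoot.def, Polynomial.eval_map_algebraMap]
  have h1 := congrArg σ (minpoly.aeval ℤ z)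
  rw [map_zero] at h1
  rw [← h1]
  exact Polynomial.aeval_algHom_apply (σ : ℂ →+* ℂ).toIntAlgHom z _

/-- The norm inequality: the sum of the embeddings of a nonzero algebraic integer all of whose
conjugates are real and at least `-1/4`. -/
theorem sum_embeddings_ge (E : IntermediateField ℚ ℂ) [FiniteDimensional ℚ E] (y : E)
    (hy : IsIntegral ℤ y) (hy0 : y ≠ 0) (hreal : ∀ φ : E →ₐ[ℚ] ℂ, ((φ y).re : ℂ) = φ y)
    (hge : ∀ φ : E →ₐ[ℚ] ℂ, -1/4 ≤ (φ y).re) :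
    (Fintype.card (E →ₐ[ℚ] ℂ) : ℝ) ≤ ∑ φ : E →ₐ[ℚ] ℂ, (φ y).re := by
  classical
  have hne : ∀ φ : E →ₐ[ℚ] ℂ, (φ y).re ≠ 0 := by
    intro φ h0
    have h1 := hreal φ
    rw [h0] at h1
    have : φ y = 0 := by rw [← h1]; simp
    exact hy0 ((map_eq_zero φ).mp this)
  -- the norm
  have hnorm : 1 ≤ |∏ φ : E →ₐ[ℚ] ℂ, (φ y).re| := by
    have h1 : algebraMap ℚ ℂ (Algebra.norm ℚ y) = ∏ φ : E →ₐ[ℚ] ℂ, φ y :=
      Algebra.norm_eq_prod_embeddings ℚ ℂ y
    have h2 : IsIntegral ℤ (Algebra.norm ℚ y) := Algebra.isIntegral_norm ℚ hy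
    obtain ⟨k, hk⟩ := IsIntegrallyClosed.isIntegral_iff.mp h2
    have hk0 : k ≠ 0 := by
      rintro rfl
      have : Algebra.norm ℚ y = 0 := by rw [← hk]; simp
      exact hy0 (Algebra.norm_eq_zero_iff.mp this)
    have h3 : (∏ φ : E →ₐ[ℚ] ℂ, (φ y).re) = (k : ℝ) := by
      have h4 : ((∏ φ : E →ₐ[ℚ] ℂ, (φ y).re : ℝ) : ℂ) = ((k : ℝ) : ℂ) := by
        rw [Complex.ofReal_prod, Finset.prod_congr rfl fun φ _ => hreal φ, ← h1, ← hk]
        simp
      exact_mod_cast h4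
    rw [h3]
    exact_mod_cast Int.one_le_abs hk0
  have hlog : 0 ≤ ∑ φ : E →ₐ[ℚ] ℂ, Real.log |(φ y).re| := by
    rw [← Real.log_prod (fun φ _ => abs_ne_zero.mpr (hne φ)), ← Finset.abs_prod]
    exact Real.log_nonneg hnorm
  have hpt : ∀ φ : E →ₐ[ℚ] ℂ, 1 + Real.log |(φ y).re| ≤ (φ y).re := by
    intro φ
    rcases lt_or_gt_of_ne (hne φ) with h | h
    · have h1 : |(φ y).re| ≤ 1/4 := by
        rw [abs_of_neg h]
        have := hge φ
        linarith
      have h2 : Real.log |(φ y).re| ≤ Real.log (1/4) :=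
        Real.log_le_log (abs_pos.mpr (hne φ)) h1
      have h3 : Real.log (1/4 : ℝ) ≤ -(5/4) := by
        have h4 : Real.log (1/4 : ℝ) = -(2 * Real.log 2) := by
          rw [show (1/4 : ℝ) = (2^2)⁻¹ by norm_num, Real.log_inv, Real.log_pow]
          push_cast
          ring
        rw [h4]
        have := Real.log_two_gt_d9
        linarith
      have := hge φ
      linarith
    · rw [abs_of_pos h]
      have := Real.log_le_sub_one_of_pos h
      linarith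
  calc
    (Fintype.card (E →ₐ[ℚ] ℂ) : ℝ) = ∑ φ : E →ₐ[ℚ] ℂ, (1 : ℝ) := by simp
    _ ≤ ∑ φ : E →ₐ[ℚ] ℂ, (1 + Real.log |(φ y).re|) := by
      rw [Finset.sum_add_distrib]
      linarith
    _ ≤ _ := Finset.sum_le_sum fun φ _ => hpt φ

end Pool.Agent.H386
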