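import Pool.Agent.H386.Ineq

set_option autoImplicit false
set_option linter.unusedSectionVars false

open CategoryTheory CategoryTheory.Limits MonoidalCategory

namespace Pool.Agent.H386

universe v u

/-- The numerical data of a spherical fusion category: dimensions and Frobenius-Schur indicators
of the simple objects, with all the constraints which we use. -/
structure DimData (n : ℕ) (d : Fin n → ℂ) (ν : Fin n → ℤ) : Prop where
  int : ∀ a, IsIntegral ℤ (d a)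
  one : ∃ a, d a = 1
  ne : ∀ a, d a ≠ 0
  nu : ∀ a, ν a = 0 ∨ ν a = 1 ∨ ν a = -1
  real : ∀ (σ : ℂ ≃+* ℂ) a, ((σ (d a)).re : ℂ) = σ (d a)
  star : ∀ σ τ : ℂ ≃+* ℂ, 8 * (∑ a, (σ (d a)).re ^ 2) / (∑ a, (τ (d a)).re ^ 2) ^ 2 ≤
    3 * (∑ a, (σ (d a)).re ^ 2) + 4 + ∑ a, (ν a : ℝ) * (σ (d a)).re
  codeg : ∀ σ τ : ℂ ≃+* ℂ, ∃ r : Fin n → ℕ,
    (∑ a, (σ (d a)).re ^ 2) / (∑ a, (τ (d a)).re ^ 2) = ∑ a, (r a : ℝ) * (σ (d a)).re
  orth : ∀ σ τ : ℂ ≃+* ℂ, (∃ a, σ (d a) ≠ τ (d a)) →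
    ∑ a, (σ (d a)).re * (τ (d a)).re = 0

variable {C : Type u} [Category.{v} C] [Abelian C]

lemma finite_twist {M : Type v} [AddCommGroup M] [Module ℂ M] [h : Module.Finite ℂ M]
    (σ : ℂ ≃+* ℂ) : @Module.Finite ℂ M _ _ (Module.compHom M (σ : ℂ →+* ℂ)) := by
  obtain ⟨s, hs⟩ := h.fg_top
  refine (@Module.finite_def ℂ M _ _ (Module.compHom M (σ : ℂ →+* ℂ))).mpr ⟨s, ?_⟩
  let N' : @Submodule ℂ M _ _ (Module.compHom M (σ : ℂ →+* ℂ)) :=
    @Submodule.span ℂ M _ _ (Module.compHom M (σ : ℂ →+* ℂ)) (s : Set M)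
  have hadd : ∀ x y : M, x ∈ N' → y ∈ N' → x + y ∈ N' :=
    fun x y hx hy => @Submodule.add_mem ℂ M _ _ (Module.compHom M (σ : ℂ →+* ℂ)) N' x y hx hy
  have hzero : (0 : M) ∈ N' := @Submodule.zero_mem ℂ M _ _ (Module.compHom M (σ : ℂ →+* ℂ)) N'
  have hsmul : ∀ (a : ℂ) (x : M), x ∈ N' → σ a • x ∈ N' :=
    fun a x hx => @Submodule.smul_mem ℂ M _ _ (Module.compHom M (σ : ℂ →+* ℂ)) N' x a hx
  let N : Submodule ℂ M :=
    { carrier := {x | x ∈ N'}
      add_mem' := fun {x y} hx hy => hadd x y hx hy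
      zero_mem' := hzero
      smul_mem' := by
        intro a x hx
        have := hsmul (σ.symm a) x hx
        rwa [RingEquiv.apply_symm_apply] at this }
  have h1 : Submodule.span ℂ (s : Set M) ≤ N := by
    rw [Submodule.span_le]
    exact fun x hx => @Submodule.subset_span ℂ M _ _ (Module.compHom M (σ : ℂ →+* ℂ)) _ x hx
  rw [hs] at h1
  refine (@Submodule.eq_top_iff' ℂ M _ _ (Module.compHom M (σ : ℂ →+* ℂ)) N').mpr ?_
  intro x
  exact h1 (Submodule.mem_top : x ∈ (⊤ : Submodule ℂ M))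

/-- twisting a linear functional -/
def scTwist {M : Type v} [AddCommGroup M] [Module ℂ M] (σ : ℂ ≃+* ℂ) (f : M →ₗ[ℂ] ℂ) :
    @LinearMap ℂ ℂ _ _ (RingHom.id ℂ) M ℂ _ _ (Module.compHom M (σ : ℂ →+* ℂ)) _ :=
  @LinearMap.mk ℂ ℂ _ _ (RingHom.id ℂ) M ℂ _ _ (Module.compHom M (σ : ℂ →+* ℂ)) _
    ⟨fun x => σ.symm (f x), fun x y => by rw [map_add, map_add]⟩
    (fun a x => by
      have h1 : f (σ a • x) = σ a * f x := by rw [map_smul, smul_eq_mul]
      change σ.symm (f (σ a • x)) = a * σ.symm (f x)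
      rw [h1, map_mul, RingEquiv.symm_apply_apply])

/-- The linear structure twisted by an automorphism of the ground field. -/
@[reducible]
def twistLinear (σ : ℂ ≃+* ℂ) [Linear ℂ C] : Linear ℂ C where
  homModule X Y := Module.compHom (X ⟶ Y) (σ : ℂ →+* ℂ)
  smul_comp X Y Z a f g := Linear.smul_comp X Y Z (σ a) f g
  comp_smul X Y Z f a g := Linear.comp_smul X Y Z f (σ a) g

variable [Linear ℂ C] [MonoidalCategory C] [MonoidalPreadditive C] [MonoidalLinear ℂ C]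

lemma twistMonoidal (σ : ℂ ≃+* ℂ) :
    @MonoidalLinear ℂ _ C _ _ (twistLinear σ) _ _ :=
  @MonoidalLinear.mk ℂ _ C _ _ (twistLinear σ) _ _
    (fun X {_ _} a f => MonoidalLinear.whiskerLeft_smul X (σ a) f)
    (fun a {_ _} f X => MonoidalLinear.smul_whiskerRight (σ a) f X)

variable [RigidCategory C]

namespace Ctx

variable (K : Ctx C)

/-- the twisted context -/
noncomputable def twist (σ : ℂ ≃+* ℂ) :
    @Ctx C _ _ (twistLinear σ) _ _ (twistMonoidal σ) _ :=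
  @Ctx.mk C _ _ (twistLinear σ) _ _ (twistMonoidal σ) _ K.n K.S K.hS K.dec
    (fun X Y => @finite_twist (X ⟶ Y) _ _ (K.fd X Y) σ)
    K.one K.δ K.sph (scTwist σ K.sc)
    (by
      intro f
      change f = σ (σ.symm (K.sc f)) • 𝟙 (𝟙_ C)
      rw [RingEquiv.apply_symm_apply]
      exact K.sc_spec f)
    (by
      change σ.symm (K.sc (𝟙 _)) = 1
      rw [K.sc_one, map_one])

end Ctx

end Pool.Agent.H386
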