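import Pool.Agent.H386.Num1
import Pool.Agent.H386.Twist

set_option autoImplicit false

namespace Pool.Agent.H386

open IntermediateField

/-- the value of the global dimension at an automorphism -/
noncomputable def dv {n : ℕ} (d : Fin n → ℂ) (σ : ℂ ≃+* ℂ) : ℝ := ∑ a, (σ (d a)).re ^ 2

namespace DimData

variable {n : ℕ} {d : Fin n → ℂ} {ν : Fin n → ℤ} (H : DimData n d ν)

include H

lemma dv_coe (σ : ℂ ≃+* ℂ) : (dv d σ : ℂ) = σ (∑ a, d a ^ 2) := by
  unfold dv
  push_cast
  rw [map_sum]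
  refine Finset.sum_congr rfl fun a _ => ?_
  rw [H.real σ a, map_pow]

lemma one_le (σ : ℂ ≃+* ℂ) : 1 ≤ dv d σ := by
  obtain ⟨u, hu⟩ := H.one
  refine le_trans ?_ (Finset.single_le_sum (f := fun a => (σ (d a)).re ^ 2)
    (fun i _ => by positivity) (Finset.mem_univ u))
  simp only [hu, map_one, Complex.one_re]
  norm_num

lemma int_sum : IsIntegral ℤ (∑ a, d a ^ 2) :=
  IsIntegral.sum _ fun a _ => (H.int a).pow 2

lemma star' (σ τ : ℂ ≃+* ℂ) : 8 * dv d σ / dv d τ ^ 2 ≤
    3 * dv d σ + 4 + ∑ a, (ν a : ℝ) * (σ (d a)).re := H.star σ τ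

lemma nu_abs (a : Fin n) : |(ν a : ℝ)| ≤ 1 := by
  rcases H.nu a with h | h | h <;> rw [h] <;> norm_num

lemma finDim : FiniteDimensional ℚ (IntermediateField.adjoin ℚ (Set.range d)) := by
  refine IntermediateField.finiteDimensional_adjoin ?_
  rintro x ⟨a, rfl⟩
  exact (H.int a).tower_top

/-- the averaging inequality -/
theorem exists_avg (hlt : dv d (RingEquiv.refl ℂ) < 2) :
    ∃ (ι : Type) (_ : Fintype ι) (_ : Nonempty ι) (σ : ι → (ℂ ≃+* ℂ)),
      ∀ a, d a ≠ 1 → (Fintype.card ι : ℝ) ≤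
        ∑ i, ((σ i (d a)).re ^ 2 - (ν a : ℝ) * (σ i (d a)).re) := by
  have hfd := H.finDim
  set E := IntermediateField.adjoin ℚ (Set.range d) with hE
  obtain ⟨u, hu⟩ := H.one
  choose σ hσ using exists_aut E
  let dE : Fin n → E := fun a => ⟨d a, IntermediateField.subset_adjoin ℚ _ ⟨a, rfl⟩⟩
  let y : Fin n → E := fun a => dE a ^ 2 - (ν a : E) * dE a
  have hφ : ∀ (φ : E →ₐ[ℚ] ℂ) a, φ (dE a) = σ φ (d a) := fun φ a => (hσ φ (dE a)).symm
  have hφy : ∀ (φ : E →ₐ[ℚ] ℂ) a, φ (y a) =
      (((σ φ (d a)).re ^ 2 - (ν a : ℝ) * (σ φ (d a)).re : ℝ) : ℂ) := by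
    intro φ a
    simp only [y]
    rw [map_sub, map_pow, map_mul, map_intCast, hφ]
    push_cast
    rw [H.real]
  refine ⟨(E →ₐ[ℚ] ℂ), inferInstance, ⟨E.val⟩, σ, ?_⟩
  intro a ha
  have h1 : IsIntegral ℤ (dE a) := by
    have h2 : IsIntegral ℤ (algebraMap E ℂ (dE a)) := H.int a
    exact (isIntegral_algebraMap_iff (algebraMap E ℂ).injective).mp h2
  have h3 : IsIntegral ℤ (y a) := by
    refine IsIntegral.sub (h1.pow 2) (IsIntegral.mul ?_ h1)
    exact isIntegral_algebraMap (R := ℤ) (A := E) (x := ν a)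
  have hda : |(d a).re| < 1 := by
    have h4 : (d a).re ^ 2 + (d u).re ^ 2 ≤ dv d (RingEquiv.refl ℂ) := by
      have hau : a ≠ u := by
        rintro rfl
        exact ha hu
      unfold dv
      rw [← Finset.sum_pair (f := fun b => (d b).re ^ 2) hau]
      exact Finset.sum_le_sum_of_subset_of_nonneg (Finset.subset_univ _)
        (fun i _ _ => by positivity)
    rw [hu, Complex.one_re] at h4
    rw [abs_lt]
    constructor <;> nlinarith
  have hreal : ((d a).re : ℂ) = d a := H.real (RingEquiv.refl ℂ) a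
  have hy0 : y a ≠ 0 := by
    intro h0
    have h5 : dE a * (dE a - (ν a : E)) = 0 := by
      rw [← h0]
      simp only [y]
      ring
    rcases mul_eq_zero.mp h5 with h6 | h6
    · have : d a = 0 := congrArg (fun z : E => (z : ℂ)) h6
      exact H.ne a this
    · have h7 : d a = (ν a : ℂ) := by
        have := congrArg (algebraMap E ℂ) (sub_eq_zero.mp h6)
        rw [map_intCast] at this
        exact this
      have h8 : (d a).re = (ν a : ℝ) := by rw [h7]; simp
      rcases H.nu a with h | h | h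
      · rw [h] at h7
        exact H.ne a (by simpa using h7)
      · rw [h8, h] at hda; norm_num at hda
      · rw [h8, h] at hda; norm_num at hda
  have key := sum_embeddings_ge E (y a) h3 hy0
    (fun φ => by rw [hφy, Complex.ofReal_re])
    (fun φ => by
      rw [hφy, Complex.ofReal_re]
      have := abs_le.mp (H.nu_abs a)
      rcases H.nu a with h | h | h
      · rw [h]; push_cast; nlinarith [sq_nonneg (σ φ (d a)).re]
      · rw [h]; push_cast; nlinarith [sq_nonneg ((σ φ (d a)).re - 1/2)]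
      · rw [h]; push_cast; nlinarith [sq_nonneg ((σ φ (d a)).re + 1/2)])
  refine key.trans (le_of_eq ?_)
  refine Finset.sum_congr rfl fun φ _ => ?_
  rw [hφy, Complex.ofReal_re]

end DimData

end Pool.Agent.H386
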