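import Pool.Agent.H386.Num2

set_option autoImplicit false

namespace Pool.Agent.H386

namespace DimData

variable {n : ℕ} {d : Fin n → ℂ} {ν : Fin n → ℤ} (H : DimData n d ν)

include H

/-- there is a unique simple object of dimension `1` if the global dimension is less than `2` -/
lemma unit_unique (hlt : dv d (RingEquiv.refl ℂ) < 2) {a b : Fin n} (ha : d a = 1) (hb : d b = 1) :
    a = b := by
  by_contra hab
  have h4 : (d a).re ^ 2 + (d b).re ^ 2 ≤ dv d (RingEquiv.refl ℂ) := by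
    unfold dv
    rw [← Finset.sum_pair (f := fun b => (d b).re ^ 2) hab]
    exact Finset.sum_le_sum_of_subset_of_nonneg (Finset.subset_univ _)
      (fun i _ _ => by positivity)
  rw [ha, hb, Complex.one_re] at h4
  linarith

/-- the `y`-sum over the non-unit objects is at most ... -/
lemma sum_y_le (u : Fin n) (hu : d u = 1) (σ : ℂ ≃+* ℂ) :
    ∑ a ∈ Finset.univ.erase u, ((σ (d a)).re ^ 2 - (ν a : ℝ) * (σ (d a)).re) ≤
      4 + (4 - 8 / dv d (RingEquiv.refl ℂ) ^ 2) * dv d σ := by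
  have h1 := H.star' σ (RingEquiv.refl ℂ)
  have h2 : ∑ a, ((σ (d a)).re ^ 2 - (ν a : ℝ) * (σ (d a)).re) =
      dv d σ - ∑ a, (ν a : ℝ) * (σ (d a)).re := by
    rw [Finset.sum_sub_distrib]
    rfl
  rw [← Finset.add_sum_erase _ _ (Finset.mem_univ u)] at h2
  have h3 : 0 ≤ (σ (d u)).re ^ 2 - (ν u : ℝ) * (σ (d u)).re := by
    rw [hu, map_one, Complex.one_re]
    have := (abs_le.mp (H.nu_abs u)).2
    linarith
  have h4 : 8 * dv d σ / dv d (RingEquiv.refl ℂ) ^ 2 =
      8 / dv d (RingEquiv.refl ℂ) ^ 2 * dv d σ := by ring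
  rw [h4] at h1
  linarith

/-- the rank bound -/
theorem rank_le (hlt : dv d (RingEquiv.refl ℂ) ^ 2 < 2) : n ≤ 4 := by
  have hpos := H.one_le (RingEquiv.refl ℂ)
  have hlt2 : dv d (RingEquiv.refl ℂ) < 2 := by nlinarith
  obtain ⟨ι, i1, i2, σ, hσ⟩ := H.exists_avg hlt2
  obtain ⟨u, hu⟩ := H.one
  have hne : ∀ a ∈ Finset.univ.erase u, d a ≠ 1 := by
    intro a ha h1
    exact (Finset.ne_of_mem_erase ha) (H.unit_unique hlt2 h1 hu)
  have h1 : ∑ a ∈ Finset.univ.erase u, (Fintype.card ι : ℝ) ≤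
      ∑ a ∈ Finset.univ.erase u, ∑ i, ((σ i (d a)).re ^ 2 - (ν a : ℝ) * (σ i (d a)).re) :=
    Finset.sum_le_sum fun a ha => hσ a (hne a ha)
  rw [Finset.sum_comm] at h1
  have hc : 4 < 8 / dv d (RingEquiv.refl ℂ) ^ 2 := by
    rw [lt_div_iff₀ (by positivity)]
    linarith
  have h2 : ∑ i, ∑ a ∈ Finset.univ.erase u,
      ((σ i (d a)).re ^ 2 - (ν a : ℝ) * (σ i (d a)).re) < ∑ i : ι, (4 : ℝ) := by
    refine Finset.sum_lt_sum_of_nonempty Finset.univ_nonempty fun i _ => ?_
    refine lt_of_le_of_lt (H.sum_y_le u hu (σ i)) ?_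
    have := H.one_le (σ i)
    nlinarith
  have h3 := h1.trans_lt h2
  simp only [Finset.sum_const, Finset.card_erase_of_mem (Finset.mem_univ u), Finset.card_univ,
    Fintype.card_fin, nsmul_eq_mul] at h3
  have h4 : (0 : ℝ) < Fintype.card ι := by exact_mod_cast Fintype.card_pos
  have h5 : ((n - 1 : ℕ) : ℝ) < 4 := by
    by_contra hcon
    push Not at hcon
    nlinarith
  have h6 : n - 1 < 4 := by exact_mod_cast h5
  omega

/-- bound for the linear term -/
lemma h_le (u : Fin n) (hu : d u = 1) (σ : ℂ ≃+* ℂ) : ∃ s : ℝ, 0 ≤ s ∧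
    s ^ 2 ≤ ((n : ℝ) - 1) * (dv d σ - 1) ∧ ∑ a, (ν a : ℝ) * (σ (d a)).re ≤ 1 + s := by
  refine ⟨∑ a ∈ Finset.univ.erase u, |(σ (d a)).re|, Finset.sum_nonneg fun a _ => abs_nonneg _,
    ?_, ?_⟩
  · have h1 := sq_sum_le_card_mul_sum_sq (s := Finset.univ.erase u)
      (f := fun a => |(σ (d a)).re|)
    have h2 : dv d σ = (σ (d u)).re ^ 2 + ∑ a ∈ Finset.univ.erase u, (σ (d a)).re ^ 2 := by
      unfold dv
      rw [Finset.add_sum_erase _ (fun a => (σ (d a)).re ^ 2) (Finset.mem_univ u)]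
    rw [hu, map_one, Complex.one_re] at h2
    simp only [sq_abs, Finset.card_erase_of_mem (Finset.mem_univ u), Finset.card_univ,
      Fintype.card_fin] at h1
    have hn : ((n - 1 : ℕ) : ℝ) = (n : ℝ) - 1 := by
      have : 1 ≤ n := by
        have := u.2
        omega
      push_cast [Nat.cast_sub this]
      ring
    rw [hn] at h1
    refine h1.trans (le_of_eq ?_)
    rw [h2]
    ring
  · rw [← Finset.add_sum_erase _ _ (Finset.mem_univ u)]
    refine add_le_add ?_ (Finset.sum_le_sum fun a _ => ?_)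
    · rw [hu, map_one, Complex.one_re, mul_one]
      exact (abs_le.mp (H.nu_abs u)).2
    · calc
        (ν a : ℝ) * (σ (d a)).re ≤ |(ν a : ℝ) * (σ (d a)).re| := le_abs_self _
        _ = |(ν a : ℝ)| * |(σ (d a)).re| := abs_mul _ _
        _ ≤ 1 * |(σ (d a)).re| := by
          gcongr
          exact H.nu_abs a
        _ = _ := one_mul _

/-- the bound for all conjugates -/
theorem conj_lt (hlt : dv d (RingEquiv.refl ℂ) ^ 2 < 2) (σ : ℂ ≃+* ℂ) : dv d σ < 10.28 := by
  obtain ⟨u, hu⟩ := H.one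
  obtain ⟨s, hs0, hs1, hs2⟩ := H.h_le u hu σ
  have hn : (n : ℝ) ≤ 4 := by exact_mod_cast H.rank_le hlt
  have h1 := H.star' σ (RingEquiv.refl ℂ)
  have hpos := H.one_le (RingEquiv.refl ℂ)
  have hpos' := H.one_le σ
  have hc : 4 < 8 / dv d (RingEquiv.refl ℂ) ^ 2 := by
    rw [lt_div_iff₀ (by positivity)]
    linarith
  have h4 : 8 * dv d σ / dv d (RingEquiv.refl ℂ) ^ 2 =
      8 / dv d (RingEquiv.refl ℂ) ^ 2 * dv d σ := by ring
  rw [h4] at h1
  have h5 : dv d σ < 5 + s := by nlinarith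
  have h6 : s ^ 2 ≤ 3 * (dv d σ - 1) := by nlinarith
  by_contra hcon
  push Not at hcon
  norm_num at hcon
  nlinarith

/-- Bessel's inequality -/
theorem bessel (R : Finset ℝ) (σ : ℝ → (ℂ ≃+* ℂ)) (hR : ∀ x ∈ R, dv d (σ x) = x) :
    ∑ x ∈ R, 1 / x ≤ 1 := by
  classical
  obtain ⟨u, hu⟩ := H.one
  let p : ℝ → Fin n → ℝ := fun x a => (σ x (d a)).re / x
  have hpos : ∀ x ∈ R, 1 ≤ x := fun x hx => by
    rw [← hR x hx]
    exact H.one_le _
  have horth : ∀ x ∈ R, ∀ y ∈ R, ∑ a, p x a * p y a = if x = y then 1 / x else 0 := by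
    intro x hx y hy
    split_ifs with hxy
    · subst hxy
      have h1 : ∑ a, p x a * p x a = dv d (σ x) / x ^ 2 := by
        unfold dv
        rw [Finset.sum_div]
        refine Finset.sum_congr rfl fun a _ => ?_
        simp only [p]
        ring
      rw [h1, hR x hx]
      have := hpos x hx
      field_simp
    · have h1 : ∃ a, σ x (d a) ≠ σ y (d a) := by
        by_contra hcon
        push Not at hcon
        apply hxy
        rw [← hR x hx, ← hR y hy]
        unfold dv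
        exact Finset.sum_congr rfl fun a _ => by rw [hcon a]
      have h2 := H.orth (σ x) (σ y) h1
      have h3 : ∑ a, p x a * p y a = (∑ a, (σ x (d a)).re * (σ y (d a)).re) / (x * y) := by
        rw [Finset.sum_div]
        refine Finset.sum_congr rfl fun a _ => ?_
        simp only [p]
        ring
      rw [h3, h2, zero_div]
  have h1 : ∑ a, (∑ x ∈ R, p x a) ^ 2 = ∑ x ∈ R, 1 / x := by
    calc
      _ = ∑ a, ∑ x ∈ R, ∑ y ∈ R, p x a * p y a := by
        refine Finset.sum_congr rfl fun a _ => ?_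
        rw [sq, Finset.sum_mul_sum]
      _ = ∑ x ∈ R, ∑ y ∈ R, ∑ a, p x a * p y a := by
        rw [Finset.sum_comm]
        refine Finset.sum_congr rfl fun x _ => ?_
        rw [Finset.sum_comm]
      _ = ∑ x ∈ R, ∑ y ∈ R, (if x = y then 1 / x else 0) := by
        refine Finset.sum_congr rfl fun x hx => Finset.sum_congr rfl fun y hy => ?_
        exact horth x hx y hy
      _ = _ := by
        refine Finset.sum_congr rfl fun x hx => ?_
        rw [Finset.sum_ite_eq, if_pos hx]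
  have h2 : ∑ x ∈ R, p x u = ∑ x ∈ R, 1 / x := by
    refine Finset.sum_congr rfl fun x _ => ?_
    simp only [p, hu, map_one, Complex.one_re]
  have h3 : (∑ x ∈ R, p x u) ^ 2 ≤ ∑ a, (∑ x ∈ R, p x a) ^ 2 :=
    Finset.single_le_sum (f := fun a => (∑ x ∈ R, p x a) ^ 2) (fun i _ => by positivity)
      (Finset.mem_univ u)
  rw [h1, h2] at h3
  have h4 : 0 ≤ ∑ x ∈ R, 1 / x := Finset.sum_nonneg fun x hx => by
    have := hpos x hx
    positivity
  nlinarith

end DimData

end Pool.Agent.H386
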