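import Pool.Agent.H386.Num3

set_option autoImplicit false

namespace Pool.Agent.H386

namespace DimData

variable {n : ℕ} {d : Fin n → ℂ} {ν : Fin n → ℤ} (H : DimData n d ν)

include H

lemma range_finite : (Set.range (dv d)).Finite := by
  refine Set.Finite.of_finite_image (f := ((↑) : ℝ → ℂ)) ?_ Complex.ofReal_injective.injOn
  refine (conj_finite _ H.int_sum).subset ?_
  rintro _ ⟨_, ⟨σ, rfl⟩, rfl⟩
  exact ⟨σ, H.dv_coe σ⟩

/-- the finite set of conjugates of the global dimension -/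
noncomputable def R : Finset ℝ := H.range_finite.toFinset

lemma mem_R {x : ℝ} : x ∈ H.R ↔ ∃ σ, dv d σ = x := by
  unfold R
  rw [Set.Finite.mem_toFinset, Set.mem_range]

lemma one_le_R {x : ℝ} (hx : x ∈ H.R) : 1 ≤ x := by
  obtain ⟨σ, rfl⟩ := H.mem_R.mp hx
  exact H.one_le σ

lemma map_R (τ : ℂ ≃+* ℂ) {x : ℝ} (hx : x ∈ H.R) :
    ((τ (x : ℂ)).re : ℂ) = τ x ∧ (τ (x : ℂ)).re ∈ H.R := by
  obtain ⟨σ, rfl⟩ := H.mem_R.mp hx
  have h1 : τ (dv d σ : ℂ) = (dv d (σ.trans τ) : ℂ) := by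
    rw [H.dv_coe, H.dv_coe, RingEquiv.trans_apply]
  rw [h1, Complex.ofReal_re]
  exact ⟨rfl, H.mem_R.mpr ⟨_, rfl⟩⟩

lemma sum_fixed (k : ℕ) (τ : ℂ ≃+* ℂ) :
    τ (((∑ x ∈ H.R, x ^ k : ℝ)) : ℂ) = ((∑ x ∈ H.R, x ^ k : ℝ) : ℂ) := by
  push_cast
  rw [map_sum]
  refine Finset.sum_nbij' (fun x => (τ (x : ℂ)).re) (fun x => (τ.symm (x : ℂ)).re)
    (fun x hx => (H.map_R τ hx).2) (fun x hx => (H.map_R τ.symm hx).2) ?_ ?_ ?_
  · intro x hx
    have h1 := (H.map_R τ hx).1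
    rw [h1, RingEquiv.symm_apply_apply, Complex.ofReal_re]
  · intro x hx
    have h1 := (H.map_R τ.symm hx).1
    rw [h1, RingEquiv.apply_symm_apply, Complex.ofReal_re]
  · intro x hx
    rw [map_pow, (H.map_R τ hx).1]

lemma prod_fixed (τ : ℂ ≃+* ℂ) :
    τ (((∏ x ∈ H.R, x : ℝ)) : ℂ) = ((∏ x ∈ H.R, x : ℝ) : ℂ) := by
  push_cast
  rw [map_prod]
  refine Finset.prod_nbij' (fun x => (τ (x : ℂ)).re) (fun x => (τ.symm (x : ℂ)).re)
    (fun x hx => (H.map_R τ hx).2) (fun x hx => (H.map_R τ.symm hx).2) ?_ ?_ ?_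
  · intro x hx
    have h1 := (H.map_R τ hx).1
    rw [h1, RingEquiv.symm_apply_apply, Complex.ofReal_re]
  · intro x hx
    have h1 := (H.map_R τ.symm hx).1
    rw [h1, RingEquiv.apply_symm_apply, Complex.ofReal_re]
  · intro x hx
    rw [(H.map_R τ hx).1]

lemma integral_R {x : ℝ} (hx : x ∈ H.R) : IsIntegral ℤ (x : ℂ) := by
  obtain ⟨σ, rfl⟩ := H.mem_R.mp hx
  rw [H.dv_coe]
  exact H.int_sum.map (σ : ℂ →+* ℂ).toIntAlgHom

lemma integral_ratio {x y : ℝ} (hx : x ∈ H.R) (hy : y ∈ H.R) : IsIntegral ℤ ((x / y : ℝ) : ℂ) := by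
  obtain ⟨σ, rfl⟩ := H.mem_R.mp hx
  obtain ⟨τ, rfl⟩ := H.mem_R.mp hy
  obtain ⟨r, hr⟩ := H.codeg σ τ
  have h1 : dv d σ / dv d τ = ∑ a, (r a : ℝ) * (σ (d a)).re := hr
  rw [h1]
  push_cast
  refine IsIntegral.sum _ fun a _ => IsIntegral.mul ?_ ?_
  · exact isIntegral_algebraMap (R := ℤ) (A := ℂ) (x := (r a : ℤ))
  · rw [H.real]
    exact (H.int a).map (σ : ℂ →+* ℂ).toIntAlgHom

lemma sum_int (k : ℕ) : ∃ t : ℤ, ∑ x ∈ H.R, x ^ k = t := by
  obtain ⟨t, ht⟩ := fixed_int _ (by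
    push_cast
    exact IsIntegral.sum _ fun x hx => (H.integral_R hx).pow k) (H.sum_fixed k)
  exact ⟨t, by exact_mod_cast ht⟩

lemma prod_int : ∃ t : ℤ, ∏ x ∈ H.R, x = t := by
  obtain ⟨t, ht⟩ := fixed_int _ (by
    push_cast
    exact IsIntegral.prod _ fun x hx => (H.integral_R hx)) H.prod_fixed
  exact ⟨t, by exact_mod_cast ht⟩

/-- the product of the conjugates divides a power of the trace -/
lemma dvd_pow (T N : ℤ) (hT : ∑ x ∈ H.R, x = T) (hN : ∏ x ∈ H.R, x = N) :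
    N ∣ T ^ H.R.card := by
  have hpos : (0 : ℝ) < N := by
    rw [← hN]
    exact Finset.prod_pos fun x hx => by linarith [H.one_le_R hx]
  have h1 : (T : ℝ) ^ H.R.card / N = ∏ x ∈ H.R, ((T : ℝ) / x) := by
    rw [Finset.prod_div_distrib, Finset.prod_const, hN]
  have h2 : IsIntegral ℤ (((T : ℝ) ^ H.R.card / N : ℝ) : ℂ) := by
    rw [h1, Complex.ofReal_prod]
    refine IsIntegral.prod _ fun x hx => ?_
    rw [← hT, Finset.sum_div, Complex.ofReal_sum]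
    exact IsIntegral.sum _ fun y hy => H.integral_ratio hy hx
  obtain ⟨k, hk⟩ := fixed_int _ h2 (by
    intro σ
    push_cast
    simp)
  have h3 : (T : ℝ) ^ H.R.card / N = k := by exact_mod_cast hk
  rw [div_eq_iff hpos.ne'] at h3
  exact ⟨k, by
    have : (T : ℝ) ^ H.R.card = ((k * N : ℤ) : ℝ) := by rw [h3]; push_cast; ring
    have h4 : T ^ H.R.card = k * N := by exact_mod_cast this
    rw [h4]; ring⟩

lemma bessel_R : ∑ x ∈ H.R, 1 / x ≤ 1 := by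
  classical
  choose! σ hσ using fun (x : ℝ) (hx : x ∈ H.R) => H.mem_R.mp hx
  exact H.bessel H.R σ hσ

end DimData

end Pool.Agent.H386
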