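import Pool.Agent.H386.Num4
import Pool.Agent.H386.Dec3

set_option autoImplicit false

namespace Pool.Agent.H386

lemma aux1 {c s k m : ℝ} (h : k ≤ c * s) (hc : c < 0.2929) (hs : 0 < s) (hm : m * 0.2929 < k) :
    m < s := by
  have h1 : c * s < 0.2929 * s := mul_lt_mul_of_pos_right hc hs
  have h2 : m * 0.2929 < s * 0.2929 := by linarith
  exact lt_of_mul_lt_mul_right h2 (by norm_num)

lemma aux2 {D : ℝ} (h0 : 0 < D) (hb : D < 1.41422) : 0.70710 < 1 / D := by
  rw [lt_div_iff₀ h0]
  linarith

lemma aux3 {D : ℝ} (ha : 1.3819 < D) : 1.9096 < D ^ 2 := by nlinarith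

lemma aux4 {D x y t : ℝ} (h0 : t < D) (hx : t < x) (hy : t < y) :
    (t - D) * (t - x) * (t - y) < 0 := by
  have : 0 < (x - t) * (y - t) := mul_pos (by linarith) (by linarith)
  have h2 : 0 < (D - t) * ((x - t) * (y - t)) := mul_pos (by linarith) this
  have h3 : (t - D) * (t - x) * (t - y) = -((D - t) * ((x - t) * (y - t))) := by ring
  rw [h3]
  linarith

lemma aux5 {D x y t : ℝ} (h0 : D < t) (hx : t < x) (hy : t < y) :
    0 < (t - D) * (t - x) * (t - y) := by
  have : 0 < (x - t) * (y - t) := mul_pos (by linarith) (by linarith)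
  have h2 : 0 < (t - D) * ((x - t) * (y - t)) := mul_pos (by linarith) this
  have h3 : (t - D) * (t - x) * (t - y) = (t - D) * ((x - t) * (y - t)) := by ring
  rw [h3]
  linarith

lemma aux6 {D x y : ℝ} (hb : D < 1.41422) (hx0 : 0 < x) (hx : x < 10.28)
    (hy0 : 0 < y) (hy : y < 10.28) : D * (x * y) < 150 := by
  have h6 : x * y ≤ 10.28 * 10.28 := mul_le_mul hx.le hy.le hy0.le (by norm_num)
  have h7 : D * (x * y) ≤ 1.41422 * (10.28 * 10.28) :=
    mul_le_mul hb.le h6 (by positivity) (by norm_num)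
  refine lt_of_le_of_lt h7 (by norm_num)

lemma aux7 {s : ℝ} (h : Real.sqrt 5 = s) {D : ℝ} (h1 : (5 - s) / 2 < D) (h2 : D < 2) :
    D ^ 2 - 5 * D + 5 < 0 := by
  have h5 : s ^ 2 = 5 := by rw [← h]; exact Real.sq_sqrt (by norm_num)
  have h0 : 0 ≤ s := by rw [← h]; exact Real.sqrt_nonneg _
  have e : D ^ 2 - 5 * D + 5 = (D - (5 - s) / 2) * (D - (5 + s) / 2) := by
    linear_combination (1/4 : ℝ) * h5
  rw [e]
  exact mul_neg_of_pos_of_neg (by linarith) (by linarith)

lemma aux8 {D : ℝ} (h0 : 1 ≤ D) (h : D < Real.sqrt 2) : D ^ 2 < 2 := by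
  have h22 : Real.sqrt 2 ^ 2 = 2 := Real.sq_sqrt (by norm_num)
  rw [← h22]
  exact pow_lt_pow_left₀ h (by linarith) (by norm_num)

lemma aux9 {k : ℝ} (h8 : 4 ≤ k) (h6 : k * (1 / 10.28) ≤ 0.2929) : False := by
  norm_num at h6
  linarith

namespace DimData

variable {n : ℕ} {d : Fin n → ℂ} {ν : Fin n → ℤ} (H : DimData n d ν)

include H

lemma lt_R (hlt : dv d (RingEquiv.refl ℂ) ^ 2 < 2) {x : ℝ} (hx : x ∈ H.R) : x < 10.28 := by
  obtain ⟨σ, rfl⟩ := H.mem_R.mp hx
  exact H.conj_lt hlt σ

theorem gap (h1 : (5 - Real.sqrt 5) / 2 < dv d (RingEquiv.refl ℂ))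
    (h2 : dv d (RingEquiv.refl ℂ) < Real.sqrt 2) : False := by
  classical
  set D := dv d (RingEquiv.refl ℂ) with hD
  have hD1 : 1 ≤ D := H.one_le _
  have h5 : Real.sqrt 5 ^ 2 = 5 := Real.sq_sqrt (by norm_num)
  have h5' : 0 ≤ Real.sqrt 5 := Real.sqrt_nonneg _
  have h5'' : Real.sqrt 5 < 2.2361 := by
    rw [Real.sqrt_lt' (by norm_num)]; norm_num
  have hlt : D ^ 2 < 2 := aux8 hD1 h2
  have ha : 1.3819 < D := by linarith
  have hb : D < 1.41422 := by
    refine h2.trans ?_
    rw [Real.sqrt_lt' (by norm_num)]; norm_num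
  have hYL : D ^ 2 - 5 * D + 5 < 0 := aux7 rfl h1 (by linarith)
  have hDsq := aux3 ha
  have h7 : 0.70710 < 1 / D := aux2 (by linarith) hb
  have hDR : D ∈ H.R := H.mem_R.mpr ⟨_, rfl⟩
  obtain ⟨T, hT⟩ := H.sum_int 1
  obtain ⟨N, hN⟩ := H.prod_int
  simp only [pow_one] at hT
  have hdvd := H.dvd_pow T N hT hN
  have hB := H.bessel_R
  have hins : insert D (H.R.erase D) = H.R := Finset.insert_erase hDR
  have hnot : D ∉ H.R.erase D := Finset.notMem_erase _ _
  have hcard : H.R.card = (H.R.erase D).card + 1 := by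
    rw [← Finset.card_insert_of_notMem hnot, hins]
  have hsum : ∀ g : ℝ → ℝ, ∑ x ∈ H.R, g x = g D + ∑ x ∈ H.R.erase D, g x := by
    intro g
    conv_lhs => rw [← hins]
    rw [Finset.sum_insert hnot]
  have hprod : ∏ x ∈ H.R, x = D * ∏ x ∈ H.R.erase D, x := by
    conv_lhs => rw [← hins]
    rw [Finset.prod_insert hnot]
  have hlow : ∀ x ∈ H.R.erase D, 1 / x < 0.2929 ∧ 1 ≤ x ∧ x < 10.28 ∧ x ∈ H.R := by
    intro x hx
    have hx' := Finset.mem_of_mem_erase hx
    refine ⟨?_, H.one_le_R hx', H.lt_R hlt hx', hx'⟩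
    rw [hsum] at hB
    have h6 : 1 / x ≤ ∑ x ∈ H.R.erase D, 1 / x :=
      Finset.single_le_sum (f := fun x => 1 / x) (fun i hi => by
        have := H.one_le_R (Finset.mem_of_mem_erase hi)
        positivity) hx
    linarith
  have hlow' : ∀ x ∈ H.R.erase D, 3.4 < x := by
    intro x hx
    obtain ⟨h6, h7, -⟩ := hlow x hx
    rw [div_lt_iff₀ (by linarith)] at h6
    linarith
  have hcase : (H.R.erase D).card = 0 ∨ (H.R.erase D).card = 1 ∨ (H.R.erase D).card = 2 ∨
      (H.R.erase D).card = 3 ∨ 4 ≤ (H.R.erase D).card := by omega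
  rw [hsum] at hB hT
  rw [hprod] at hN
  rcases hcase with hc | hc | hc | hc | hc
  · rw [Finset.card_eq_zero] at hc
    rw [hc, Finset.sum_empty, add_zero] at hT
    have h6 : (1 : ℝ) < T := by linarith
    have h7 : (T : ℝ) < 2 := by linarith
    have h6' : 1 < T := by exact_mod_cast h6
    have h7' : T < 2 := by exact_mod_cast h7
    omega
  · rw [hcard, hc] at hdvd
    obtain ⟨x, hx⟩ := Finset.card_eq_one.mp hc
    obtain ⟨g1, g2, g3, g4⟩ := hlow x (by rw [hx]; simp)
    have g5 := hlow' x (by rw [hx]; simp)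
    rw [hx, Finset.sum_singleton] at hT hB
    rw [hx, Finset.prod_singleton] at hN
    have hx0 : 0 < x := by linarith
    have hD0 : 0 < D := by linarith
    have hTN : (T : ℝ) ≤ N := by
      rw [← hT, ← hN]
      have h6 : (1 / D + 1 / x) * (D * x) ≤ 1 * (D * x) := by gcongr
      have h7 : (1 / D + 1 / x) * (D * x) = D + x := by field_simp; ring
      linarith
    have hTu : (T : ℝ) < 12 := by linarith
    have hTl : (4 : ℝ) < T := by linarith
    have hTu' : T < 12 := by exact_mod_cast hTu
    have hTl' : 4 < T := by exact_mod_cast hTl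
    have hN' : (N : ℝ) = T * D - D ^ 2 := by
      rw [← hN, ← hT]; ring
    interval_cases T
    · have k1 : (5 : ℝ) < N := by rw [hN']; push_cast; linarith
      have k2 : (N : ℝ) < 6 := by rw [hN']; push_cast; linarith
      have k1' : 5 < N := by exact_mod_cast k1
      have k2' : N < 6 := by exact_mod_cast k2
      omega
    · have k1 : (6 : ℝ) < N := by rw [hN']; push_cast; linarith
      have k2 : (N : ℝ) < 7 := by rw [hN']; push_cast; linarith
      have k1' : 6 < N := by exact_mod_cast k1
      have k2' : N < 7 := by exact_mod_cast k2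
      omega
    · have k1 : (7 : ℝ) < N := by rw [hN']; push_cast; linarith
      have k2 : (N : ℝ) < 8 := by rw [hN']; push_cast; linarith
      have k1' : 7 < N := by exact_mod_cast k1
      have k2' : N < 8 := by exact_mod_cast k2
      omega
    · have k1 : (9 : ℝ) < N := by rw [hN']; push_cast; linarith
      have k2 : (N : ℝ) < 10 := by rw [hN']; push_cast; linarith
      have k1' : 9 < N := by exact_mod_cast k1
      have k2' : N < 10 := by exact_mod_cast k2
      omega
    · have k1 : (10 : ℝ) < N := by rw [hN']; push_cast; linarith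
      have k2 : (N : ℝ) < 11 := by rw [hN']; push_cast; linarith
      have k1' : 10 < N := by exact_mod_cast k1
      have k2' : N < 11 := by exact_mod_cast k2
      omega
    · have k1 : (11 : ℝ) < N := by rw [hN']; push_cast; linarith
      have k2 : (N : ℝ) < 13 := by rw [hN']; push_cast; linarith
      have k1' : 11 < N := by exact_mod_cast k1
      have k2' : N < 13 := by exact_mod_cast k2
      have k3 : N = 12 := by omega
      rw [k3] at hdvd
      norm_num at hdvd
    · have k1 : (13 : ℝ) < N := by rw [hN']; push_cast; linarith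
      have k2 : (N : ℝ) < 14 := by rw [hN']; push_cast; linarith
      have k1' : 13 < N := by exact_mod_cast k1
      have k2' : N < 14 := by exact_mod_cast k2
      omega
  · rw [hcard, hc] at hdvd
    obtain ⟨x, y, hxy, hx⟩ := Finset.card_eq_two.mp hc
    obtain ⟨P2, hP2⟩ := H.sum_int 2
    rw [hsum, hx, Finset.sum_pair hxy] at hP2
    obtain ⟨g1, g2, g3, g4⟩ := hlow x (by rw [hx]; simp)
    have g5 := hlow' x (by rw [hx]; simp)
    obtain ⟨f1, f2, f3, f4⟩ := hlow y (by rw [hx]; simp)
    have f5 := hlow' y (by rw [hx]; simp)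
    rw [hx, Finset.sum_pair hxy] at hT hB
    rw [hx, Finset.prod_pair hxy] at hN
    have hx0 : 0 < x := by linarith
    have hy0 : 0 < y := by linarith
    have hD0 : 0 < D := by linarith
    -- the second symmetric function
    have hSint : IsIntegral ℤ ((D * x + D * y + x * y : ℝ) : ℂ) := by
      push_cast
      exact (((H.integral_R hDR).mul (H.integral_R g4)).add
        ((H.integral_R hDR).mul (H.integral_R f4))).add ((H.integral_R g4).mul (H.integral_R f4))
    have hSeq : D * x + D * y + x * y = ((T : ℝ) ^ 2 - P2) / 2 := by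
      rw [← hT, ← hP2]; ring
    obtain ⟨S, hS⟩ := fixed_int _ hSint (by
      intro σ
      rw [hSeq]
      push_cast
      rw [map_div₀, map_sub, map_pow, map_intCast, map_intCast, map_ofNat])
    have hS' : D * x + D * y + x * y = S := by exact_mod_cast hS
    have hSN : (S : ℝ) ≤ N := by
      rw [← hS', ← hN]
      have h6 : (1 / D + (1 / x + 1 / y)) * (D * (x * y)) ≤ 1 * (D * (x * y)) := by gcongr
      have h7 : (1 / D + (1 / x + 1 / y)) * (D * (x * y)) = D * x + D * y + x * y := by
        field_simp; ring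
      linarith
    have hNpos : (0 : ℝ) < N := by rw [← hN]; positivity
    have hSpos : (0 : ℝ) < S := by rw [← hS']; positivity
    have hTu : (T : ℝ) < 22 := by linarith
    have hxy4 : 13.65 < x + y := by
      have h8 : 1 / x + 1 / y < 0.2929 := by linarith
      have h9 : 4 ≤ (1 / x + 1 / y) * (x + y) := by
        have : (1 / x + 1 / y) * (x + y) = 4 + (x - y) ^ 2 / (x * y) := by
          field_simp; ring
        rw [this]
        have : 0 ≤ (x - y) ^ 2 / (x * y) := by positivity
        linarith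
      exact aux1 h9 h8 (by linarith) (by norm_num)
    have hTl : (15 : ℝ) < T := by linarith
    have hTu' : T < 22 := by exact_mod_cast hTu
    have hTl' : 15 < T := by exact_mod_cast hTl
    have hNu : (N : ℝ) < 150 := by
      rw [← hN]
      exact aux6 hb hx0 g3 hy0 f3
    have hNu' : N < 150 := by exact_mod_cast hNu
    have hNpos' : 0 < N := by exact_mod_cast hNpos
    have hSpos' : 0 < S := by exact_mod_cast hSpos
    have hSN' : S ≤ N := by exact_mod_cast hSN
    -- divisibility
    have hdvd2 : N ^ 2 ∣ S ^ 3 := by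
      have e1 : (S : ℝ) ^ 3 / (N : ℝ) ^ 2 =
          (1 + D / y + D / x) * (1 + x / y + x / D) * (1 + y / D + y / x) := by
        rw [← hS', ← hN]
        field_simp
        ring
      have one_int : IsIntegral ℤ ((1 : ℝ) : ℂ) := by
        rw [Complex.ofReal_one]; exact isIntegral_one
      have e2 : IsIntegral ℤ (((S : ℝ) ^ 3 / (N : ℝ) ^ 2 : ℝ) : ℂ) := by
        rw [e1]
        simp only [Complex.ofReal_mul, Complex.ofReal_add]
        exact (((one_int.add (H.integral_ratio hDR f4)).add (H.integral_ratio hDR g4)).mul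
          ((one_int.add (H.integral_ratio g4 f4)).add (H.integral_ratio g4 hDR))).mul
          ((one_int.add (H.integral_ratio f4 hDR)).add (H.integral_ratio f4 g4))
      obtain ⟨k, hk⟩ := fixed_int _ e2 (by
        intro σ
        push_cast
        simp)
      have e3 : (S : ℝ) ^ 3 / (N : ℝ) ^ 2 = k := by exact_mod_cast hk
      rw [div_eq_iff (by positivity)] at e3
      refine ⟨k, ?_⟩
      have : (S : ℝ) ^ 3 = ((N ^ 2 * k : ℤ) : ℝ) := by rw [e3]; push_cast; ring
      exact_mod_cast this
    have hP : ∀ t : ℝ, (t - D) * (t - x) * (t - y) = t ^ 3 - T * t ^ 2 + S * t - N := by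
      intro t
      rw [← hT, ← hS', ← hN]
      ring
    have q1 : (1.38 : ℝ) ^ 3 - T * 1.38 ^ 2 + S * 1.38 - N < 0 := by
      rw [← hP]
      exact aux4 (by linarith) (by linarith) (by linarith)
    have q2 : 0 < (1.415 : ℝ) ^ 3 - T * 1.415 ^ 2 + S * 1.415 - N := by
      rw [← hP]
      exact aux5 (by linarith) (by linarith) (by linarith)
    have q3 : 0 < (10.28 : ℝ) ^ 3 - T * 10.28 ^ 2 + S * 10.28 - N := by
      rw [← hP]
      exact mul_pos (mul_pos (by linarith) (by linarith)) (by linarith)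
    -- conclude
    lift T to ℕ using by omega
    lift N to ℕ using by omega
    lift S to ℕ using by omega
    simp only [Int.cast_natCast] at q1 q2 q3
    refine dec3 T (Finset.mem_Icc.mpr ⟨by omega, by omega⟩) N (Finset.mem_Icc.mpr
      ⟨by omega, by omega⟩) (by exact_mod_cast hdvd) S
      (Finset.mem_Icc.mpr ⟨by omega, by omega⟩) (by exact_mod_cast hdvd2) ?_ ?_ ?_
    · have : (328509 + 172500 * S : ℝ) < 238050 * T + 125000 * N := by linarith
      exact_mod_cast this
    · have : (16017800 * T + 8000000 * N : ℝ) < 22665187 + 11320000 * S := by linarith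
      exact_mod_cast this
    · have : (1651225 * T + 15625 * N : ℝ) < 16974593 + 160625 * S := by linarith
      exact_mod_cast this
  · obtain ⟨x, y, z, hxy, hxz, hyz, hx⟩ := Finset.card_eq_three.mp hc
    have hsum3 : ∀ g : ℝ → ℝ, ∑ t ∈ ({x, y, z} : Finset ℝ), g t = g x + (g y + g z) := by
      intro g
      rw [Finset.sum_insert (by simp [hxy, hxz]), Finset.sum_pair hyz]
    obtain ⟨g1, g2, g3, g4⟩ := hlow x (by rw [hx]; simp)
    have g5 := hlow' x (by rw [hx]; simp)
    obtain ⟨f1, f2, f3, f4⟩ := hlow y (by rw [hx]; simp)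
    have f5 := hlow' y (by rw [hx]; simp)
    obtain ⟨e1, e2, e3, e4⟩ := hlow z (by rw [hx]; simp)
    have e5 := hlow' z (by rw [hx]; simp)
    rw [hx, hsum3] at hT hB
    have hx0 : 0 < x := by linarith
    have hy0 : 0 < y := by linarith
    have hz0 : 0 < z := by linarith
    have hD0 : 0 < D := by linarith
    have h8 : 1 / x + 1 / y + 1 / z < 0.2929 := by linarith
    have h9 : 9 ≤ (1 / x + 1 / y + 1 / z) * (x + y + z) := by
      have : (1 / x + 1 / y + 1 / z) * (x + y + z) = 9 + (x - y) ^ 2 / (x * y) +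
          (x - z) ^ 2 / (x * z) + (y - z) ^ 2 / (y * z) := by
        field_simp; ring
      rw [this]
      have k1 : 0 ≤ (x - y) ^ 2 / (x * y) := by positivity
      have k2 : 0 ≤ (x - z) ^ 2 / (x * z) := by positivity
      have k3 : 0 ≤ (y - z) ^ 2 / (y * z) := by positivity
      linarith
    have h10 : 30.72 < x + y + z := aux1 h9 h8 (by linarith) (by norm_num)
    have h11 : (32 : ℝ) < T := by linarith
    have h12 : (T : ℝ) < 33 := by linarith
    have h11' : 32 < T := by exact_mod_cast h11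
    have h12' : T < 33 := by exact_mod_cast h12
    omega
  · have h6 : ∑ x ∈ H.R.erase D, (1 / 10.28 : ℝ) ≤ ∑ x ∈ H.R.erase D, 1 / x := by
      refine Finset.sum_le_sum fun x hx => ?_
      obtain ⟨g1, g2, g3, g4⟩ := hlow x hx
      exact one_div_le_one_div_of_le (by linarith) g3.le
    rw [Finset.sum_const, nsmul_eq_mul] at h6
    have h8 : (4 : ℝ) ≤ (H.R.erase D).card := by exact_mod_cast hc
    exact aux9 h8 (by linarith)

end DimData

end Pool.Agent.H386
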