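import Pool.Agent.H386.Num4

set_option autoImplicit false

namespace Pool.Agent.H386

open IntermediateField Polynomial

/-- the roots of the minimal polynomial are the conjugates under automorphisms of `ℂ` -/
lemma exists_aut_of_root (z w : ℂ) (hz : IsIntegral ℤ z)
    (hw : w ∈ ((minpoly ℚ z).map (algebraMap ℚ ℂ)).roots) : ∃ σ : ℂ ≃+* ℂ, w = σ z := by
  have hzQ : IsIntegral ℚ z := hz.tower_top
  have : FiniteDimensional ℚ ℚ⟮z⟯ := adjoin.finiteDimensional hzQ
  have hw' : w ∈ (minpoly ℚ z).aroots ℂ := hw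
  obtain ⟨σ, hσ⟩ := exists_aut _ ((algHomAdjoinIntegralEquiv ℚ hzQ).symm ⟨w, hw'⟩)
  refine ⟨σ, ?_⟩
  have h1 := hσ (AdjoinSimple.gen ℚ z)
  have h2 := algHomAdjoinIntegralEquiv_symm_apply_gen ℚ hzQ ⟨w, hw'⟩
  exact (h1.trans h2).symm

/-- finiteness of algebraic integers of bounded degree and bounded conjugates -/
theorem finite_bounded (d : ℕ) (B : ℝ) :
    {z : ℂ | IsIntegral ℤ z ∧ (∀ s : Finset ℂ, (∀ w ∈ s, ∃ σ : ℂ ≃+* ℂ, w = σ z) → s.card ≤ d) ∧
      ∀ σ : ℂ ≃+* ℂ, ‖σ z‖ ≤ B}.Finite := by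
  classical
  let M : ℤ := ⌈max B 1 ^ d * d.choose (d / 2)⌉
  have key := bUnion_roots_finite (algebraMap ℤ ℂ) d (Set.finite_Icc (-M) M)
  refine key.subset fun z hz => ?_
  obtain ⟨hz, hcard, hB⟩ := hz
  have hmap : minpoly ℚ z = (minpoly ℤ z).map (algebraMap ℤ ℚ) :=
    minpoly.isIntegrallyClosed_eq_field_fractions' ℚ hz
  have hzQ : IsIntegral ℚ z := hz.tower_top
  have hdeg : (minpoly ℚ z).natDegree ≤ d := by
    have h1 : ((minpoly ℚ z).map (algebraMap ℚ ℂ)).roots.toFinset.card ≤ d := by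
      refine hcard _ fun w hw => ?_
      rw [Multiset.mem_toFinset] at hw
      exact exists_aut_of_root z w hz hw
    have hsep : ((minpoly ℚ z).map (algebraMap ℚ ℂ)).Separable :=
      (minpoly.irreducible hzQ).separable.map
    have h2 : ((minpoly ℚ z).map (algebraMap ℚ ℂ)).roots.Nodup := nodup_roots hsep
    rw [Multiset.toFinset_card_of_nodup h2] at h1
    have h3 := (IsAlgClosed.splits ((minpoly ℚ z).map (algebraMap ℚ ℂ))).natDegree_eq_card_roots
    rw [natDegree_map] at h3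
    omega
  simp only [Set.mem_iUnion]
  refine ⟨minpoly ℤ z, ⟨?_, fun i => ?_⟩, ?_⟩
  · rw [hmap, (minpoly.monic hz).natDegree_map] at hdeg
    exact hdeg
  · have h1 := coeff_bdd_of_roots_le (B := B) (d := d) (algebraMap ℚ ℂ) (minpoly.monic hzQ)
      (IsAlgClosed.splits _) hdeg (fun w hw => by
        obtain ⟨σ, rfl⟩ := exists_aut_of_root z w hz hw
        exact hB σ) i
    have h2 : ((minpoly ℚ z).map (algebraMap ℚ ℂ)).coeff i = (((minpoly ℤ z).coeff i : ℤ) : ℂ) := by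
      rw [hmap, Polynomial.map_map, coeff_map]
      simp
    rw [h2, Complex.norm_intCast] at h1
    rw [Set.mem_Icc, ← abs_le]
    have h3 : ((|(minpoly ℤ z).coeff i| : ℤ) : ℝ) ≤ M := by
      rw [Int.cast_abs]
      exact h1.trans (Int.le_ceil _)
    exact_mod_cast h3
  · have h0 : (minpoly ℤ z).map (algebraMap ℤ ℂ) ≠ 0 := ((minpoly.monic hz).map _).ne_zero
    rw [Finset.mem_coe, Multiset.mem_toFinset, mem_roots h0, IsRoot.def, eval_map_algebraMap]
    exact minpoly.aeval ℤ z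

end Pool.Agent.H386
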