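import Pool.Agent.H386.Num6
import Pool.Agent.H386.Bridge

set_option autoImplicit false

namespace Pool.Agent.H386

lemma ineq_y {c x ν : ℝ} (hc : 3.6522 ≤ c) (hν : ν = 0 ∨ ν = 1 ∨ ν = -1) :
    0.4956 * (x ^ 2 - ν * x) - 0.4064 ≤ (c - 3) * x ^ 2 - ν * x := by
  have h0 : 0 ≤ (c - 3.6522) * x ^ 2 := mul_nonneg (by linarith) (sq_nonneg x)
  rcases hν with rfl | rfl | rfl
  · nlinarith [sq_nonneg x]
  · nlinarith [sq_nonneg (x - 1.6105)]
  · nlinarith [sq_nonneg (x + 1.6105)]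

lemma ineq_t {c t s n : ℝ} (hc : 3.6522 ≤ c) (hn : n ≤ 50) (ht : 1 ≤ t) (hs : 0 ≤ s)
    (h1 : c * t ≤ 3 * t + 4 + (1 + s)) (h2 : s ^ 2 ≤ (n - 1) * (t - 1)) : t ≤ 131 := by
  by_contra hcon
  push Not at hcon
  have h3 : 0.6522 * t ≤ 5 + s := by nlinarith
  have h4 : s ^ 2 ≤ 49 * t := by nlinarith
  have h5 : 0.6522 * t - 5 ≤ s := by linarith
  have h6 : (0.6522 * t - 5) ^ 2 ≤ s ^ 2 := pow_le_pow_left₀ (by linarith) h5 2
  nlinarith

namespace DimData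

variable {n : ℕ} {d : Fin n → ℂ} {ν : Fin n → ℤ} (H : DimData n d ν)

include H

lemma c_ge (hle : dv d (RingEquiv.refl ℂ) ≤ 1.48) :
    3.6522 ≤ 8 / dv d (RingEquiv.refl ℂ) ^ 2 := by
  have hpos := H.one_le (RingEquiv.refl ℂ)
  rw [le_div_iff₀ (by positivity)]
  have : dv d (RingEquiv.refl ℂ) ^ 2 ≤ 1.48 ^ 2 := pow_le_pow_left₀ (by linarith) hle 2
  linarith

/-- the weak rank bound -/
theorem rank_le_of (hle : dv d (RingEquiv.refl ℂ) ≤ 1.48) : n ≤ 50 := by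
  have hpos := H.one_le (RingEquiv.refl ℂ)
  have hlt2 : dv d (RingEquiv.refl ℂ) < 2 := by linarith
  have hc := H.c_ge hle
  obtain ⟨ι, i1, i2, σ, hσ⟩ := H.exists_avg hlt2
  obtain ⟨u, hu⟩ := H.one
  have hne : ∀ a ∈ Finset.univ.erase u, d a ≠ 1 := by
    intro a ha h1
    exact (Finset.ne_of_mem_erase ha) (H.unit_unique hlt2 h1 hu)
  set c := 8 / dv d (RingEquiv.refl ℂ) ^ 2 with hcdef
  have hν : ∀ a, (ν a : ℝ) = 0 ∨ (ν a : ℝ) = 1 ∨ (ν a : ℝ) = -1 := by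
    intro a
    rcases H.nu a with h | h | h <;> rw [h] <;> norm_num
  have hstar : ∀ i, ∑ a ∈ Finset.univ.erase u,
      ((c - 3) * (σ i (d a)).re ^ 2 - (ν a : ℝ) * (σ i (d a)).re) ≤ 4.348 := by
    intro i
    have h1 := H.star' (σ i) (RingEquiv.refl ℂ)
    have h4 : 8 * dv d (σ i) / dv d (RingEquiv.refl ℂ) ^ 2 = c * dv d (σ i) := by
      rw [hcdef]; ring
    rw [h4] at h1
    have h2 : ∑ a, ((c - 3) * (σ i (d a)).re ^ 2 - (ν a : ℝ) * (σ i (d a)).re) =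
        (c - 3) * dv d (σ i) - ∑ a, (ν a : ℝ) * (σ i (d a)).re := by
      rw [Finset.sum_sub_distrib, ← Finset.mul_sum]
      rfl
    rw [← Finset.add_sum_erase _ _ (Finset.mem_univ u)] at h2
    have h3 : -0.3478 ≤ (c - 3) * (σ i (d u)).re ^ 2 - (ν u : ℝ) * (σ i (d u)).re := by
      rw [hu, map_one, Complex.one_re]
      have := (abs_le.mp (H.nu_abs u)).2
      linarith
    linarith
  have hone : ∀ a ∈ Finset.univ.erase u, 0.0892 * (Fintype.card ι : ℝ) ≤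
      ∑ i, ((c - 3) * (σ i (d a)).re ^ 2 - (ν a : ℝ) * (σ i (d a)).re) := by
    intro a ha
    have h1 := hσ a (hne a ha)
    have h2 : ∑ i, (0.4956 * ((σ i (d a)).re ^ 2 - (ν a : ℝ) * (σ i (d a)).re) - 0.4064) ≤
        ∑ i, ((c - 3) * (σ i (d a)).re ^ 2 - (ν a : ℝ) * (σ i (d a)).re) :=
      Finset.sum_le_sum fun i _ => ineq_y hc (hν a)
    rw [Finset.sum_sub_distrib, ← Finset.mul_sum, Finset.sum_const, nsmul_eq_mul,
      Finset.card_univ] at h2
    linarith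
  have h1 := Finset.sum_le_sum hone
  rw [Finset.sum_comm] at h1
  have h2 := h1.trans (Finset.sum_le_sum fun i _ => hstar i)
  simp only [Finset.sum_const, Finset.card_erase_of_mem (Finset.mem_univ u), Finset.card_univ,
    Fintype.card_fin, nsmul_eq_mul] at h2
  have h4 : (0 : ℝ) < Fintype.card ι := by exact_mod_cast Fintype.card_pos
  have h5 : ((n - 1 : ℕ) : ℝ) < 50 := by
    by_contra hcon
    push Not at hcon
    nlinarith
  have h6 : n - 1 < 50 := by exact_mod_cast h5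
  have := u.2
  omega

/-- the weak bound for all conjugates -/
theorem conj_le_of (hle : dv d (RingEquiv.refl ℂ) ≤ 1.48) (σ : ℂ ≃+* ℂ) : dv d σ ≤ 131 := by
  obtain ⟨u, hu⟩ := H.one
  obtain ⟨s, hs0, hs1, hs2⟩ := H.h_le u hu σ
  have hn : (n : ℝ) ≤ 50 := by exact_mod_cast H.rank_le_of hle
  have h1 := H.star' σ (RingEquiv.refl ℂ)
  have h4 : 8 * dv d σ / dv d (RingEquiv.refl ℂ) ^ 2 =
      8 / dv d (RingEquiv.refl ℂ) ^ 2 * dv d σ := by ring
  rw [h4] at h1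
  exact ineq_t (H.c_ge hle) hn (H.one_le σ) hs0 (by linarith) hs1

/-- the number of conjugates is bounded -/
theorem card_R_le (hle : dv d (RingEquiv.refl ℂ) ≤ 1.48) : H.R.card ≤ 131 := by
  have hB := H.bessel_R
  have h6 : ∑ x ∈ H.R, (1 / 131 : ℝ) ≤ ∑ x ∈ H.R, 1 / x := by
    refine Finset.sum_le_sum fun x hx => ?_
    have h1 := H.one_le_R hx
    obtain ⟨σ, rfl⟩ := H.mem_R.mp hx
    exact one_div_le_one_div_of_le (by linarith) (H.conj_le_of hle σ)
  rw [Finset.sum_const, nsmul_eq_mul] at h6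
  have h7 : (H.R.card : ℝ) ≤ 131 := by
    have := h6.trans hB
    linarith
  exact_mod_cast h7

theorem mem_bounded (hle : dv d (RingEquiv.refl ℂ) ≤ 1.48) :
    ((dv d (RingEquiv.refl ℂ) : ℝ) : ℂ) ∈ {z : ℂ | IsIntegral ℤ z ∧
      (∀ s : Finset ℂ, (∀ w ∈ s, ∃ σ : ℂ ≃+* ℂ, w = σ z) → s.card ≤ 131) ∧
      ∀ σ : ℂ ≃+* ℂ, ‖σ z‖ ≤ 131} := by
  classical
  have h0 := H.dv_coe (RingEquiv.refl ℂ)
  rw [RingEquiv.refl_apply] at h0
  rw [Set.mem_setOf_eq, h0]
  refine ⟨H.int_sum, ?_, ?_⟩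
  · intro s hs
    refine le_trans ?_ (H.card_R_le hle)
    refine Finset.card_le_card_of_injOn Complex.re ?_ ?_
    · intro w hw
      obtain ⟨σ, rfl⟩ := hs w hw
      rw [← H.dv_coe, Complex.ofReal_re]
      exact H.mem_R.mpr ⟨σ, rfl⟩
    · intro w hw w' hw' hww
      obtain ⟨σ, rfl⟩ := hs w hw
      obtain ⟨σ', rfl⟩ := hs w' hw'
      rw [← H.dv_coe, ← H.dv_coe] at hww ⊢
      rw [Complex.ofReal_re, Complex.ofReal_re] at hww
      rw [hww]
  · intro σ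
    rw [← H.dv_coe, Complex.norm_real, Real.norm_eq_abs, abs_of_nonneg]
    · exact H.conj_le_of hle σ
    · linarith [H.one_le σ]

end DimData

universe v u

/-- There are only finitely many global dimensions of spherical fusion categories below `1.48`. -/
theorem finite_dims : (sphericalDims.{v, u} ∩ Set.Iic 1.48).Finite := by
  refine Set.Finite.subset
    (Set.Finite.preimage Complex.ofReal_injective.injOn (finite_bounded 131 131)) ?_
  rintro x ⟨hx, hle⟩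
  obtain ⟨n, d, ν, H, rfl⟩ := exists_dimData hx
  exact H.mem_bounded hle

/-- `√2` is not a limit point -/
theorem not_accPt : ¬ AccPt (Real.sqrt 2) (Filter.principal sphericalDims.{v, u}) := by
  intro h
  have h1 : Set.Iio (1.48 : ℝ) ∈ nhds (Real.sqrt 2) := by
    refine Iio_mem_nhds ?_
    rw [Real.sqrt_lt' (by norm_num)]
    norm_num
  refine Set.Infinite.of_accPt (h.nhds_inter h1) (finite_dims.subset ?_)
  rintro x ⟨hx, hx'⟩
  exact ⟨hx', Set.mem_Iic.mpr (Set.mem_Iio.mp hx).le⟩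

end Pool.Agent.H386
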