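import Pool.Agent.H386.Piv2

set_option autoImplicit false

open CategoryTheory CategoryTheory.Limits MonoidalCategory

namespace Pool.Agent.H386

universe v u

variable {C : Type u} [Category.{v} C] [MonoidalCategory C] [RigidCategory C]

open CategoryTheory.HasRightDual (rightDual)

attribute [-instance] CategoryTheory.hasRightDualUnit CategoryTheory.hasLeftDualUnit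

namespace Pivotal

variable (δ : Pivotal C)

/-- The left partial trace. -/
def lptr (X : C) {A B : C} (F : X ⊗ A ⟶ X ⊗ B) : A ⟶ B :=
  (λ_ A).inv ≫ δ.coev X ▷ A ≫ (α_ _ _ _).hom ≫ (rightDual X) ◁ F ≫ (α_ _ _ _).inv ≫ ε_ X (rightDual X) ▷ B ≫ (λ_ B).hom

lemma lptr_eq (X : C) {A B : C} (F : X ⊗ A ⟶ X ⊗ B) :
    δ.lptr X F = 𝟙 _ ⊗≫ δ.coev X ▷ A ⊗≫ (rightDual X) ◁ F ⊗≫ ε_ X (rightDual X) ▷ B ⊗≫ 𝟙 _ := by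
  unfold lptr; monoidal

lemma lptr_cyc {X Y A B : C} (f : X ⟶ Y) (F : Y ⊗ A ⟶ X ⊗ B) :
    δ.lptr X (f ▷ A ≫ F) = δ.lptr Y (F ≫ f ▷ B) := by
  calc
    _ = 𝟙 _ ⊗≫ (δ.coev X ≫ (rightDual X) ◁ f) ▷ A ⊗≫ (rightDual X) ◁ F ⊗≫ ε_ X (rightDual X) ▷ B ⊗≫ 𝟙 _ := by
      rw [lptr_eq]; monoidal
    _ = 𝟙 _ ⊗≫ δ.coev Y ▷ A ⊗≫ (rightAdjointMate f ▷ (Y ⊗ A) ≫ (rightDual X) ◁ F) ⊗≫ ε_ X (rightDual X) ▷ B ⊗≫ 𝟙 _ := by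
      rw [coev_nat]; monoidal
    _ = 𝟙 _ ⊗≫ δ.coev Y ▷ A ⊗≫ (rightDual Y) ◁ F ⊗≫ (rightAdjointMate f ▷ X ≫ ε_ X (rightDual X)) ▷ B ⊗≫ 𝟙 _ := by
      rw [← whisker_exchange]; monoidal
    _ = _ := by
      rw [rightAdjointMate_comp_evaluation, lptr_eq]; monoidal

lemma lptr_left {X A A' B : C} (g : A' ⟶ A) (F : X ⊗ A ⟶ X ⊗ B) :
    δ.lptr X (X ◁ g ≫ F) = g ≫ δ.lptr X F := by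
  calc
    _ = 𝟙 _ ⊗≫ (δ.coev X ▷ A' ≫ ((rightDual X) ⊗ X) ◁ g) ⊗≫ (rightDual X) ◁ F ⊗≫ ε_ X (rightDual X) ▷ B ⊗≫ 𝟙 _ := by
      rw [lptr_eq]; monoidal
    _ = _ := by
      rw [← whisker_exchange, lptr_eq]; monoidal

lemma lptr_right {X A B B' : C} (F : X ⊗ A ⟶ X ⊗ B) (g : B ⟶ B') :
    δ.lptr X (F ≫ X ◁ g) = δ.lptr X F ≫ g := by
  calc
    _ = 𝟙 _ ⊗≫ δ.coev X ▷ A ⊗≫ (rightDual X) ◁ F ⊗≫ (((rightDual X) ⊗ X) ◁ g ≫ ε_ X (rightDual X) ▷ B') ⊗≫ 𝟙 _ := by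
      rw [lptr_eq]; monoidal
    _ = _ := by
      rw [whisker_exchange, lptr_eq]; monoidal

lemma lptr_whisker {X A B : C} (F : X ⊗ A ⟶ X ⊗ B) (Z : C) :
    δ.lptr X F ▷ Z = δ.lptr X ((α_ X A Z).inv ≫ F ▷ Z ≫ (α_ X B Z).hom) := by
  rw [lptr_eq, lptr_eq]; monoidal

lemma lptr_tensor {X Y A B : C} (F : (X ⊗ Y) ⊗ A ⟶ (X ⊗ Y) ⊗ B) :
    δ.lptr (X ⊗ Y) F = δ.lptr Y (δ.lptr X ((α_ X Y A).inv ≫ F ≫ (α_ X Y B).hom)) := by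
  calc
    _ = 𝟙 _ ⊗≫ (δ.coev (X ⊗ Y) ≫ ((rightDualTensorIso X Y).hom ≫ (rightDualTensorIso X Y).inv) ▷
          (X ⊗ Y)) ▷ A ⊗≫ (rightDual (X ⊗ Y)) ◁ F ⊗≫ ε_ (X ⊗ Y) (rightDual (X ⊗ Y)) ▷ B ⊗≫ 𝟙 _ := by
      rw [lptr_eq, Iso.hom_inv_id, id_whiskerRight, Category.comp_id]
    _ = 𝟙 _ ⊗≫ (δ.coev (X ⊗ Y) ≫ (rightDualTensorIso X Y).hom ▷ (X ⊗ Y)) ▷ A ⊗≫
          ((rightDualTensorIso X Y).inv ▷ ((X ⊗ Y) ⊗ A) ≫ (rightDual (X ⊗ Y)) ◁ F) ⊗≫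
          ε_ (X ⊗ Y) (rightDual (X ⊗ Y)) ▷ B ⊗≫ 𝟙 _ := by
      monoidal
    _ = 𝟙 _ ⊗≫ (δ.coev (X ⊗ Y) ≫ (rightDualTensorIso X Y).hom ▷ (X ⊗ Y)) ▷ A ⊗≫
          ((rightDual Y) ⊗ (rightDual X)) ◁ F ⊗≫
          ((rightDualTensorIso X Y).inv ▷ (X ⊗ Y) ≫ ε_ (X ⊗ Y) (rightDual (X ⊗ Y))) ▷ B ⊗≫ 𝟙 _ := by
      rw [← whisker_exchange]; monoidal
    _ = _ := by
      rw [coev_tensor, ← eT_ev', lptr_eq, lptr_eq]; monoidal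

/-- left dimension as endomorphism of the unit -/
def ldim (X : C) : 𝟙_ C ⟶ 𝟙_ C := δ.coev X ≫ ε_ X (rightDual X)

lemma lptr_id (X A : C) : δ.lptr X (𝟙 (X ⊗ A)) = (λ_ A).inv ≫ δ.ldim X ▷ A ≫ (λ_ A).hom := by
  rw [lptr_eq, ldim]; monoidal

lemma ldim_unit_isIso : ∃ k : 𝟙_ C ⟶ 𝟙_ C, δ.ldim (𝟙_ C) ≫ k = 𝟙 _ := by
  refine ⟨η_ (𝟙_ C) (rightDual (𝟙_ C)) ≫ δ.ev (𝟙_ C), ?_⟩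
  have h := ExactPairing.coevaluation_evaluation'' (𝟙_ C) (rightDual (𝟙_ C))
  have h2 : ε_ (𝟙_ C) (rightDual (𝟙_ C)) ≫ η_ (𝟙_ C) (rightDual (𝟙_ C)) = ⊗𝟙.hom := by
    calc
      _ = 𝟙 _ ⊗≫ (ε_ (𝟙_ C) (rightDual (𝟙_ C)) ▷ (𝟙_ C) ≫ 𝟙_ C ◁ η_ (𝟙_ C) (rightDual (𝟙_ C))) ⊗≫ 𝟙 _ := by monoidal
      _ = 𝟙 _ ⊗≫ ((rightDual (𝟙_ C)) ◁ η_ (𝟙_ C) (rightDual (𝟙_ C)) ⊗≫ ε_ (𝟙_ C) (rightDual (𝟙_ C)) ▷ (rightDual (𝟙_ C))) ⊗≫ 𝟙 _ := by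
        rw [← whisker_exchange]; monoidal
      _ = _ := by rw [h]; monoidal
  have h3 : δ.coev (𝟙_ C) ⊗≫ δ.ev (𝟙_ C) = 𝟙 _ := by
    have h4 : (𝟙_ C) ◁ δ.coev (𝟙_ C) ≫ (α_ _ _ _).inv ≫ δ.ev (𝟙_ C) ▷ (𝟙_ C) =
        (ρ_ _).hom ≫ (λ_ _).inv :=
      @ExactPairing.coevaluation_evaluation C _ _ (rightDual (𝟙_ C)) (𝟙_ C) (δ.opp (𝟙_ C))
    calc
      _ = 𝟙 _ ⊗≫ (𝟙_ C ◁ δ.coev (𝟙_ C) ≫ (α_ _ _ _).inv ≫ δ.ev (𝟙_ C) ▷ (𝟙_ C)) ⊗≫ 𝟙 _ := by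
        monoidal
      _ = _ := by rw [h4]; monoidal
  calc
    _ = δ.coev (𝟙_ C) ≫ (ε_ (𝟙_ C) (rightDual (𝟙_ C)) ≫ η_ (𝟙_ C) (rightDual (𝟙_ C))) ≫ δ.ev (𝟙_ C) := by
      simp [ldim]
    _ = δ.coev (𝟙_ C) ⊗≫ δ.ev (𝟙_ C) := by
      rw [h2]; monoidal
    _ = _ := h3

lemma ldim_unit : δ.ldim (𝟙_ C) = 𝟙 _ := by
  obtain ⟨k, hk⟩ := δ.ldim_unit_isIso
  have h1 : δ.lptr (𝟙_ C ⊗ 𝟙_ C) (𝟙 ((𝟙_ C ⊗ 𝟙_ C) ⊗ 𝟙_ C)) = δ.lptr (𝟙_ C) (𝟙 (𝟙_ C ⊗ 𝟙_ C)) := by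
    have := δ.lptr_cyc (A := 𝟙_ C) (B := 𝟙_ C) (λ_ (𝟙_ C)).hom ((λ_ (𝟙_ C)).inv ▷ (𝟙_ C))
    rw [← comp_whiskerRight, ← comp_whiskerRight, Iso.hom_inv_id, Iso.inv_hom_id, id_whiskerRight,
      id_whiskerRight] at this
    exact this
  rw [lptr_tensor, Category.id_comp, Iso.inv_hom_id, lptr_id, lptr_id] at h1
  have h2 : δ.lptr (𝟙_ C) (𝟙_ C ◁ δ.ldim (𝟙_ C)) = δ.ldim (𝟙_ C) ≫ δ.ldim (𝟙_ C) := by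
    have := δ.lptr_left (X := 𝟙_ C) (δ.ldim (𝟙_ C)) (𝟙 (𝟙_ C ⊗ 𝟙_ C))
    rw [Category.comp_id] at this
    rw [this, lptr_id]
    monoidal
  have h3 : δ.ldim (𝟙_ C) ≫ δ.ldim (𝟙_ C) = δ.ldim (𝟙_ C) := by
    rw [← h2]
    have e1 : (λ_ (𝟙_ C ⊗ 𝟙_ C)).inv ≫ δ.ldim (𝟙_ C) ▷ (𝟙_ C ⊗ 𝟙_ C) ≫ (λ_ (𝟙_ C ⊗ 𝟙_ C)).hom =
      𝟙_ C ◁ δ.ldim (𝟙_ C) := by
      monoidal
    rw [e1] at h1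
    rw [h1]
    monoidal
  calc
    _ = (δ.ldim (𝟙_ C) ≫ δ.ldim (𝟙_ C)) ≫ k := by rw [Category.assoc, hk, Category.comp_id]
    _ = _ := by rw [h3, hk]

lemma lptr_unit {A B : C} (F : 𝟙_ C ⊗ A ⟶ 𝟙_ C ⊗ B) :
    δ.lptr (𝟙_ C) F = (λ_ A).inv ≫ F ≫ (λ_ B).hom := by
  have h : F = 𝟙 _ ≫ 𝟙_ C ◁ ((λ_ A).inv ≫ F ≫ (λ_ B).hom) := by
    simp
  conv_lhs => rw [h]
  rw [lptr_right, lptr_id, ldim_unit]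
  simp

end Pivotal

end Pool.Agent.H386
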