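import Pool.Agent.H386.Defs

set_option autoImplicit false

open CategoryTheory CategoryTheory.Limits MonoidalCategory

namespace Pool.Agent.H386

universe v u

variable {C : Type u} [Category.{v} C] [MonoidalCategory C] [RigidCategory C]

namespace Pivotal

variable (δ : Pivotal C)

/-- The opposite exact pairing. -/
@[instance_reducible]
def opp (X : C) : ExactPairing (Xᘁ) X := exactPairingCongrRight (δ.iso X)

/-- left coevaluation -/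
def coev (X : C) : 𝟙_ C ⟶ Xᘁ ⊗ X := η_ (Xᘁ) ((Xᘁ)ᘁ) ≫ Xᘁ ◁ (δ.iso X).inv

/-- left evaluation -/
def ev (X : C) : X ⊗ Xᘁ ⟶ 𝟙_ C := (δ.iso X).hom ▷ Xᘁ ≫ ε_ (Xᘁ) ((Xᘁ)ᘁ)

lemma zag (X : C) : δ.coev X ▷ Xᘁ ⊗≫ Xᘁ ◁ δ.ev X = ⊗𝟙.hom :=
  @ExactPairing.evaluation_coevaluation'' C _ _ (Xᘁ) X (δ.opp X)

lemma zig (X : C) : X ◁ δ.coev X ⊗≫ δ.ev X ▷ X = ⊗𝟙.hom :=
  @ExactPairing.coevaluation_evaluation'' C _ _ (Xᘁ) X (δ.opp X)

lemma coev_nat {X Y : C} (f : X ⟶ Y) : δ.coev X ≫ Xᘁ ◁ f = δ.coev Y ≫ fᘁ ▷ Y := by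
  have h1 : (δ.iso X).inv ≫ f = (fᘁ)ᘁ ≫ (δ.iso Y).inv := by
    rw [Iso.inv_comp_eq, ← Category.assoc, Iso.eq_comp_inv, δ.naturality]
  unfold coev
  rw [Category.assoc, ← MonoidalCategory.whiskerLeft_comp, h1, MonoidalCategory.whiskerLeft_comp,
    coevaluation_comp_rightAdjointMate_assoc, Category.assoc, whisker_exchange]

lemma ev_nat {X Y : C} (f : X ⟶ Y) : f ▷ Yᘁ ≫ δ.ev Y = X ◁ fᘁ ≫ δ.ev X := by
  unfold ev
  rw [← comp_whiskerRight_assoc, δ.naturality, comp_whiskerRight_assoc,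
    rightAdjointMate_comp_evaluation, whisker_exchange_assoc]

end Pivotal

end Pool.Agent.H386
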