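import Pool.Agent.H386.Piv

set_option autoImplicit false

open CategoryTheory CategoryTheory.Limits MonoidalCategory

namespace Pool.Agent.H386

universe v u

variable {C : Type u} [Category.{v} C] [MonoidalCategory C]

open CategoryTheory.HasRightDual (rightDual)

lemma rightDualIso_coev {X Y₁ Y₂ : C} (p₁ : ExactPairing X Y₁) (p₂ : ExactPairing X Y₂) :
    @ExactPairing.coevaluation C _ _ X Y₁ p₁ ≫ X ◁ (rightDualIso p₁ p₂).hom =
      @ExactPairing.coevaluation C _ _ X Y₂ p₂ := by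
  have := @coevaluation_comp_rightAdjointMate C _ _ X X (@HasRightDual.mk C _ _ X Y₂ p₂)
    (@HasRightDual.mk C _ _ X Y₁ p₁) (𝟙 X)
  rw [id_whiskerRight, Category.comp_id] at this
  exact this

lemma rightDualIso_ev {X Y₁ Y₂ : C} (p₁ : ExactPairing X Y₁) (p₂ : ExactPairing X Y₂) :
    (rightDualIso p₁ p₂).hom ▷ X ≫ @ExactPairing.evaluation C _ _ X Y₂ p₂ =
      @ExactPairing.evaluation C _ _ X Y₁ p₁ := by
  have := @rightAdjointMate_comp_evaluation C _ _ X X (@HasRightDual.mk C _ _ X Y₂ p₂)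
    (@HasRightDual.mk C _ _ X Y₁ p₁) (𝟙 X)
  rw [MonoidalCategory.whiskerLeft_id, Category.id_comp] at this
  exact this

variable [RigidCategory C]

lemma eT_coev (X Y : C) :
    η_ (X ⊗ Y) (rightDual (X ⊗ Y)) ≫ (X ⊗ Y) ◁ (rightDualTensorIso X Y).hom =
      η_ X (rightDual X) ⊗≫ (X ◁ η_ Y (rightDual Y)) ▷ (rightDual X) ⊗≫ 𝟙 _ :=
  rightDualIso_coev _ _

lemma eT_ev (X Y : C) :
    (rightDualTensorIso X Y).hom ▷ (X ⊗ Y) ≫ (𝟙 _ ⊗≫ (rightDual Y) ◁ (ε_ X (rightDual X) ▷ Y) ⊗≫ ε_ Y (rightDual Y)) =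
      ε_ (X ⊗ Y) (rightDual (X ⊗ Y)) :=
  rightDualIso_ev _ _

lemma eT_ev' (X Y : C) :
    (𝟙 _ ⊗≫ (rightDual Y) ◁ (ε_ X (rightDual X) ▷ Y) ⊗≫ ε_ Y (rightDual Y)) =
      (rightDualTensorIso X Y).inv ▷ (X ⊗ Y) ≫ ε_ (X ⊗ Y) (rightDual (X ⊗ Y)) := by
  rw [← eT_ev, ← comp_whiskerRight_assoc, Iso.inv_hom_id, id_whiskerRight, Category.id_comp]

namespace Pivotal

variable (δ : Pivotal C)

lemma hom_inv_mate (X Y : C) : (rightAdjointMate (rightDualTensorIso X Y).hom) ≫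
    rightAdjointMate (rightDualTensorIso X Y).inv = 𝟙 _ := by
  rw [← comp_rightAdjointMate, Iso.inv_hom_id, rightAdjointMate_id]

lemma tensor_inv (X Y : C) :
    rightAdjointMate (rightDualTensorIso X Y).hom ≫ (δ.iso (X ⊗ Y)).inv =
    (rightDualTensorIso (rightDual Y) (rightDual X)).hom ≫ ((δ.iso X).inv ⊗ₘ (δ.iso Y).inv) := by
  have h := δ.tensor X Y
  have hc : (rightDualTensorIso (rightDual Y) (rightDual X)).hom =
      rightAdjointMate (rightDualTensorIso X Y).hom ≫ (δ.iso (X ⊗ Y)).inv ≫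
        ((δ.iso X).hom ⊗ₘ (δ.iso Y).hom) := by
    rw [← h, Iso.inv_hom_id_assoc, ← Category.assoc, hom_inv_mate, Category.id_comp]
  rw [hc]
  simp only [Category.assoc]
  rw [MonoidalCategory.tensorHom_comp_tensorHom, Iso.hom_inv_id, Iso.hom_inv_id, tensorHom_id, id_whiskerRight,
    Category.comp_id]

lemma coev_tensor (X Y : C) :
    δ.coev (X ⊗ Y) ≫ (rightDualTensorIso X Y).hom ▷ (X ⊗ Y) =
      δ.coev Y ⊗≫ (rightDual Y) ◁ (δ.coev X ▷ Y) ⊗≫ 𝟙 _ := by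
  calc
    _ = η_ (rightDual (X ⊗ Y)) (rightDual (rightDual (X ⊗ Y))) ≫ (rightDualTensorIso X Y).hom ▷ _ ≫
          ((rightDual Y) ⊗ (rightDual X)) ◁ (δ.iso (X ⊗ Y)).inv := by
      unfold coev
      rw [Category.assoc, whisker_exchange]
    _ = η_ ((rightDual Y) ⊗ (rightDual X)) (rightDual ((rightDual Y) ⊗ (rightDual X))) ≫ ((rightDual Y) ⊗ (rightDual X)) ◁
          (rightAdjointMate (rightDualTensorIso X Y).hom ≫ (δ.iso (X ⊗ Y)).inv) := by
      rw [← Category.assoc, ← coevaluation_comp_rightAdjointMate, Category.assoc,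
        ← MonoidalCategory.whiskerLeft_comp]
    _ = (η_ (rightDual Y) (rightDual (rightDual Y)) ⊗≫ ((rightDual Y) ◁ η_ (rightDual X) (rightDual (rightDual X))) ▷ (rightDual (rightDual Y)) ⊗≫ 𝟙 _) ≫
          ((rightDual Y) ⊗ (rightDual X)) ◁ ((δ.iso X).inv ⊗ₘ (δ.iso Y).inv) := by
      rw [tensor_inv, MonoidalCategory.whiskerLeft_comp, ← Category.assoc, eT_coev]
    _ = η_ (rightDual Y) (rightDual (rightDual Y)) ⊗≫ (rightDual Y) ◁ (η_ (rightDual X) (rightDual (rightDual X)) ▷ (rightDual (rightDual Y)) ≫ ((rightDual X) ⊗ (rightDual (rightDual X))) ◁ (δ.iso Y).inv) ⊗≫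
          (rightDual Y) ◁ ((rightDual X) ◁ (δ.iso X).inv) ▷ Y ⊗≫ 𝟙 _ := by
      rw [tensorHom_def']
      monoidal
    _ = _ := by
      rw [← whisker_exchange]
      unfold coev
      monoidal

end Pivotal

end Pool.Agent.H386
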