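import Pool.Agent.H386.Free

set_option autoImplicit false
set_option linter.unusedSectionVars false

open CategoryTheory CategoryTheory.Limits MonoidalCategory

namespace Pool.Agent.H386

universe v u

open CategoryTheory.HasRightDual (rightDual)

attribute [-instance] CategoryTheory.hasRightDualUnit CategoryTheory.hasLeftDualUnit

variable {C : Type u} [Category.{v} C] [Abelian C] [Linear ℂ C]
    [MonoidalCategory C] [MonoidalPreadditive C] [MonoidalLinear ℂ C] [RigidCategory C]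

namespace Ctx

variable (K : Ctx C)

include K in
/-- the family which is the identity on the unit isotypic part and zero elsewhere -/
lemma exists_unitFam (V : C) : ∃ Φ : ∀ U, V ⊗ U ⟶ U ⊗ V,
    (∀ {U U' : C} (f : U ⟶ U'), V ◁ f ≫ Φ U' = Φ U ≫ f ▷ V) ∧
    Φ (𝟙_ C) = (ρ_ V).hom ≫ (λ_ V).inv ∧
    ∀ U : C, Simple U → ¬ Nonempty (U ≅ 𝟙_ C) → Φ U = 0 := by
  classical
  obtain ⟨Φ, h1, h2⟩ := K.nat_exists (tensorLeft V) (tensorRight V)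
    (fun j => if h : Nonempty (K.S j ≅ 𝟙_ C) then
      (V ◁ h.some.hom ≫ (ρ_ V).hom ≫ (λ_ V).inv ≫ h.some.inv ▷ V : V ⊗ K.S j ⟶ K.S j ⊗ V)
      else 0)
  have hn : ∀ {U U' : C} (f : U ⟶ U'), V ◁ f ≫ Φ U' = Φ U ≫ f ▷ V := fun f => h1 f
  refine ⟨Φ, hn, ?_, ?_⟩
  · obtain ⟨j, ⟨e⟩⟩ := K.hS.complete (𝟙_ C) K.one
    have h : Nonempty (K.S j ≅ 𝟙_ C) := ⟨e.symm⟩
    have h3 := h2 j
    rw [dif_pos h] at h3
    have h4 := hn h.some.inv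
    rw [h3] at h4
    have h5 : V ◁ h.some.inv ≫ V ◁ h.some.hom ≫ (ρ_ V).hom ≫ (λ_ V).inv ≫ h.some.inv ▷ V =
      (ρ_ V).hom ≫ (λ_ V).inv ≫ h.some.inv ▷ V := by
      rw [← Category.assoc, ← MonoidalCategory.whiskerLeft_comp, Iso.inv_hom_id,
        MonoidalCategory.whiskerLeft_id, Category.id_comp]
    have h6 : Φ (𝟙_ C) ≫ h.some.inv ▷ V = ((ρ_ V).hom ≫ (λ_ V).inv) ≫ h.some.inv ▷ V := by
      rw [← h4, Category.assoc]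
      exact h5
    exact (cancel_mono (h.some.inv ▷ V)).mp h6
  · intro U hU hn1
    obtain ⟨j, ⟨e⟩⟩ := K.hS.complete U hU
    have h : ¬ Nonempty (K.S j ≅ 𝟙_ C) := fun ⟨e'⟩ => hn1 ⟨e ≪≫ e'⟩
    have h3 := h2 j
    rw [dif_neg h] at h3
    have h4 := hn e.hom
    rw [h3] at h4
    have h5 : Φ U ≫ e.hom ▷ V = 0 ≫ e.hom ▷ V := by
      rw [← h4]; simp
    exact (cancel_mono (e.hom ▷ V)).mp h5

namespace Free

variable {K} {V W : C} (F : K.Free V) (G : K.Free W)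

lemma exists_p : ∃ p : F.Z.X ⟶ V, F.ω (𝟙_ C) ≫ (𝟙_ C) ◁ p = (ρ_ V).hom ≫ (λ_ V).inv ∧
    ∀ U : C, Simple U → ¬ Nonempty (U ≅ 𝟙_ C) → F.ω U ≫ U ◁ p = 0 := by
  obtain ⟨Φ, h1, h2, h3⟩ := K.exists_unitFam V
  obtain ⟨p, hp⟩ := F.exists_up Φ h1
  refine ⟨p, ?_, ?_⟩
  · rw [hp, h2]
  · intro U hU hn
    rw [hp, h3 U hU hn]

/-- the projection -/
noncomputable def p : F.Z.X ⟶ V := F.exists_p.choose

lemma p_unit : F.ω (𝟙_ C) ≫ (𝟙_ C) ◁ F.p = (ρ_ V).hom ≫ (λ_ V).inv := F.exists_p.choose_spec.1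

lemma p_zero (U : C) (hU : Simple U) (h : ¬ Nonempty (U ≅ 𝟙_ C)) : F.ω U ≫ U ◁ F.p = 0 :=
  F.exists_p.choose_spec.2 U hU h

lemma u_p : F.u ≫ F.p = 𝟙 V := by
  rw [F.u_eq]
  calc
    _ = (ρ_ V).inv ≫ (F.ω (𝟙_ C) ≫ (𝟙_ C) ◁ F.p) ≫ (λ_ V).hom := by simp
    _ = _ := by rw [F.p_unit]; simp

lemma nat_fam {B : C} (g : F.Z.X ⟶ B) {U U' : C} (f : U ⟶ U') :
    V ◁ f ≫ F.ω U' ≫ U' ◁ g = (F.ω U ≫ U ◁ g) ≫ f ▷ B := by
  rw [← Category.assoc, F.ω_nat, Category.assoc, ← whisker_exchange, Category.assoc]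

lemma p_kill {X U : C} (g : X ⟶ U) (h : ∀ q : U ⟶ 𝟙_ C, g ≫ q = 0) :
    V ◁ g ≫ F.ω U ≫ U ◁ F.p = 0 := by
  have e : g = ∑ b, (g ≫ (K.dec U).prj b) ≫ (K.dec U).inc b := by
    simp only [Category.assoc]
    rw [← Preadditive.comp_sum, (K.dec U).sum, Category.comp_id]
  rw [e, whiskerLeft_sum, Preadditive.sum_comp]
  refine Finset.sum_eq_zero fun b _ => ?_
  have := K.simple ((K.dec U).idx b)
  rw [MonoidalCategory.whiskerLeft_comp, Category.assoc, F.nat_fam]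
  by_cases hb : Nonempty (K.S ((K.dec U).idx b) ≅ 𝟙_ C)
  · obtain ⟨e⟩ := hb
    have h1 : g ≫ (K.dec U).prj b = 0 := by
      have h2 := h ((K.dec U).prj b ≫ e.hom)
      rw [← Category.assoc] at h2
      have h3 : (g ≫ (K.dec U).prj b) ≫ e.hom = 0 ≫ e.hom := by rw [h2, zero_comp]
      exact (cancel_mono e.hom).mp h3
    rw [h1, MonoidalPreadditive.whiskerLeft_zero, zero_comp]
  · rw [F.p_zero _ this hb, zero_comp, comp_zero]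

/-- functoriality of the free object -/
noncomputable def map (f : V ⟶ W) : F.Z.X ⟶ G.Z.X := F.hat G.Z (f ≫ G.u)

lemma map_hom (f : V ⟶ W) : F.Z.IsHom G.Z (F.map G f) := F.hat_hom _ _

lemma u_map (f : V ⟶ W) : F.u ≫ F.map G f = f ≫ G.u := F.u_hat _ _

lemma map_p (f : V ⟶ W) : F.map G f ≫ G.p = F.p ≫ f := by
  have h : ∀ U, F.ω U ≫ U ◁ (F.map G f ≫ G.p) = f ▷ U ≫ G.ω U ≫ U ◁ G.p := by
    intro U
    rw [MonoidalCategory.whiskerLeft_comp, ← Category.assoc, F.ω_hom (F.map_hom G f), u_map,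
      comp_whiskerRight]
    simp [ω]
  apply F.ext_unit
  · rw [h, G.p_unit, MonoidalCategory.whiskerLeft_comp, ← Category.assoc (F.ω (𝟙_ C)), F.p_unit]
    simp
  · intro U hU hn
    rw [h, G.p_zero U hU hn, MonoidalCategory.whiskerLeft_comp, ← Category.assoc (F.ω U),
      F.p_zero U hU hn]
    simp

lemma ext_right {X B : C} {g g' : F.Z.X ⊗ X ⟶ B}
    (h : ∀ U, F.ω U ▷ X ≫ (α_ U F.Z.X X).hom ≫ U ◁ g =
      F.ω U ▷ X ≫ (α_ U F.Z.X X).hom ≫ U ◁ g') : g = g' := by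
  have key : ∀ g : F.Z.X ⊗ X ⟶ B, g = ∑ j, F.prj j ▷ X ≫ F.inc j ▷ X ≫ g := by
    intro g
    simp_rw [← Category.assoc, ← comp_whiskerRight]
    rw [← Preadditive.sum_comp, ← sum_whiskerRight, F.sum, id_whiskerRight, Category.id_comp]
  have inc_eq_right : ∀ (g : F.Z.X ⊗ X ⟶ B) (j : Fin K.n),
    F.inc j ▷ X ≫ g = 𝟙 _ ⊗≫ (rightDual (K.S j)) ◁ (F.ω (K.S j) ▷ X ≫ (α_ _ F.Z.X X).hom ≫ K.S j ◁ g) ⊗≫
      ε_ (K.S j) (rightDual (K.S j)) ▷ B ⊗≫ 𝟙 _ := by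
    intro g j
    symm
    calc
      _ = 𝟙 _ ⊗≫ (rightDual (K.S j)) ◁ (η_ (K.S j) (rightDual (K.S j)) ▷ (V ⊗ K.S j ⊗ X)) ⊗≫
            (((rightDual (K.S j)) ⊗ K.S j) ◁ (F.inc j ▷ X ≫ g) ≫ ε_ (K.S j) (rightDual (K.S j)) ▷ B) ⊗≫ 𝟙 _ := by
        rw [ω, F.hu]; monoidal
      _ = 𝟙 _ ⊗≫ ((rightDual (K.S j)) ◁ η_ (K.S j) (rightDual (K.S j)) ⊗≫ ε_ (K.S j) (rightDual (K.S j)) ▷ (rightDual (K.S j))) ▷
            (V ⊗ K.S j ⊗ X) ⊗≫ (F.inc j ▷ X ≫ g) ⊗≫ 𝟙 _ := by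
        rw [whisker_exchange]; monoidal
      _ = _ := by
        rw [ExactPairing.coevaluation_evaluation'']; monoidal
  rw [key g, key g']
  refine Finset.sum_congr rfl fun j _ => ?_
  rw [inc_eq_right, inc_eq_right, h]

lemma ext_right_unit {X B : C} {g g' : F.Z.X ⊗ X ⟶ B}
    (h1 : F.ω (𝟙_ C) ▷ X ≫ (α_ (𝟙_ C) F.Z.X X).hom ≫ (𝟙_ C) ◁ g =
      F.ω (𝟙_ C) ▷ X ≫ (α_ (𝟙_ C) F.Z.X X).hom ≫ (𝟙_ C) ◁ g')
    (h2 : ∀ U, Simple U → ¬ Nonempty (U ≅ 𝟙_ C) → F.ω U ▷ X ≫ (α_ U F.Z.X X).hom ≫ U ◁ g =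
      F.ω U ▷ X ≫ (α_ U F.Z.X X).hom ≫ U ◁ g') : g = g' := by
  have hnat : ∀ (g : F.Z.X ⊗ X ⟶ B) {U U' : C} (f : U ⟶ U'),
      (V ◁ f) ▷ X ≫ F.ω U' ▷ X ≫ (α_ U' F.Z.X X).hom ≫ U' ◁ g =
        (F.ω U ▷ X ≫ (α_ U F.Z.X X).hom ≫ U ◁ g) ≫ f ▷ B := by
    intro g U U' f
    calc
      _ = (V ◁ f ≫ F.ω U') ▷ X ⊗≫ U' ◁ g := by monoidal
      _ = F.ω U ▷ X ⊗≫ (f ▷ (F.Z.X ⊗ X) ≫ U' ◁ g) ⊗≫ 𝟙 _ := by
        rw [F.ω_nat]; monoidal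
      _ = _ := by rw [← whisker_exchange]; monoidal
  apply F.ext_right
  exact K.nat_ext_unit (tensorLeft V ⋙ tensorRight X) (tensorRight B) (hnat g) (hnat g') h1 h2

end Free

end Ctx

end Pool.Agent.H386
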