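import Pool.Agent.H386.Lin

set_option autoImplicit false
set_option linter.unusedSectionVars false

open CategoryTheory CategoryTheory.Limits MonoidalCategory

namespace Pool.Agent.H386

universe v u

open CategoryTheory.HasRightDual (rightDual)

attribute [-instance] CategoryTheory.hasRightDualUnit CategoryTheory.hasLeftDualUnit

section

variable {C : Type u} [Category.{v} C] [MonoidalCategory C] [RigidCategory C]

namespace Pivotal

variable (δ : Pivotal C)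

/-- rotation of a vector in `Hom(1, V ⊗ W)`. -/
def rot {V W : C} (γ : 𝟙_ C ⟶ V ⊗ W) : 𝟙_ C ⟶ W ⊗ V :=
  δ.lptr V ((ρ_ V).hom ≫ (λ_ V).inv ≫ γ ▷ V ≫ (α_ V W V).hom)

lemma full_rot {X : C} (f : 𝟙_ C ⟶ X) : δ.lptr X ((ρ_ X).hom ≫ (λ_ X).inv ≫ f ▷ X) = f := by
  have h := δ.lptr_cyc (A := 𝟙_ C) (B := X) f ((ρ_ _).hom ≫ (λ_ _).inv)
  rw [Category.assoc] at h
  rw [← h, lptr_unit]
  simp [unitors_inv_equal]

lemma rot_rot {V W : C} (γ : 𝟙_ C ⟶ V ⊗ W) : δ.rot (δ.rot γ) = γ := by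
  have h := δ.full_rot γ
  rw [lptr_tensor] at h
  have h2 : δ.lptr V ((α_ V W (𝟙_ C)).inv ≫ ((ρ_ (V ⊗ W)).hom ≫ (λ_ (V ⊗ W)).inv ≫
      γ ▷ (V ⊗ W)) ≫ (α_ V W (V ⊗ W)).hom) =
      (ρ_ W).hom ≫ (λ_ W).inv ≫ δ.rot γ ▷ W ≫ (α_ W V W).hom := by
    have e : (α_ V W (𝟙_ C)).inv ≫ ((ρ_ (V ⊗ W)).hom ≫ (λ_ (V ⊗ W)).inv ≫
      γ ▷ (V ⊗ W)) ≫ (α_ V W (V ⊗ W)).hom = V ◁ ((ρ_ W).hom ≫ (λ_ W).inv) ≫
        ((α_ V (𝟙_ C) W).inv ≫ ((ρ_ V).hom ≫ (λ_ V).inv ≫ γ ▷ V ≫ (α_ V W V).hom) ▷ W ≫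
          (α_ V (W ⊗ V) W).hom) ≫ V ◁ (α_ W V W).hom := by
      monoidal
    rw [e, lptr_left, lptr_right, ← lptr_whisker]
    unfold rot
    simp only [Category.assoc]
  rw [h2] at h
  exact h

open Classical in
/-- The second Frobenius-Schur indicator of a (simple) object. -/
noncomputable def nu [Limits.HasZeroMorphisms C] (V : C) : ℤ :=
  if (∀ γ : 𝟙_ C ⟶ V ⊗ V, γ = 0) then 0 else
    if (∀ γ : 𝟙_ C ⟶ V ⊗ V, δ.rot γ = γ) then 1 else -1

lemma nu_cases [Limits.HasZeroMorphisms C] (V : C) : δ.nu V = 0 ∨ δ.nu V = 1 ∨ δ.nu V = -1 := by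
  unfold nu
  split_ifs <;> simp

end Pivotal

end

variable {C : Type u} [Category.{v} C] [Abelian C] [Linear ℂ C]
    [MonoidalCategory C] [MonoidalPreadditive C] [MonoidalLinear ℂ C] [RigidCategory C]

namespace Ctx

variable (K : Ctx C)

lemma rot_smul {V W : C} (a : ℂ) (γ : 𝟙_ C ⟶ V ⊗ W) : K.δ.rot (a • γ) = a • K.δ.rot γ := by
  unfold Pivotal.rot
  rw [← Pivotal.lptr_smul]
  congr 1
  simp only [MonoidalLinear.smul_whiskerRight, Linear.smul_comp, Linear.comp_smul]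

namespace Free

variable {K} {V W : C} (F : K.Free V)

lemma u_θ : F.u ≫ K.δ.θ F.Z = K.δ.lptr V (F.ω V) := by
  rw [Pivotal.comp_θ]; rfl

lemma u_θ_θ_p : F.u ≫ K.δ.θ F.Z ≫ K.δ.θ F.Z ≫ F.p =
    K.δ.lptr V (K.δ.lptr V ((F.ω (V ⊗ V) ≫ (V ⊗ V) ◁ F.p) ≫ (α_ V V V).hom)) := by
  rw [← Category.assoc, ← Category.assoc, u_θ, Pivotal.comp_θ, ← Pivotal.lptr_right,
    Pivotal.lptr_whisker, ← Pivotal.lptr_right, ← Pivotal.lptr_right]
  congr 2
  rw [F.ω_tens]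
  monoidal

lemma u_θ_p : F.u ≫ K.δ.θ F.Z ≫ F.p = K.δ.lptr V (F.ω V ≫ V ◁ F.p) := by
  rw [← Category.assoc, u_θ, ← Pivotal.lptr_right]

end Free

include K

lemma vec_dual (V : C) [Simple V] (ξ : 𝟙_ C ⟶ V ⊗ (rightDual V)) : ∃ a : ℂ, ξ = a • η_ V (rightDual V) := by
  refine ⟨(K.dim V)⁻¹ * K.tr (ξ ≫ K.δ.ev V), ?_⟩
  apply K.nondeg_eq
  intro g
  obtain ⟨b, hb⟩ := K.scalar V (𝟙 _ ⊗≫ V ◁ K.δ.coev V ⊗≫ g ▷ V ⊗≫ 𝟙 _)
  have h1 := K.eq_ev g
  rw [hb, MonoidalLinear.smul_whiskerRight, id_whiskerRight, Linear.smul_comp,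
    Category.id_comp] at h1
  have hd := K.dim_ne_zero V
  rw [h1, Linear.comp_smul, K.tr_smul, Linear.smul_comp, Linear.comp_smul, K.eta_ev, K.tr_smul,
    K.tr_smul, K.tr_smul, K.tr_id, K.dim_unit]
  field_simp

lemma end_dual (V : C) [Simple V] (φ : (rightDual V) ⟶ (rightDual V)) : ∃ a : ℂ, φ = a • 𝟙 _ := by
  obtain ⟨a, ha⟩ := K.vec_dual V (η_ V (rightDual V) ≫ V ◁ φ)
  refine ⟨a, ?_⟩
  have h1 : η_ V (rightDual V) ≫ V ◁ φ = η_ V (rightDual V) ≫ V ◁ (a • 𝟙 _) := by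
    rw [ha, MonoidalLinear.whiskerLeft_smul, MonoidalCategory.whiskerLeft_id, Linear.comp_smul,
      Category.comp_id]
  have h2 := congrArg (tensorLeftHomEquiv _ V (rightDual V) _).symm h1
  rw [tensorLeftHomEquiv_symm_coevaluation_comp_whiskerLeft,
    tensorLeftHomEquiv_symm_coevaluation_comp_whiskerLeft] at h2
  exact (cancel_epi _).mp h2

lemma split_epi {X Y : C} [Simple X] (f : Y ⟶ X) (hf : f ≠ 0) : ∃ s : X ⟶ Y, s ≫ f = 𝟙 X := by
  have h : ∃ g : X ⟶ Y, K.tr (f ≫ g) ≠ 0 := by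
    by_contra h
    push Not at h
    exact hf (K.nondeg f h)
  obtain ⟨g, hg⟩ := h
  obtain ⟨a, ha⟩ := K.scalar X (g ≫ f)
  rw [K.tr_comm, ha, K.tr_smul] at hg
  have ha0 : a ≠ 0 := left_ne_zero_of_mul hg
  exact ⟨a⁻¹ • g, by rw [Linear.smul_comp, ha, smul_smul, inv_mul_cancel₀ ha0, one_smul]⟩

lemma hom_dual_self (V : C) [Simple V] (a b : (rightDual V) ⟶ V) (ha : a ≠ 0) : ∃ c : ℂ, b = c • a := by
  obtain ⟨s, hs⟩ := K.split_epi a ha
  obtain ⟨c, hc⟩ := K.end_dual V (a ≫ s)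
  have h1 : c • a = a := by
    calc
      _ = (a ≫ s) ≫ a := by rw [hc, Linear.smul_comp, Category.id_comp]
      _ = a := by rw [Category.assoc, hs, Category.comp_id]
  have h2 : c = 1 := by
    have h3 : (c - 1) • a = 0 := by rw [sub_smul, one_smul, h1, sub_self]
    rcases smul_eq_zero.mp h3 with h | h
    · exact sub_eq_zero.mp h
    · exact absurd h ha
  rw [h2, one_smul] at hc
  obtain ⟨d, hd⟩ := K.scalar V (s ≫ b)
  refine ⟨d, ?_⟩
  calc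
    b = (a ≫ s) ≫ b := by rw [hc, Category.id_comp]
    _ = _ := by rw [Category.assoc, hd, Linear.comp_smul, Category.comp_id]

/-- vectors in `Hom(1, V ⊗ V)` are unique up to scalar -/
lemma vec_unique (V : C) [Simple V] (γ γ₂ : 𝟙_ C ⟶ V ⊗ V) (hγ : γ ≠ 0) :
    ∃ a : ℂ, γ₂ = a • γ := by
  let e : ((rightDual V) ⊗ 𝟙_ C ⟶ V) ≃ₗ[ℂ] (𝟙_ C ⟶ V ⊗ V) :=
    { tensorLeftHomEquiv (𝟙_ C) V (rightDual V) V with
      map_add' := by
        intro f g
        simp [tensorLeftHomEquiv]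
      map_smul' := by
        intro a f
        simp [tensorLeftHomEquiv] }
  have h0 : (ρ_ (rightDual V)).inv ≫ e.symm γ ≠ 0 := by
    intro h
    apply hγ
    have h1 : e.symm γ = 0 := by
      have : (ρ_ (rightDual V)).inv ≫ e.symm γ = (ρ_ (rightDual V)).inv ≫ 0 := by rw [h, comp_zero]
      exact (cancel_epi (ρ_ (rightDual V)).inv).mp this
    have h2 : e (e.symm γ) = e 0 := by rw [h1]
    simpa using h2
  obtain ⟨c, hc⟩ := K.hom_dual_self V _ ((ρ_ (rightDual V)).inv ≫ e.symm γ₂) h0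
  refine ⟨c, ?_⟩
  rw [← Linear.comp_smul, cancel_epi, ← map_smul] at hc
  exact e.symm.injective hc

lemma rot_sq (V : C) [Simple V] (γ : 𝟙_ C ⟶ V ⊗ V) (hγ : γ ≠ 0) :
    K.δ.rot γ = (K.δ.nu V : ℂ) • γ := by
  obtain ⟨a, ha⟩ := K.vec_unique V γ (K.δ.rot γ) hγ
  have h1 := K.δ.rot_rot γ
  rw [ha, K.rot_smul, ha, smul_smul] at h1
  have h2 : a * a = 1 := by
    have h3 : (a * a - 1) • γ = 0 := by rw [sub_smul, one_smul, h1, sub_self]
    rcases smul_eq_zero.mp h3 with h | h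
    · exact sub_eq_zero.mp h
    · exact absurd h hγ
  rw [ha]
  unfold Pivotal.nu
  rw [if_neg (fun h => hγ (h γ))]
  rcases mul_self_eq_one_iff.mp h2 with h | h
  · rw [if_pos]
    · rw [h]; simp
    · intro γ₂
      obtain ⟨b, hb⟩ := K.vec_unique V γ γ₂ hγ
      rw [hb, K.rot_smul, ha, h, one_smul]
  · rw [if_neg]
    · rw [h]; simp
    · intro h4
      have h5 := h4 γ
      rw [ha, h, neg_one_smul] at h5
      apply hγ
      have h6 : (2 : ℂ) • γ = 0 := by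
        rw [two_smul]
        nth_rewrite 1 [← h5]
        exact neg_add_cancel γ
      rcases smul_eq_zero.mp h6 with h | h
      · norm_num at h
      · exact h

namespace Free

variable {K} {V W : C} (F : K.Free V)

/-- The second moment at a simple object is the Frobenius-Schur indicator. -/
theorem tr_θ_θ [Simple V] : K.tr (F.u ≫ K.δ.θ F.Z ≫ K.δ.θ F.Z ≫ F.p) = (K.δ.nu V : ℂ) := by
  have hone := K.one
  rw [F.u_θ_θ_p]
  by_cases h0 : ∀ γ : 𝟙_ C ⟶ V ⊗ V, γ = 0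
  · have h1 : V ◁ (𝟙 (V ⊗ V)) ≫ F.ω (V ⊗ V) ≫ (V ⊗ V) ◁ F.p = 0 := by
      apply F.p_kill
      intro q
      rw [Category.id_comp]
      apply K.nondeg
      intro g
      rw [h0 g, comp_zero, K.tr_zero]
    rw [MonoidalCategory.whiskerLeft_id, Category.id_comp] at h1
    rw [h1, zero_comp, Pivotal.lptr_zero, Pivotal.lptr_zero, K.tr_zero]
    unfold Pivotal.nu
    rw [if_pos h0]
    simp
  · push Not at h0
    obtain ⟨γ, hγ⟩ := h0
    obtain ⟨γ', hγ'⟩ := K.split γ hγ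
    have h1 : V ◁ (𝟙 (V ⊗ V) - γ' ≫ γ) ≫ F.ω (V ⊗ V) ≫ (V ⊗ V) ◁ F.p = 0 := by
      apply F.p_kill
      intro q
      rw [Preadditive.sub_comp, Category.id_comp, sub_eq_zero]
      apply K.nondeg_eq
      intro g
      obtain ⟨b, hb⟩ := K.vec_unique V γ g hγ
      rw [hb, Linear.comp_smul, Linear.comp_smul, K.tr_smul, K.tr_smul, Category.assoc,
        Category.assoc, K.tr_comm γ', Category.assoc, Category.assoc, hγ', Category.comp_id,
        K.tr_comm q]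
    have h2 : F.ω (V ⊗ V) ≫ (V ⊗ V) ◁ F.p =
        V ◁ γ' ≫ ((ρ_ V).hom ≫ (λ_ V).inv) ≫ γ ▷ V := by
      rw [← F.p_unit, ← F.nat_fam, ← Category.assoc (V ◁ γ'), ← MonoidalCategory.whiskerLeft_comp]
      rw [sub_eq_add_neg, MonoidalPreadditive.whiskerLeft_add, Preadditive.add_comp,
          ← neg_one_smul ℂ (γ' ≫ γ), MonoidalLinear.whiskerLeft_smul,
          Linear.smul_comp, neg_one_smul, ← sub_eq_add_neg, sub_eq_zero,
          MonoidalCategory.whiskerLeft_id, Category.id_comp] at h1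
      exact h1
    have h3 : K.δ.lptr V (K.δ.lptr V ((F.ω (V ⊗ V) ≫ (V ⊗ V) ◁ F.p) ≫ (α_ V V V).hom)) =
        K.δ.lptr V (γ' ≫ K.δ.rot γ) := by
      congr 1
      unfold Pivotal.rot
      rw [h2, ← Pivotal.lptr_left]
      congr 1
      simp only [Category.assoc]
    rw [h3, ← K.tr_tensor, K.rot_sq V γ hγ, Linear.comp_smul, K.tr_smul, K.tr_comm, hγ', K.tr_id,
      K.dim_unit, mul_one]

end Free

end Ctx

end Pool.Agent.H386
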