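import Pool.Agent.H386.Uni

set_option autoImplicit false
set_option linter.unusedSectionVars false

open CategoryTheory CategoryTheory.Limits MonoidalCategory

namespace Pool.Agent.H386

universe v u

open CategoryTheory.HasRightDual (rightDual)

attribute [-instance] CategoryTheory.hasRightDualUnit CategoryTheory.hasLeftDualUnit

namespace Alg

lemma trace_bimul_equiv {A : Type*} [Ring A] [Algebra ℂ A] [FiniteDimensional ℂ A] {m : ℕ}
    {d : Fin m → ℕ} (φ : A ≃ₐ[ℂ] Π i, Matrix (Fin (d i)) (Fin (d i)) ℂ) (y k : A) :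
    LinearMap.trace ℂ A (bimul y k) = ∑ z, (φ y z).trace * (φ k z).trace := by
  rw [← trace_pi_matrix d (φ y) (φ k), ← LinearMap.trace_conj' (bimul y k) φ.toLinearEquiv]
  congr 1
  refine LinearMap.ext fun x => ?_
  rw [LinearEquiv.conj_apply]
  simp only [LinearMap.comp_apply, LinearEquiv.coe_coe, bimul_apply]
  change φ (y * (φ.symm x * k)) = φ y * (x * φ k)
  rw [map_mul, map_mul, AlgEquiv.apply_symm_apply]

lemma trace_bimul_rank_one {A : Type*} [Ring A] [Algebra ℂ A] [FiniteDimensional ℂ A]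
    (e : A) (he : e * e = e) (hne : e ≠ 0) (h : ∀ x, ∃ c : ℂ, e * (x * e) = c • e) :
    LinearMap.trace ℂ A (bimul e e) = 1 := by
  have h1 : ∃ ψ : Module.Dual ℂ A, ψ e ≠ 0 := by
    by_contra hc
    push Not at hc
    exact hne ((Module.forall_dual_apply_eq_zero_iff ℂ e).mp hc)
  obtain ⟨ψ, hψ⟩ := h1
  have h2 : bimul e e = ((ψ e)⁻¹ • (ψ ∘ₗ bimul e e)).smulRight e := by
    refine LinearMap.ext fun x => ?_
    obtain ⟨c, hc⟩ := h x
    rw [LinearMap.smulRight_apply, LinearMap.smul_apply, LinearMap.comp_apply, bimul_apply, hc,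
      map_smul, smul_eq_mul, smul_eq_mul]
    congr 1
    field_simp
  rw [h2, LinearMap.trace_smulRight, LinearMap.smul_apply, LinearMap.comp_apply, bimul_apply,
    he, he, smul_eq_mul, inv_mul_cancel₀ hψ]

end Alg

variable {C : Type u} [Category.{v} C] [Abelian C] [Linear ℂ C]
    [MonoidalCategory C] [MonoidalPreadditive C] [MonoidalLinear ℂ C] [RigidCategory C]

namespace Ctx

variable (K : Ctx C)

lemma aeval_nat (q : Polynomial ℂ) {Z Y : Cen C} (g : Z.X ⟶ Y.X) (hg : Z.IsHom Y g) :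
    g ≫ (Polynomial.aeval (K.θE Y) q : End Y.X) = (Polynomial.aeval (K.θE Z) q : End Z.X) ≫ g := by
  have hpow : ∀ n : ℕ, g ≫ ((K.θE Y) ^ n : End Y.X) = ((K.θE Z) ^ n : End Z.X) ≫ g := by
    intro n
    induction n with
    | zero =>
      rw [pow_zero, pow_zero]
      exact (Category.comp_id g).trans (Category.id_comp g).symm
    | succ n ih =>
      rw [pow_succ, pow_succ]
      change g ≫ (K.δ.θ Y ≫ (K.θE Y ^ n : End Y.X)) = (K.δ.θ Z ≫ (K.θE Z ^ n : End Z.X)) ≫ g
      rw [← Category.assoc, Pivotal.θ_nat K.δ hg, Category.assoc, ih, Category.assoc]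
  induction q using Polynomial.induction_on' with
  | add p q hp hq =>
    rw [map_add, map_add]
    exact (Preadditive.comp_add _ _ _ g _ _).trans
      ((congrArg₂ (· + ·) hp hq).trans (Preadditive.add_comp _ _ _ _ _ g).symm)
  | monomial n a =>
    rw [Polynomial.aeval_monomial, Polynomial.aeval_monomial, Algebra.algebraMap_eq_smul_one,
      Algebra.algebraMap_eq_smul_one, smul_mul_assoc, smul_mul_assoc, one_mul, one_mul]
    exact (Linear.comp_smul _ _ _ g a _).trans
      ((congrArg (a • ·) (hpow n)).trans (Linear.smul_comp _ _ _ a _ g).symm)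

/-- if a polynomial kills the twist on the free object on a generator, it kills all twists -/
lemma aeval_all (q : Polynomial ℂ) (G : K.Gen) (F : K.Free G.P)
    (h : (Polynomial.aeval (K.θE F.Z) q : End F.Z.X) = 0) (W : Cen C) :
    Polynomial.aeval (K.θE W) q = 0 := by
  have h1 : ∀ f : G.P ⟶ W.X, f ≫ (Polynomial.aeval (K.θE W) q : End W.X) = 0 := by
    intro f
    have h2 : f ≫ (Polynomial.aeval (K.θE W) q : End W.X) =
        F.u ≫ (Polynomial.aeval (K.θE F.Z) q : End F.Z.X) ≫ F.hat W f := by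
      rw [← K.aeval_nat q (F.hat W f) (F.hat_hom W f), ← Category.assoc, F.u_hat]
    rw [h2, h]
    have h3 : ((0 : End F.Z.X) ≫ F.hat W f : F.Z.X ⟶ W.X) = 0 := zero_comp
    rw [h3, comp_zero]
  apply K.hom_ext
  intro j i
  have h2 := h1 (G.π j ≫ i)
  calc
    i ≫ (Polynomial.aeval (K.θE W) q : End W.X) =
        G.ι j ≫ (G.π j ≫ i) ≫ (Polynomial.aeval (K.θE W) q : End W.X) := by
      rw [← Category.assoc, ← Category.assoc, G.same, Category.id_comp]
    _ = i ≫ (0 : W.X ⟶ W.X) := by
      rw [h2, comp_zero, comp_zero]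

end Ctx

end Pool.Agent.H386
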