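import Pool.Agent.H386.Spec

set_option autoImplicit false
set_option linter.unusedSectionVars false

open CategoryTheory CategoryTheory.Limits MonoidalCategory

namespace Pool.Agent.H386

universe v u

open CategoryTheory.HasRightDual (rightDual)

attribute [-instance] CategoryTheory.hasRightDualUnit CategoryTheory.hasLeftDualUnit

variable {C : Type u} [Category.{v} C] [Abelian C] [Linear ℂ C]
    [MonoidalCategory C] [MonoidalPreadditive C] [MonoidalLinear ℂ C] [RigidCategory C]

namespace Ctx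

variable (K : Ctx C)

/-- splitting a central idempotent on which the twist is a scalar -/
lemma exists_scalar_object (Z : Cen C) (E : Z.cEnd) (hE : E * E = E) (hne : E ≠ 0) (μ : ℂ)
    (hμ : Cen.und E ≫ K.δ.θ Z = μ • Cen.und E) :
    ∃ Y : Cen C, 𝟙 Y.X ≠ 0 ∧ K.δ.θ Y = μ • 𝟙 Y.X := by
  have hidem : Cen.und E ≫ Cen.und E = Cen.und E := by
    rw [← Cen.und_mul, hE]
  obtain ⟨Y, i, e, hie, hei⟩ := IsIdempotentComplete.idempotents_split Z.X (Cen.und E) hidem
  have hpi : Z.IsHom Z (e ≫ i) := by rw [hei]; exact Cen.und_hom E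
  let Z' : Cen C := Z.retract Y i e hie hpi
  have hi : Z'.IsHom Z i := by
    intro U
    change i ▷ U ≫ Z.b U = (i ▷ U ≫ Z.b U ≫ U ◁ e) ≫ U ◁ i
    simp only [Category.assoc]
    rw [← MonoidalCategory.whiskerLeft_comp, ← hpi U, ← Category.assoc (i ▷ U),
      ← comp_whiskerRight, ← Category.assoc i, hie, Category.id_comp]
  refine ⟨Z', ?_, ?_⟩
  · intro h0
    apply hne
    apply Cen.und_inj
    rw [← hei]
    have h1 : 𝟙 Y = 0 := h0
    calc
      e ≫ i = e ≫ 𝟙 Y ≫ i := by rw [Category.id_comp]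
      _ = 0 := by rw [h1]; simp
      _ = _ := Cen.und_zero.symm
  · obtain ⟨t, ht⟩ : ∃ t : Y ⟶ Y, t = K.δ.θ Z' := ⟨_, rfl⟩
    have h1 : i ≫ K.δ.θ Z = t ≫ i := by rw [ht]; exact Pivotal.θ_nat K.δ hi
    have hiE : i ≫ Cen.und E = i := by rw [← hei, ← Category.assoc, hie, Category.id_comp]
    have h2 : t = μ • 𝟙 Y := by
      calc
        t = (t ≫ i) ≫ e := by
          rw [Category.assoc, hie, Category.comp_id]
        _ = ((i ≫ Cen.und E) ≫ K.δ.θ Z) ≫ e := by rw [← h1, hiE]
        _ = _ := by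
          rw [Category.assoc i, hμ, Linear.comp_smul, Linear.smul_comp, hiE, hie]
    exact ht.symm.trans h2

/-- The spectrum of the Drinfeld center. -/
theorem exists_spec (χ : K.Chr) : ∃ (m : ℕ) (κ : Fin m → ℝ) (θ : Fin m → ℂ) (x : Fin m → ℕ),
    (∀ z, ‖θ z‖ = 1) ∧ (∀ z, x z ≠ 0 → θ z = 1) ∧ (∑ z, (x z : ℝ) ^ 2 = 1) ∧
    (∑ z, (κ z : ℂ) ^ 2 = K.D * K.D) ∧ (∑ z, (κ z : ℂ) ^ 2 * θ z = K.D) ∧
    (∑ z, (κ z : ℂ) ^ 2 * θ z ^ 2 = K.D * ∑ a, K.dim (K.S a) * (K.δ.nu (K.S a) : ℂ)) ∧
    (∑ z, (κ z : ℂ) * (x z : ℂ) = K.D * (χ.f)⁻¹) ∧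
    (∃ r : Fin K.n → ℕ, K.D * (χ.f)⁻¹ = ∑ a, (r a : ℂ) * K.dim (K.S a)) := by
  classical
  obtain ⟨G⟩ := K.exists_gen
  let F := K.J G.P
  let F1 := K.J (𝟙_ C)
  have hfd : FiniteDimensional ℂ F.Z.cEnd := K.fd_cEnd F.Z
  have hss : IsSemisimpleRing F.Z.cEnd := F.semisimple_cEnd G
  obtain ⟨m, d, hd, ⟨φ⟩⟩ := IsSemisimpleRing.exists_algEquiv_pi_matrix_of_isAlgClosed ℂ F.Z.cEnd
  have htr : ∀ y : F.Z.cEnd, K.tr (Cen.und y) = ∑ z, (φ y z).trace * (φ (F.kel G) z).trace := by
    intro y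
    rw [← F.trace_cEnd G y, Alg.trace_bimul_equiv φ]
  -- multiplicities
  have hr : ∀ a z, ∃ r : ℕ, (φ (F.qel G a) z).trace = r := by
    intro a z
    apply Alg.trace_idempotent
    have h := F.qel_idem G a
    have h2 := congrArg (fun y => φ y z) h.eq
    simp only [map_mul, Pi.mul_apply] at h2
    exact h2
  choose r hr using hr
  let κ : Fin m → ℝ := fun z => ∑ a, K.dimChr.r (K.S a) * (r a z : ℝ)
  have hκ : ∀ z, (φ (F.kel G) z).trace = (κ z : ℂ) := by
    intro z
    have h1 : (κ z : ℂ) = ∑ a, K.dim (K.S a) * (r a z : ℂ) := by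
      simp only [κ]
      push_cast
      refine Finset.sum_congr rfl fun a _ => ?_
      rw [K.dimChr.r_coe]
      rfl
    rw [h1, F.kel_eq G, map_sum, Finset.sum_apply, Matrix.trace_sum]
    refine Finset.sum_congr rfl fun a _ => ?_
    rw [map_smul, Pi.smul_apply, Matrix.trace_smul, hr, smul_eq_mul]
  -- the twist
  have hcent : ∀ z, ∃ μ : ℂ, φ (F.tel G) z = μ • 1 := by
    intro z
    apply Alg.central_scalar d (φ (F.tel G))
    intro x
    obtain ⟨y, rfl⟩ := φ.surjective x
    rw [← map_mul, ← map_mul, F.tel_central G]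
  choose θ hθ using hcent
  -- the idempotent of the character
  obtain ⟨j0, ⟨e0⟩⟩ := K.hS.complete (𝟙_ C) K.one
  let a : F1.Z.X ⟶ F.Z.X := F1.map F (e0.hom ≫ G.ι j0)
  let b : F.Z.X ⟶ F1.Z.X := F.map F1 (G.π j0 ≫ e0.inv)
  have ha : F1.Z.IsHom F.Z a := F1.map_hom F _
  have hb : F.Z.IsHom F1.Z b := F.map_hom F1 _
  have hab : a ≫ b = 𝟙 _ := by
    change F1.map F _ ≫ F.map F1 _ = _
    rw [Free.map_comp, ← Free.map_id]
    congr 1
    rw [Category.assoc, ← Category.assoc (G.ι j0), G.same, Category.id_comp, e0.hom_inv_id]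
  let el : F.Z.cEnd := Cen.mkEnd (b ≫ F1.e χ ≫ a) (hb.comp ((F1.e_hom χ).comp ha))
  have hel : Cen.und el = b ≫ F1.e χ ≫ a := rfl
  have helel : el * el = el := by
    apply Cen.und_inj
    rw [Cen.und_mul, hel]
    calc
      _ = b ≫ F1.e χ ≫ (a ≫ b) ≫ F1.e χ ≫ a := by simp only [Category.assoc]
      _ = b ≫ (F1.e χ ≫ F1.e χ) ≫ a := by rw [hab, Category.id_comp, Category.assoc]
      _ = _ := by rw [F1.e_e]
  have htrel : K.tr (Cen.und el) = K.D * (χ.f)⁻¹ := by
    rw [hel, K.tr_comm, Category.assoc, hab, Category.comp_id, F1.tr_e]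
  have hne : el ≠ 0 := by
    intro h
    rw [h, Cen.und_zero, K.tr_zero] at htrel
    exact mul_ne_zero K.D_ne_zero (inv_ne_zero χ.f_ne_zero) htrel.symm
  have hcorner : ∀ x, ∃ c : ℂ, el * (x * el) = c • el := by
    intro x
    obtain ⟨c, hc⟩ := F1.e_comp χ (a ≫ Cen.und x ≫ b) (ha.comp ((Cen.und_hom x).comp hb))
    refine ⟨c, ?_⟩
    apply Cen.und_inj
    rw [Cen.und_mul, Cen.und_mul, Cen.und_smul, hel]
    calc
      _ = b ≫ (F1.e χ ≫ (a ≫ Cen.und x ≫ b)) ≫ F1.e χ ≫ a := by simp only [Category.assoc]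
      _ = c • (b ≫ (F1.e χ ≫ F1.e χ) ≫ a) := by
        rw [hc, Linear.smul_comp, Linear.comp_smul, Category.assoc]
      _ = _ := by rw [F1.e_e]
  have htel : F.tel G * el = el := by
    apply Cen.und_inj
    rw [Cen.und_mul, hel]
    change (b ≫ F1.e χ ≫ a) ≫ K.δ.θ F.Z = _
    rw [Category.assoc, Category.assoc, Pivotal.θ_nat K.δ ha, F1.θ_free_unit, Category.id_comp]
  have hx : ∀ z, ∃ x : ℕ, (φ el z).trace = x := by
    intro z
    apply Alg.trace_idempotent
    have h2 := congrArg (fun y => φ y z) helel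
    simp only [map_mul, Pi.mul_apply] at h2
    exact h2
  choose x hx using hx
  have hmulθ : ∀ (y : F.Z.cEnd) z, φ (F.tel G * y) z = θ z • φ y z := by
    intro y z
    rw [map_mul, Pi.mul_apply, hθ, Matrix.smul_mul, Matrix.one_mul]
  -- unimodularity
  have hnorm : ∀ z, ‖θ z‖ = 1 := by
    intro z
    refine K.unimodular (Finset.univ.image θ) ?_ ?_ (θ z)
      (Finset.mem_image_of_mem θ (Finset.mem_univ z))
    · intro W
      apply K.aeval_all _ G F
      have h1 : Polynomial.aeval (F.tel G) (∏ μ ∈ Finset.univ.image θ,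
          (Polynomial.X - Polynomial.C μ)) = 0 := by
        apply φ.injective
        rw [map_zero]
        funext z'
        have h2 : φ (Polynomial.aeval (F.tel G) (∏ μ ∈ Finset.univ.image θ,
            (Polynomial.X - Polynomial.C μ))) z' =
            Polynomial.aeval (φ (F.tel G) z') (∏ μ ∈ Finset.univ.image θ,
              (Polynomial.X - Polynomial.C μ)) := by
          have h3 := Polynomial.aeval_algHom_apply
            ((Pi.evalAlgHom ℂ (fun i => Matrix (Fin (d i)) (Fin (d i)) ℂ) z').comp φ.toAlgHom)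
            (F.tel G) (∏ μ ∈ Finset.univ.image θ, (Polynomial.X - Polynomial.C μ))
          exact h3.symm
        rw [h2, hθ, Pi.zero_apply]
        have h4 : (θ z' • (1 : Matrix (Fin (d z')) (Fin (d z')) ℂ)) =
            algebraMap ℂ _ (θ z') := by rw [Algebra.algebraMap_eq_smul_one]
        rw [h4, Polynomial.aeval_algebraMap_apply]
        have h5 : Polynomial.aeval (θ z') (∏ μ ∈ Finset.univ.image θ,
            (Polynomial.X - Polynomial.C μ)) = 0 := by
          rw [map_prod]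
          apply Finset.prod_eq_zero (Finset.mem_image_of_mem θ (Finset.mem_univ z'))
          simp
        rw [h5, map_zero]
      have h6 := Polynomial.aeval_algHom_apply F.Z.cEnd.val (F.tel G)
        (∏ μ ∈ Finset.univ.image θ, (Polynomial.X - Polynomial.C μ))
      rw [h1, map_zero] at h6
      exact h6
    · intro μ hμ
      rw [Finset.mem_image] at hμ
      obtain ⟨z', -, rfl⟩ := hμ
      have := hd z'
      let E : F.Z.cEnd := φ.symm (Pi.single z' 1)
      refine K.exists_scalar_object F.Z E ?_ ?_ (θ z') ?_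
      · apply φ.injective
        rw [map_mul, AlgEquiv.apply_symm_apply, ← Pi.single_mul, one_mul]
      · intro h
        have h1 := congrArg (fun y => φ y z') h
        simp only [map_zero, Pi.zero_apply] at h1
        have h2 : φ E z' = 1 := by
          rw [AlgEquiv.apply_symm_apply, Pi.single_eq_same]
        rw [h2] at h1
        exact one_ne_zero h1
      · have h1 : F.tel G * E = θ z' • E := by
          apply φ.injective
          funext z''
          rw [hmulθ, map_smul, Pi.smul_apply]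
          by_cases hz : z'' = z'
          · rw [hz]
          · rw [AlgEquiv.apply_symm_apply, Pi.single_eq_of_ne hz, smul_zero, smul_zero]
        have h2 := congrArg Cen.und h1
        rw [Cen.und_mul, Cen.und_smul] at h2
        exact h2
  refine ⟨m, κ, θ, x, hnorm, ?_, ?_, ?_, ?_, ?_, ?_, ?_⟩
  · intro z hz
    have h1 := hmulθ el z
    rw [htel] at h1
    have h2 := congrArg Matrix.trace h1
    rw [Matrix.trace_smul, hx, smul_eq_mul] at h2
    have h3 : (x z : ℂ) ≠ 0 := by exact_mod_cast hz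
    have h4 : (1 - θ z) * (x z : ℂ) = 0 := by linear_combination h2
    rcases mul_eq_zero.mp h4 with h | h
    · exact (sub_eq_zero.mp h).symm
    · exact absurd h h3
  · have h1 := Alg.trace_bimul_rank_one el helel hne hcorner
    rw [Alg.trace_bimul_equiv φ] at h1
    simp_rw [hx] at h1
    have h2 : ((∑ z, (x z : ℝ) ^ 2 : ℝ) : ℂ) = 1 := by
      push_cast
      rw [← h1]
      exact Finset.sum_congr rfl fun z _ => by ring
    exact_mod_cast h2
  · have h1 := htr (F.kel G)
    rw [show K.tr (Cen.und (F.kel G)) = K.tr (F.map F G.k) from rfl, Free.mom0] at h1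
    rw [h1]
    refine Finset.sum_congr rfl fun z _ => ?_
    rw [hκ]; ring
  · have h1 := htr (F.tel G * F.kel G)
    rw [show K.tr (Cen.und (F.tel G * F.kel G)) = K.tr (F.map F G.k ≫ K.δ.θ F.Z) from rfl,
      Free.mom1] at h1
    rw [h1]
    refine Finset.sum_congr rfl fun z _ => ?_
    rw [hmulθ, Matrix.trace_smul, hκ, smul_eq_mul]; ring
  · have h1 := htr (F.tel G * (F.tel G * F.kel G))
    have h2 : Cen.und (F.tel G * (F.tel G * F.kel G)) =
        F.map F G.k ≫ K.δ.θ F.Z ≫ K.δ.θ F.Z := Category.assoc _ _ _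
    rw [h2, Free.mom2] at h1
    rw [h1]
    refine Finset.sum_congr rfl fun z _ => ?_
    rw [hmulθ, hmulθ, Matrix.trace_smul, Matrix.trace_smul, hκ, smul_eq_mul, smul_eq_mul]; ring
  · have h1 := htr el
    rw [htrel] at h1
    rw [h1]
    refine Finset.sum_congr rfl fun z _ => ?_
    rw [hx, hκ]; ring
  · refine ⟨fun a => ∑ z, x z * r a z, ?_⟩
    have h1 := htr el
    rw [htrel] at h1
    rw [h1]
    simp_rw [hx, hκ]
    simp only [κ]
    push_cast
    simp_rw [Finset.mul_sum, Finset.sum_mul]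
    rw [Finset.sum_comm]
    refine Finset.sum_congr rfl fun a _ => Finset.sum_congr rfl fun z _ => ?_
    rw [K.dimChr.r_coe]
    change (x z : ℂ) * (K.dim (K.S a) * (r a z : ℂ)) = _
    ring

end Ctx

end Pool.Agent.H386
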