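import Pool.Agent.H386.PTr

set_option autoImplicit false

open CategoryTheory CategoryTheory.Limits MonoidalCategory

namespace Pool.Agent.H386

universe v u

variable {C : Type u} [Category.{v} C] [MonoidalCategory C] [RigidCategory C]

open CategoryTheory.HasRightDual (rightDual)

attribute [-instance] CategoryTheory.hasRightDualUnit CategoryTheory.hasLeftDualUnit

namespace Pivotal

variable (δ : Pivotal C)

lemma rot_iso (X : C) : (rightDual (rightDual X)) ◁ δ.coev X ⊗≫ ε_ (rightDual X) (rightDual (rightDual X)) ▷ X = ⊗𝟙.hom ≫ (δ.iso X).inv ≫ ⊗𝟙.hom := by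
  calc
    _ = (rightDual (rightDual X)) ◁ η_ (rightDual X) (rightDual (rightDual X)) ⊗≫ (((rightDual (rightDual X)) ⊗ (rightDual X)) ◁ (δ.iso X).inv ≫ ε_ (rightDual X) (rightDual (rightDual X)) ▷ X) ⊗≫ 𝟙 _ := by
      unfold coev; monoidal
    _ = ((rightDual (rightDual X)) ◁ η_ (rightDual X) (rightDual (rightDual X)) ⊗≫ ε_ (rightDual X) (rightDual (rightDual X)) ▷ (rightDual (rightDual X))) ⊗≫ (δ.iso X).inv ⊗≫ 𝟙 _ := by
      rw [whisker_exchange]; monoidal
    _ = _ := by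
      rw [ExactPairing.coevaluation_evaluation'']; monoidal

lemma coev_dual (X : C) : δ.coev (rightDual X) ≫ (δ.iso X).inv ▷ (rightDual X) = η_ X (rightDual X) := by
  have h := δ.lptr_cyc (A := 𝟙_ C) (B := X ⊗ (rightDual X)) (η_ X (rightDual X)) ((ρ_ _).hom ≫ (λ_ _).inv)
  rw [lptr_unit, lptr_tensor] at h
  have e1 : (λ_ (𝟙_ C)).inv ≫ (η_ X (rightDual X) ▷ 𝟙_ C ≫ (ρ_ (X ⊗ (rightDual X))).hom ≫ (λ_ (X ⊗ (rightDual X))).inv) ≫
      (λ_ (X ⊗ (rightDual X))).hom = η_ X (rightDual X) := by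
    simp [unitors_inv_equal]
  have e2 : δ.lptr X ((α_ X (rightDual X) (𝟙_ C)).inv ≫ (((ρ_ (X ⊗ (rightDual X))).hom ≫ (λ_ (X ⊗ (rightDual X))).inv) ≫
      η_ X (rightDual X) ▷ (X ⊗ (rightDual X))) ≫ (α_ X (rightDual X) (X ⊗ (rightDual X))).hom) = 𝟙 _ ⊗≫ δ.coev X ▷ (rightDual X) ⊗≫ 𝟙 _ := by
    calc
      _ = 𝟙 _ ⊗≫ δ.coev X ▷ (rightDual X) ⊗≫ ((rightDual X) ◁ η_ X (rightDual X) ⊗≫ ε_ X (rightDual X) ▷ (rightDual X)) ▷ (X ⊗ (rightDual X)) ⊗≫ 𝟙 _ := by
        rw [lptr_eq]; monoidal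
      _ = _ := by
        rw [ExactPairing.coevaluation_evaluation'']; monoidal
  rw [e1, e2, lptr_eq] at h
  rw [h]
  symm
  calc
    _ = δ.coev (rightDual X) ⊗≫ ((rightDual (rightDual X)) ◁ δ.coev X ⊗≫ ε_ (rightDual X) (rightDual (rightDual X)) ▷ X) ▷ (rightDual X) ⊗≫ 𝟙 _ := by
      monoidal
    _ = _ := by
      rw [rot_iso]; monoidal

lemma coev_dual' (X : C) : δ.coev (rightDual X) = η_ X (rightDual X) ≫ (δ.iso X).hom ▷ (rightDual X) := by
  rw [← coev_dual, Category.assoc, ← comp_whiskerRight, Iso.inv_hom_id, id_whiskerRight,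
    Category.comp_id]

/-- the right dual has left dimension the right dimension -/
lemma ldim_dual (X : C) : δ.ldim (rightDual X) = δ.qdim X := by
  unfold ldim qdim
  rw [coev_dual', Category.assoc]

lemma qdim_eq (X : C) : δ.qdim X = η_ X (rightDual X) ≫ δ.ev X := by
  unfold ev qdim; rfl

variable {δ}

lemma Spherical.ldim_dual_dual (hδ : δ.Spherical) (X : C) : δ.ldim (rightDual (rightDual X)) = δ.ldim (rightDual X) := by
  rw [ldim_dual, ldim_dual, hδ X]

/-- the left dimension only depends on the isomorphism class -/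
lemma ldim_iso {X Y : C} (e : X ≅ Y) : δ.ldim X = δ.ldim Y := by
  have h := δ.lptr_cyc (A := 𝟙_ C) (B := 𝟙_ C) e.hom (e.inv ▷ 𝟙_ C)
  rw [← comp_whiskerRight, ← comp_whiskerRight, Iso.hom_inv_id, Iso.inv_hom_id, id_whiskerRight,
    id_whiskerRight, lptr_id, lptr_id] at h
  simpa [unitors_inv_equal] using h

lemma Spherical.ldim_eq_qdim (hδ : δ.Spherical) (X : C) : δ.ldim X = δ.qdim X := by
  rw [ldim_iso (δ.iso X), hδ.ldim_dual_dual, ldim_dual]

lemma Spherical.ldim_dual_eq (hδ : δ.Spherical) (X : C) : δ.ldim (rightDual X) = δ.ldim X := by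
  rw [ldim_dual, hδ.ldim_eq_qdim]

end Pivotal

end Pool.Agent.H386
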