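import Pool.Agent.H386.Proj

set_option autoImplicit false
set_option linter.unusedSectionVars false

open CategoryTheory CategoryTheory.Limits MonoidalCategory

namespace Pool.Agent.H386

universe v u

open CategoryTheory.HasRightDual (rightDual)

attribute [-instance] CategoryTheory.hasRightDualUnit CategoryTheory.hasLeftDualUnit

variable {C : Type u} [Category.{v} C] [Abelian C] [Linear ℂ C]
    [MonoidalCategory C] [MonoidalPreadditive C] [MonoidalLinear ℂ C] [RigidCategory C]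

/-- the left partial trace over a dual object of a bent morphism -/
lemma Pivotal.lptr_bend (δ : Pivotal C) {S N : C} (H : N ⟶ S ⊗ ((rightDual S) ⊗ N)) :
    δ.lptr (rightDual S) (𝟙 _ ⊗≫ (rightDual S) ◁ H ⊗≫ ε_ S (rightDual S) ▷ ((rightDual S) ⊗ N) ⊗≫ 𝟙 _ : (rightDual S) ⊗ N ⟶ (rightDual S) ⊗ N) =
      𝟙 _ ⊗≫ H ⊗≫ δ.ev S ▷ N ⊗≫ 𝟙 _ := by
  calc
    _ = 𝟙 _ ⊗≫ (δ.coev (rightDual S) ▷ N ≫ ((rightDual (rightDual S)) ⊗ (rightDual S)) ◁ H) ⊗≫ (rightDual (rightDual S)) ◁ ε_ S (rightDual S) ▷ ((rightDual S) ⊗ N) ⊗≫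
          ε_ (rightDual S) (rightDual (rightDual S)) ▷ N ⊗≫ 𝟙 _ := by
      rw [lptr_eq]; monoidal
    _ = 𝟙 _ ⊗≫ H ⊗≫ η_ S (rightDual S) ▷ (S ⊗ (rightDual S) ⊗ N) ⊗≫ ((δ.iso S).hom ▷ ((rightDual S) ⊗ S) ≫
          (rightDual (rightDual S)) ◁ ε_ S (rightDual S)) ▷ ((rightDual S) ⊗ N) ⊗≫ ε_ (rightDual S) (rightDual (rightDual S)) ▷ N ⊗≫ 𝟙 _ := by
      rw [← whisker_exchange, coev_dual']; monoidal
    _ = 𝟙 _ ⊗≫ H ⊗≫ (η_ S (rightDual S) ▷ S ⊗≫ S ◁ ε_ S (rightDual S)) ▷ ((rightDual S) ⊗ N) ⊗≫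
          ((δ.iso S).hom ▷ (rightDual S) ≫ ε_ (rightDual S) (rightDual (rightDual S))) ▷ N ⊗≫ 𝟙 _ := by
      rw [← whisker_exchange]; monoidal
    _ = _ := by
      rw [ExactPairing.evaluation_coevaluation'']
      unfold ev
      monoidal

namespace Ctx

variable (K : Ctx C)

/-- global dimension -/
def D : ℂ := ∑ j, K.dim (K.S j) ^ 2

namespace Free

variable {K} {V W : C} (F : K.Free V) (G : K.Free W)

/-- the projected family is concentrated at one simple object -/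
lemma prj_zero {j k : Fin K.n} (h : k ≠ j) : F.ω (K.S k) ≫ K.S k ◁ F.prj j = 0 := by
  unfold ω
  rw [F.hu]
  calc
    _ = 𝟙 _ ⊗≫ η_ (K.S k) (rightDual (K.S k)) ▷ (V ⊗ K.S k) ⊗≫ K.S k ◁ (F.inc k ≫ F.prj j) := by
      monoidal
    _ = _ := by
      rw [F.diff k j h]
      simp [monoidalComp]

lemma prj_same (j : Fin K.n) : F.ω (K.S j) ≫ K.S j ◁ F.prj j =
    𝟙 _ ⊗≫ η_ (K.S j) (rightDual (K.S j)) ▷ (V ⊗ K.S j) ⊗≫ 𝟙 _ := by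
  unfold ω
  rw [F.hu]
  calc
    _ = 𝟙 _ ⊗≫ η_ (K.S j) (rightDual (K.S j)) ▷ (V ⊗ K.S j) ⊗≫ K.S j ◁ (F.inc j ≫ F.prj j) := by
      monoidal
    _ = _ := by
      rw [F.same]
      monoidal

/-- expansion of the projected family -/
lemma prj_expand (j : Fin K.n) (U : C) : F.ω U ≫ U ◁ F.prj j =
    ∑ b, V ◁ (K.dec U).prj b ≫ (F.ω (K.S ((K.dec U).idx b)) ≫
      K.S ((K.dec U).idx b) ◁ F.prj j) ≫ (K.dec U).inc b ▷ _ := by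
  conv_lhs => rw [← Category.id_comp (F.ω U), ← MonoidalCategory.whiskerLeft_id,
    ← (K.dec U).sum, whiskerLeft_sum]
  rw [Preadditive.sum_comp, Preadditive.sum_comp]
  refine Finset.sum_congr rfl fun b _ => ?_
  rw [MonoidalCategory.whiskerLeft_comp, Category.assoc, Category.assoc, F.nat_fam]

lemma q_eq (j : Fin K.n) :
    (𝟙 _ ⊗≫ F.Z.b (K.S j) ⊗≫ K.S j ◁ F.prj j ⊗≫ K.δ.ev (K.S j) ▷ (V ⊗ K.S j) ⊗≫ 𝟙 _ :
      F.Z.X ⊗ K.S j ⟶ V ⊗ K.S j) = K.dim (K.S j) • (F.p ▷ K.S j) := by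
  have hL : ∀ U : C, F.ω U ▷ (K.S j) ≫ (α_ U F.Z.X (K.S j)).hom ≫ U ◁
      (𝟙 _ ⊗≫ F.Z.b (K.S j) ⊗≫ K.S j ◁ F.prj j ⊗≫ K.δ.ev (K.S j) ▷ (V ⊗ K.S j) ⊗≫ 𝟙 _ :
      F.Z.X ⊗ K.S j ⟶ V ⊗ K.S j) = 𝟙 _ ⊗≫ (F.ω (U ⊗ K.S j) ≫ (U ⊗ K.S j) ◁ F.prj j) ⊗≫
        U ◁ K.δ.ev (K.S j) ▷ (V ⊗ K.S j) ⊗≫ 𝟙 _ := by
    intro U
    rw [F.ω_tens]; monoidal
  apply F.ext_right_unit
  · rw [hL]
    calc
      _ = 𝟙 _ ⊗≫ (F.ω (𝟙_ C ⊗ K.S j) ≫ (λ_ (K.S j)).hom ▷ F.Z.X) ⊗≫ K.S j ◁ F.prj j ⊗≫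
            K.δ.ev (K.S j) ▷ (V ⊗ K.S j) ⊗≫ 𝟙 _ := by monoidal
      _ = 𝟙 _ ⊗≫ (F.ω (K.S j) ≫ K.S j ◁ F.prj j) ⊗≫
            K.δ.ev (K.S j) ▷ (V ⊗ K.S j) ⊗≫ 𝟙 _ := by
        rw [← F.ω_nat]; monoidal
      _ = 𝟙 _ ⊗≫ (η_ (K.S j) (rightDual (K.S j)) ≫ K.δ.ev (K.S j)) ▷ (V ⊗ K.S j) ⊗≫ 𝟙 _ := by
        rw [F.prj_same]; monoidal
      _ = K.dim (K.S j) • ((ρ_ V).hom ≫ (λ_ V).inv) ▷ K.S j ≫ (α_ _ _ _).hom := by
        rw [K.eta_ev, MonoidalLinear.smul_whiskerRight]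
        simp only [monoidalComp, Linear.comp_smul, Linear.smul_comp]
        congr 1
        monoidal
      _ = _ := by
        rw [← F.p_unit]
        simp only [MonoidalLinear.whiskerLeft_smul, Linear.comp_smul]
        congr 1
        monoidal
  · intro U hU hn
    rw [hL]
    have hR : F.ω U ▷ K.S j ≫ (α_ U F.Z.X (K.S j)).hom ≫ U ◁ (K.dim (K.S j) • F.p ▷ K.S j) =
        K.dim (K.S j) • ((F.ω U ≫ U ◁ F.p) ▷ K.S j ≫ (α_ _ _ _).hom) := by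
      simp only [MonoidalLinear.whiskerLeft_smul, Linear.comp_smul]
      congr 1
      monoidal
    rw [hR, F.p_zero U hU hn, MonoidalPreadditive.zero_whiskerRight, zero_comp, smul_zero]
    have key : ∀ k (i : K.S k ⟶ U ⊗ K.S j), ((F.ω (K.S k) ≫ K.S k ◁ F.prj j) ≫ i ▷ _) ⊗≫
        U ◁ K.δ.ev (K.S j) ▷ (V ⊗ K.S j) ⊗≫ 𝟙 (U ⊗ V ⊗ K.S j) = 0 := by
      intro k i
      by_cases hk : k = j
      · subst hk
        have h0 : (η_ (K.S k) (rightDual (K.S k)) ⊗≫ i ▷ (rightDual (K.S k)) ⊗≫ U ◁ K.δ.ev (K.S k) ⊗≫ 𝟙 U :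
            𝟙_ C ⟶ U) = 0 := by
          have := K.one
          exact K.hom_zero (fun ⟨e⟩ => hn ⟨e.symm⟩) _
        calc
          _ = 𝟙 _ ⊗≫ (η_ (K.S k) (rightDual (K.S k)) ⊗≫ i ▷ (rightDual (K.S k)) ⊗≫ U ◁ K.δ.ev (K.S k) ⊗≫ 𝟙 U :
            𝟙_ C ⟶ U) ▷ (V ⊗ K.S k) ⊗≫ 𝟙 _ := by
            rw [F.prj_same]; monoidal
          _ = 0 := by
            rw [h0]; simp [monoidalComp]
      · rw [F.prj_zero hk]
        simp [monoidalComp]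
    rw [F.prj_expand]
    simp only [monoidalComp, Preadditive.sum_comp, Preadditive.comp_sum]
    refine Finset.sum_eq_zero fun b _ => ?_
    have := key _ ((K.dec (U ⊗ K.S j)).inc b)
    simp only [monoidalComp] at this
    simp only [Category.assoc] at this ⊢
    rw [this]
    simp

end Free

end Ctx

end Pool.Agent.H386
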