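import Pool.Agent.H386.TN

set_option autoImplicit false
set_option linter.unusedSectionVars false

open CategoryTheory CategoryTheory.Limits MonoidalCategory

namespace Pool.Agent.H386

universe v u

open CategoryTheory.HasRightDual (rightDual)

attribute [-instance] CategoryTheory.hasRightDualUnit CategoryTheory.hasLeftDualUnit

variable {C : Type u} [Category.{v} C] [Abelian C] [Linear ℂ C]
    [MonoidalCategory C] [MonoidalPreadditive C] [MonoidalLinear ℂ C] [RigidCategory C]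

lemma Pivotal.lptr_bend' (δ : Pivotal C) {S N : C} (H : N ⟶ S ⊗ ((rightDual S) ⊗ N)) :
    δ.lptr (rightDual S) ((rightDual S) ◁ H ≫ (α_ _ _ _).inv ≫ ε_ S (rightDual S) ▷ ((rightDual S) ⊗ N) ≫ (λ_ _).hom) =
      H ≫ (α_ _ _ _).inv ≫ δ.ev S ▷ N ≫ (λ_ _).hom := by
  calc
    _ = δ.lptr (rightDual S) (𝟙 _ ⊗≫ (rightDual S) ◁ H ⊗≫ ε_ S (rightDual S) ▷ ((rightDual S) ⊗ N) ⊗≫ 𝟙 _ : (rightDual S) ⊗ N ⟶ (rightDual S) ⊗ N) := by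
      congr 1; monoidal
    _ = _ := by rw [lptr_bend]; monoidal

namespace Ctx

variable (K : Ctx C)

lemma lptr_whiskerRight {X : C} (f : X ⟶ X) (A : C) : K.δ.lptr X (f ▷ A) = K.tr f • 𝟙 A := by
  have h := K.δ.lptr_whisker (f ▷ 𝟙_ C) A
  have h2 : K.δ.lptr X (f ▷ 𝟙_ C) = K.tr f • 𝟙 _ := K.sc_spec _
  rw [h2, MonoidalLinear.smul_whiskerRight, id_whiskerRight] at h
  have h3 := K.δ.lptr_left (X := X) (λ_ A).inv ((α_ X (𝟙_ C) A).inv ≫ f ▷ 𝟙_ C ▷ A ≫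
    (α_ X (𝟙_ C) A).hom)
  have h4 := K.δ.lptr_right (X := X) (X ◁ (λ_ A).inv ≫ ((α_ X (𝟙_ C) A).inv ≫ f ▷ 𝟙_ C ▷ A ≫
    (α_ X (𝟙_ C) A).hom)) (λ_ A).hom
  rw [h3, ← h] at h4
  calc
    _ = K.δ.lptr X ((X ◁ (λ_ A).inv ≫ (α_ X (𝟙_ C) A).inv ≫ f ▷ 𝟙_ C ▷ A ≫
          (α_ X (𝟙_ C) A).hom) ≫ X ◁ (λ_ A).hom) := by
      congr 1
      monoidal
    _ = _ := by
      rw [h4]; simp

lemma tr_whiskerRight {X : C} (f : X ⟶ X) (A : C) : K.tr (f ▷ A) = K.tr f * K.dim A := by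
  rw [K.tr_tensor, K.lptr_whiskerRight, K.tr_smul, K.tr_id]

namespace Free

variable {K} {V W : C} (F : K.Free V) (G : K.Free W)

/-- The trace identity. -/
theorem trace_identity (y : F.Z.X ⟶ F.Z.X) (hy : F.Z.IsHom F.Z y) :
    K.tr y = K.D * K.tr (F.u ≫ y ≫ F.p) := by
  have h1 : K.tr y = ∑ j, K.tr (F.inc j ≫ y ≫ F.prj j) := by
    conv_lhs => rw [← Category.id_comp y, ← F.sum, Preadditive.sum_comp, K.tr_sum]
    refine Finset.sum_congr rfl fun b _ => ?_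
    rw [Category.assoc, K.tr_comm, Category.assoc]
  rw [h1, D, Finset.sum_mul]
  refine Finset.sum_congr rfl fun j _ => ?_
  have h3 : F.inc j ≫ y ≫ F.prj j = (rightDual (K.S j)) ◁ (F.ω (K.S j) ≫ K.S j ◁ (y ≫ F.prj j)) ≫
      (α_ _ _ _).inv ≫ ε_ (K.S j) (rightDual (K.S j)) ▷ _ ≫ (λ_ _).hom := by
    rw [F.inc_eq]; monoidal
  rw [h3, K.tr_tensor, Pivotal.lptr_bend']
  have h2 : ((F.ω (K.S j) ≫ K.S j ◁ (y ≫ F.prj j)) ≫ (α_ _ _ _).inv ≫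
      K.δ.ev (K.S j) ▷ (V ⊗ K.S j) ≫ (λ_ _).hom : V ⊗ K.S j ⟶ V ⊗ K.S j) =
      K.dim (K.S j) • ((F.u ≫ y ≫ F.p) ▷ K.S j) := by
    calc
      _ = 𝟙 _ ⊗≫ (F.ω (K.S j) ≫ K.S j ◁ y) ⊗≫ K.S j ◁ F.prj j ⊗≫
            K.δ.ev (K.S j) ▷ (V ⊗ K.S j) ⊗≫ 𝟙 _ := by monoidal
      _ = (F.u ≫ y) ▷ K.S j ≫ (𝟙 _ ⊗≫ F.Z.b (K.S j) ⊗≫ K.S j ◁ F.prj j ⊗≫
            K.δ.ev (K.S j) ▷ (V ⊗ K.S j) ⊗≫ 𝟙 _ : F.Z.X ⊗ K.S j ⟶ V ⊗ K.S j) := by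
        rw [F.ω_hom hy]; monoidal
      _ = _ := by
        rw [F.q_eq]; simp
  rw [h2, K.tr_smul, K.tr_whiskerRight]
  ring

lemma r_eq (j : Fin K.n) : K.dim (K.S j) •
    (𝟙 _ ⊗≫ F.Z.X ◁ K.δ.coev (K.S j) ⊗≫ (F.Z.b (rightDual (K.S j)) ≫ (rightDual (K.S j)) ◁ F.p) ▷ K.S j ⊗≫ 𝟙 _ :
      F.Z.X ⟶ (rightDual (K.S j)) ⊗ (V ⊗ K.S j)) = F.prj j := by
  have hL : ∀ U : C, F.ω U ≫ U ◁
      (𝟙 _ ⊗≫ F.Z.X ◁ K.δ.coev (K.S j) ⊗≫ (F.Z.b (rightDual (K.S j)) ≫ (rightDual (K.S j)) ◁ F.p) ▷ K.S j ⊗≫ 𝟙 _ :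
      F.Z.X ⟶ (rightDual (K.S j)) ⊗ (V ⊗ K.S j)) = 𝟙 _ ⊗≫ (V ⊗ U) ◁ K.δ.coev (K.S j) ⊗≫
        (F.ω (U ⊗ (rightDual (K.S j))) ≫ (U ⊗ (rightDual (K.S j))) ◁ F.p) ▷ K.S j ⊗≫ 𝟙 _ := by
    intro U
    calc
      _ = 𝟙 _ ⊗≫ (F.ω U ▷ (𝟙_ C) ≫ (U ⊗ F.Z.X) ◁ K.δ.coev (K.S j)) ⊗≫
            U ◁ (F.Z.b (rightDual (K.S j)) ≫ (rightDual (K.S j)) ◁ F.p) ▷ K.S j ⊗≫ 𝟙 _ := by monoidal
      _ = _ := by
        rw [← whisker_exchange, F.ω_tens]; monoidal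
  apply F.ext_inc
  intro k
  rw [F.inc_eq, F.inc_eq]
  have hk : F.ω (K.S k) ≫ K.S k ◁ (K.dim (K.S j) •
    (𝟙 _ ⊗≫ F.Z.X ◁ K.δ.coev (K.S j) ⊗≫ (F.Z.b (rightDual (K.S j)) ≫ (rightDual (K.S j)) ◁ F.p) ▷ K.S j ⊗≫ 𝟙 _ :
      F.Z.X ⟶ (rightDual (K.S j)) ⊗ (V ⊗ K.S j))) = F.ω (K.S k) ≫ K.S k ◁ F.prj j := by
    rw [MonoidalLinear.whiskerLeft_smul, Linear.comp_smul, hL]
    by_cases hkj : k = j
    · subst hkj
      rw [F.prj_same]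
      have := K.simple k
      have h1 : V ◁ (K.dim (K.S k) • 𝟙 _ - K.δ.ev (K.S k) ≫ η_ (K.S k) (rightDual (K.S k))) ≫
          F.ω (K.S k ⊗ (rightDual (K.S k))) ≫ (K.S k ⊗ (rightDual (K.S k))) ◁ F.p = 0 := by
        apply F.p_kill
        intro q
        obtain ⟨a, ha⟩ := K.scalar (K.S k) (𝟙 _ ⊗≫ K.S k ◁ K.δ.coev (K.S k) ⊗≫ q ▷ K.S k ⊗≫ 𝟙 _)
        have h2 := K.eq_ev q
        rw [ha, MonoidalLinear.smul_whiskerRight, id_whiskerRight, Linear.smul_comp,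
          Category.id_comp] at h2
        rw [h2, Preadditive.sub_comp, Category.assoc, Linear.comp_smul, Linear.comp_smul,
          Linear.comp_smul, K.eta_ev]
        simp [smul_smul]
      have h2 : K.dim (K.S k) • (F.ω (K.S k ⊗ (rightDual (K.S k))) ≫ (K.S k ⊗ (rightDual (K.S k))) ◁ F.p) =
          V ◁ K.δ.ev (K.S k) ≫ ((ρ_ V).hom ≫ (λ_ V).inv) ≫ η_ (K.S k) (rightDual (K.S k)) ▷ V := by
        rw [← F.p_unit]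
        rw [sub_eq_add_neg, MonoidalPreadditive.whiskerLeft_add, Preadditive.add_comp,
          ← neg_one_smul ℂ (K.δ.ev (K.S k) ≫ η_ (K.S k) (rightDual (K.S k))),
          MonoidalLinear.whiskerLeft_smul, MonoidalLinear.whiskerLeft_smul,
          Linear.smul_comp, Linear.smul_comp, neg_one_smul, ← sub_eq_add_neg, sub_eq_zero] at h1
        rw [MonoidalCategory.whiskerLeft_id, Category.id_comp, MonoidalCategory.whiskerLeft_comp,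
          Category.assoc, F.nat_fam] at h1
        exact h1
      calc
        _ = 𝟙 _ ⊗≫ (V ⊗ K.S k) ◁ K.δ.coev (K.S k) ⊗≫
              (K.dim (K.S k) • (F.ω (K.S k ⊗ (rightDual (K.S k))) ≫ (K.S k ⊗ (rightDual (K.S k))) ◁ F.p)) ▷ K.S k ⊗≫
                𝟙 _ := by
          simp only [monoidalComp, MonoidalLinear.smul_whiskerRight, Linear.comp_smul,
            Linear.smul_comp]
        _ = 𝟙 _ ⊗≫ V ◁ (K.S k ◁ K.δ.coev (K.S k) ⊗≫ K.δ.ev (K.S k) ▷ K.S k) ⊗≫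
              η_ (K.S k) (rightDual (K.S k)) ▷ (V ⊗ K.S k) ⊗≫ 𝟙 _ := by
          rw [h2]; monoidal
        _ = _ := by
          rw [Pivotal.zig]; monoidal
    · rw [F.prj_zero hkj]
      have := K.simple k
      have := K.simple j
      have h1 : V ◁ (𝟙 (K.S k ⊗ (rightDual (K.S j)))) ≫
          F.ω (K.S k ⊗ (rightDual (K.S j))) ≫ (K.S k ⊗ (rightDual (K.S j))) ◁ F.p = 0 := by
        apply F.p_kill
        intro q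
        rw [Category.id_comp, K.eq_ev q, K.hom_zero' hkj (𝟙 _ ⊗≫ K.S k ◁ K.δ.coev (K.S j) ⊗≫
          q ▷ K.S j ⊗≫ 𝟙 _)]
        simp
      rw [MonoidalCategory.whiskerLeft_id, Category.id_comp] at h1
      rw [h1]
      simp [monoidalComp]
  rw [hk]

/-- Central morphisms into a free object are determined by their projection. -/
theorem eq_zero_of_comp_p (Y : Cen C) (y : Y.X ⟶ F.Z.X) (hy : Y.IsHom F.Z y)
    (h : y ≫ F.p = 0) : y = 0 := by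
  have h1 : ∀ j, y ≫ F.prj j = 0 := by
    intro j
    rw [← F.r_eq, Linear.comp_smul]
    have h2 : y ≫ (𝟙 _ ⊗≫ F.Z.X ◁ K.δ.coev (K.S j) ⊗≫
        (F.Z.b (rightDual (K.S j)) ≫ (rightDual (K.S j)) ◁ F.p) ▷ K.S j ⊗≫ 𝟙 _ :
        F.Z.X ⟶ (rightDual (K.S j)) ⊗ (V ⊗ K.S j)) = 0 := by
      calc
        _ = 𝟙 _ ⊗≫ (y ▷ (𝟙_ C) ≫ F.Z.X ◁ K.δ.coev (K.S j)) ⊗≫
          (F.Z.b (rightDual (K.S j)) ≫ (rightDual (K.S j)) ◁ F.p) ▷ K.S j ⊗≫ 𝟙 _ := by monoidal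
        _ = 𝟙 _ ⊗≫ Y.X ◁ K.δ.coev (K.S j) ⊗≫ ((y ▷ (rightDual (K.S j)) ≫
          F.Z.b (rightDual (K.S j))) ≫ (rightDual (K.S j)) ◁ F.p) ▷ K.S j ⊗≫ 𝟙 _ := by
          rw [← whisker_exchange]; monoidal
        _ = 𝟙 _ ⊗≫ Y.X ◁ K.δ.coev (K.S j) ⊗≫ (Y.b (rightDual (K.S j)) ≫
          (rightDual (K.S j)) ◁ (y ≫ F.p)) ▷ K.S j ⊗≫ 𝟙 _ := by
          rw [hy]; monoidal
        _ = 0 := by
          rw [h]; simp [monoidalComp]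
    rw [h2, smul_zero]
  rw [← Category.comp_id y, ← F.sum, Preadditive.comp_sum]
  refine Finset.sum_eq_zero fun j _ => ?_
  rw [← Category.assoc, h1, zero_comp]

end Free

end Ctx

end Pool.Agent.H386
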