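import Pool.Agent.H386.Mom

set_option autoImplicit false
set_option linter.unusedSectionVars false

open CategoryTheory CategoryTheory.Limits MonoidalCategory

namespace Pool.Agent.H386

universe v u

open CategoryTheory.HasRightDual (rightDual)

attribute [-instance] CategoryTheory.hasRightDualUnit CategoryTheory.hasLeftDualUnit

variable {C : Type u} [Category.{v} C] [Abelian C] [Linear ℂ C]
    [MonoidalCategory C] [MonoidalPreadditive C] [MonoidalLinear ℂ C] [RigidCategory C]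

lemma Cen.IsHom.sum {Z Y : Cen C} {ι : Type*} (s : Finset ι) (g : ι → (Z.X ⟶ Y.X))
    (h : ∀ i ∈ s, Z.IsHom Y (g i)) : Z.IsHom Y (∑ i ∈ s, g i) := by
  intro U
  rw [sum_whiskerRight, whiskerLeft_sum, Preadditive.sum_comp, Preadditive.comp_sum]
  exact Finset.sum_congr rfl fun i hi => h i hi U

lemma Cen.IsHom.smul {Z Y : Cen C} (a : ℂ) {g : Z.X ⟶ Y.X} (h : Z.IsHom Y g) :
    Z.IsHom Y (a • g) := by
  intro U
  rw [MonoidalLinear.smul_whiskerRight, MonoidalLinear.whiskerLeft_smul, Linear.smul_comp,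
    Linear.comp_smul, h]

namespace Ctx

variable {K : Ctx C}

namespace Free

variable (F : K.Free (𝟙_ C))

/-- the family before tracing -/
def g (V : C) : V ⊗ 𝟙_ C ⟶ V ⊗ F.Z.X := (ρ_ V).hom ≫ (λ_ V).inv ≫ F.ω V

lemma g_nat {V W : C} (f : V ⟶ W) : f ▷ 𝟙_ C ≫ F.g W = F.g V ≫ f ▷ F.Z.X := by
  unfold g
  calc
    _ = (ρ_ V).hom ≫ (λ_ V).inv ≫ 𝟙_ C ◁ f ≫ F.ω W := by simp
    _ = _ := by rw [F.ω_nat]; simp

/-- vectors attached to objects -/
def t (V : C) : 𝟙_ C ⟶ F.Z.X := K.δ.lptr V (F.g V)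

/-- the central endomorphisms of `J(1)` attached to objects. -/
noncomputable def T (V : C) : F.Z.X ⟶ F.Z.X := F.hat F.Z (F.t V)

lemma T_hom (V : C) : F.Z.IsHom F.Z (F.T V) := F.hat_hom _ _

lemma u_T (V : C) : F.u ≫ F.T V = F.t V := F.u_hat _ _

lemma t_mul (V W : C) : F.t V ≫ F.T W = F.t (W ⊗ V) := by
  have h1 : F.ω V ≫ V ◁ F.T W = F.t W ▷ V ≫ F.Z.b V := by
    rw [F.ω_hom (F.T_hom W), u_T]
  have h2 : F.t V ≫ F.T W = K.δ.lptr V ((ρ_ V).hom ≫ (λ_ V).inv ≫ F.t W ▷ V ≫ F.Z.b V) := by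
    unfold t g at *
    rw [← Pivotal.lptr_right]
    simp only [Category.assoc]
    rw [h1]
  rw [h2]
  unfold t
  rw [Pivotal.lptr_tensor, Pivotal.lptr_whisker]
  congr 1
  rw [← Pivotal.lptr_right, ← Pivotal.lptr_left, ← Pivotal.lptr_left]
  congr 1
  unfold g
  rw [F.ω_tens]
  monoidal

lemma T_mul (V W : C) : F.T V ≫ F.T W = F.T (W ⊗ V) := by
  apply F.hom_ext ((F.T_hom V).comp (F.T_hom W)) (F.T_hom _)
  rw [← Category.assoc, u_T, t_mul, u_T]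

lemma t_dec {X : C} (d : Dec K.S X) : F.t X = ∑ b, F.t (K.S (d.idx b)) := by
  unfold t
  have h : F.g X = ∑ b, d.prj b ▷ 𝟙_ C ≫ F.g (K.S (d.idx b)) ≫ d.inc b ▷ F.Z.X := by
    conv_lhs => rw [← Category.id_comp (F.g X), ← id_whiskerRight, ← d.sum, sum_whiskerRight,
      Preadditive.sum_comp]
    refine Finset.sum_congr rfl fun b _ => ?_
    rw [comp_whiskerRight, Category.assoc, g_nat]
  rw [h, Pivotal.lptr_sum]
  refine Finset.sum_congr rfl fun b _ => ?_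
  rw [Pivotal.lptr_cyc, Category.assoc, ← comp_whiskerRight, d.same, id_whiskerRight,
    Category.comp_id]

lemma T_expand (X : C) : F.T X = ∑ i, (Module.finrank ℂ (K.S i ⟶ X) : ℂ) • F.T (K.S i) := by
  apply F.hom_ext (F.T_hom _) (Cen.IsHom.sum _ _ fun i _ => (F.T_hom _).smul _)
  rw [u_T, F.t_dec (K.dec X), K.sum_dec (K.dec X) (fun i => F.t (K.S i)), Preadditive.comp_sum]
  refine Finset.sum_congr rfl fun i _ => ?_
  rw [Linear.comp_smul, u_T, Nat.cast_smul_eq_nsmul]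

/-- the vector of a simple object -/
lemma t_simple (j : Fin K.n) :
    F.t (K.S j) = K.δ.coev (K.S j) ≫ (rightDual (K.S j)) ◁ (λ_ (K.S j)).inv ≫ F.inc j := by
  have h1 : F.ω (K.S j) = 𝟙 _ ⊗≫ η_ (K.S j) (rightDual (K.S j)) ▷ (𝟙_ C ⊗ K.S j) ⊗≫ K.S j ◁ F.inc j := by
    unfold ω
    rw [F.hu]
    monoidal
  have h2 : F.g (K.S j) = (ρ_ _).hom ≫ (λ_ _).inv ≫ η_ (K.S j) (rightDual (K.S j)) ▷ K.S j ≫
      (α_ _ _ _).hom ≫ K.S j ◁ ((rightDual (K.S j)) ◁ (λ_ (K.S j)).inv ≫ F.inc j) := by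
    unfold g
    rw [h1]; monoidal
  unfold t
  rw [h2, Pivotal.lptr_eq]
  calc
    _ = 𝟙 _ ⊗≫ K.δ.coev (K.S j) ⊗≫ (rightDual (K.S j)) ◁ η_ (K.S j) (rightDual (K.S j)) ▷ K.S j ⊗≫
          (((rightDual (K.S j)) ⊗ K.S j) ◁ ((rightDual (K.S j)) ◁ (λ_ (K.S j)).inv ≫ F.inc j) ≫
            ε_ (K.S j) (rightDual (K.S j)) ▷ F.Z.X) ⊗≫ 𝟙 _ := by monoidal
    _ = 𝟙 _ ⊗≫ K.δ.coev (K.S j) ⊗≫ ((rightDual (K.S j)) ◁ η_ (K.S j) (rightDual (K.S j)) ⊗≫
          ε_ (K.S j) (rightDual (K.S j)) ▷ (rightDual (K.S j))) ▷ K.S j ⊗≫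
          ((rightDual (K.S j)) ◁ (λ_ (K.S j)).inv ≫ F.inc j) ⊗≫ 𝟙 _ := by
      rw [whisker_exchange]; monoidal
    _ = _ := by
      rw [ExactPairing.coevaluation_evaluation'']; monoidal

/-- the vectors of the simple objects span. -/
lemma t_span (h : 𝟙_ C ⟶ F.Z.X) : ∃ a : Fin K.n → ℂ, h = ∑ j, a j • F.t (K.S j) := by
  have h1 : ∀ j, ∃ a : ℂ, h ≫ F.prj j =
      a • (K.δ.coev (K.S j) ≫ (rightDual (K.S j)) ◁ (λ_ (K.S j)).inv) := by
    intro j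
    have := K.simple j
    have h2 := K.eq_coev (h ≫ F.prj j ≫ (rightDual (K.S j)) ◁ (λ_ (K.S j)).hom)
    obtain ⟨a, ha⟩ := K.scalar (K.S j) (𝟙 _ ⊗≫ K.S j ◁
      (h ≫ F.prj j ≫ (rightDual (K.S j)) ◁ (λ_ (K.S j)).hom) ⊗≫ K.δ.ev (K.S j) ▷ (K.S j) ⊗≫ 𝟙 _)
    refine ⟨a, ?_⟩
    rw [ha] at h2
    calc
      _ = (h ≫ F.prj j ≫ (rightDual (K.S j)) ◁ (λ_ (K.S j)).hom) ≫ (rightDual (K.S j)) ◁ (λ_ (K.S j)).inv := by
        simp
      _ = _ := by
        rw [h2, MonoidalLinear.whiskerLeft_smul, MonoidalCategory.whiskerLeft_id,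
          Linear.comp_smul, Category.comp_id, Linear.smul_comp]
  choose a ha using h1
  refine ⟨a, ?_⟩
  conv_lhs => rw [← Category.comp_id h, ← F.sum, Preadditive.comp_sum]
  refine Finset.sum_congr rfl fun j _ => ?_
  rw [← Category.assoc, ha, Linear.smul_comp, t_simple, Category.assoc]

lemma t_p_ne {V : C} [Simple V] (h : ¬ Nonempty (V ≅ 𝟙_ C)) : F.t V ≫ F.p = 0 := by
  unfold t g
  rw [← Pivotal.lptr_right]
  have h2 : ((ρ_ V).hom ≫ (λ_ V).inv ≫ F.ω V) ≫ V ◁ F.p = 0 := by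
    simp only [Category.assoc]
    rw [F.p_zero V inferInstance h, comp_zero, comp_zero]
  rw [h2, Pivotal.lptr_zero]

lemma t_iso {V W : C} (e : V ≅ W) : F.t V = F.t W := by
  unfold t
  have h : F.g V = e.hom ▷ 𝟙_ C ≫ F.g W ≫ e.inv ▷ F.Z.X := by
    rw [← Category.assoc, g_nat, Category.assoc, ← comp_whiskerRight, e.hom_inv_id,
      id_whiskerRight, Category.comp_id]
  rw [h, Pivotal.lptr_cyc, Category.assoc, ← comp_whiskerRight, e.inv_hom_id, id_whiskerRight,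
    Category.comp_id]

lemma t_unit_p : F.t (𝟙_ C) ≫ F.p = 𝟙 _ := by
  unfold t g
  rw [← Pivotal.lptr_right]
  simp only [Category.assoc]
  rw [F.p_unit, Pivotal.lptr_unit]
  simp [unitors_inv_equal, unitors_equal]

/-- the idempotent attached to a character -/
noncomputable def e (χ : K.Chr) : F.Z.X ⟶ F.Z.X := (χ.f)⁻¹ • ∑ j, χ.c (K.S j) • F.T (K.S j)

variable (χ : K.Chr)

lemma e_hom : F.Z.IsHom F.Z (F.e χ) :=
  (Cen.IsHom.sum _ _ fun _ _ => (F.T_hom _).smul _).smul _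

lemma e_T (V : C) : F.e χ ≫ F.T V = χ.c V • F.e χ := by
  unfold e
  rw [Linear.smul_comp, smul_comm]
  congr 1
  rw [Preadditive.sum_comp, Finset.smul_sum]
  calc
    _ = ∑ j, ∑ k, (χ.c (K.S j) * (Module.finrank ℂ (K.S k ⟶ V ⊗ K.S j) : ℂ)) • F.T (K.S k) := by
      refine Finset.sum_congr rfl fun j _ => ?_
      rw [Linear.smul_comp, T_mul, T_expand, Finset.smul_sum]
      refine Finset.sum_congr rfl fun k _ => ?_
      rw [smul_smul]
    _ = _ := by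
      rw [Finset.sum_comm]
      refine Finset.sum_congr rfl fun k _ => ?_
      rw [← Finset.sum_smul, smul_smul, χ.mul_expand']
      congr 1
      exact Finset.sum_congr rfl fun j _ => by ring

lemma e_e : F.e χ ≫ F.e χ = F.e χ := by
  have h : F.e χ ≫ F.e χ = (χ.f)⁻¹ • ∑ j, χ.c (K.S j) • (F.e χ ≫ F.T (K.S j)) := by
    conv_lhs => rw [show F.e χ ≫ F.e χ = F.e χ ≫ ((χ.f)⁻¹ • ∑ j, χ.c (K.S j) • F.T (K.S j))
      from rfl]
    rw [Linear.comp_smul, Preadditive.comp_sum]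
    simp only [Linear.comp_smul]
  rw [h]
  simp_rw [e_T, smul_smul]
  rw [← Finset.sum_smul, smul_smul]
  have h2 : ∑ j, χ.c (K.S j) * χ.c (K.S j) = χ.f := by
    unfold Chr.f
    exact Finset.sum_congr rfl fun j _ => by ring
  rw [h2, inv_mul_cancel₀ χ.f_ne_zero, one_smul]

lemma e_comp (x : F.Z.X ⟶ F.Z.X) (hx : F.Z.IsHom F.Z x) : ∃ a : ℂ, F.e χ ≫ x = a • F.e χ := by
  obtain ⟨a, ha⟩ := F.t_span (F.u ≫ x)
  have h1 : x = ∑ j, a j • F.T (K.S j) := by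
    apply F.hom_ext hx (Cen.IsHom.sum _ _ fun _ _ => (F.T_hom _).smul _)
    rw [ha, Preadditive.comp_sum]
    refine Finset.sum_congr rfl fun j _ => ?_
    rw [Linear.comp_smul, u_T]
  refine ⟨∑ j, a j * χ.c (K.S j), ?_⟩
  rw [h1, Preadditive.comp_sum, Finset.sum_smul]
  refine Finset.sum_congr rfl fun j _ => ?_
  rw [Linear.comp_smul, e_T, smul_smul]

lemma u_e_p : F.u ≫ F.e χ ≫ F.p = (χ.f)⁻¹ • 𝟙 _ := by
  have h : F.u ≫ F.e χ ≫ F.p = (χ.f)⁻¹ • ∑ j, χ.c (K.S j) • (F.t (K.S j) ≫ F.p) := by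
    unfold e
    rw [Linear.smul_comp, Linear.comp_smul, Preadditive.sum_comp, Preadditive.comp_sum]
    congr 1
    refine Finset.sum_congr rfl fun j _ => ?_
    rw [Linear.smul_comp, Linear.comp_smul, ← Category.assoc, u_T]
  rw [h]
  congr 1
  obtain ⟨j, ⟨e⟩⟩ := K.hS.complete (𝟙_ C) K.one
  rw [Finset.sum_eq_single j]
  · rw [F.t_iso e.symm, t_unit_p, ← χ.iso e, χ.unit, one_smul]
  · intro a _ ha
    have := K.simple a
    rw [t_p_ne, smul_zero]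
    rintro ⟨e'⟩
    exact ha (K.hS.inj a j ⟨e' ≪≫ e⟩)
  · intro h; exact absurd (Finset.mem_univ _) h

lemma tr_e : K.tr (F.e χ) = K.D * (χ.f)⁻¹ := by
  rw [F.trace_identity _ (F.e_hom χ), u_e_p, K.tr_smul, K.tr_id, K.dim_unit, mul_one]

lemma θ_free_unit : K.δ.θ F.Z = 𝟙 _ := by
  apply F.hom_ext (K.θ_hom _) Cen.IsHom.id
  rw [Pivotal.unit_comp_θ, Category.comp_id]

end Free

end Ctx

end Pool.Agent.H386
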