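import Pool.Agent.H386.Dec

set_option autoImplicit false
set_option linter.unusedSectionVars false

open CategoryTheory CategoryTheory.Limits MonoidalCategory

namespace Pool.Agent.H386

universe v u

open CategoryTheory.HasRightDual (rightDual)

attribute [-instance] CategoryTheory.hasRightDualUnit CategoryTheory.hasLeftDualUnit

variable {C : Type u} [Category.{v} C] [Abelian C] [Linear ℂ C]
    [MonoidalCategory C] [MonoidalPreadditive C] [MonoidalLinear ℂ C] [RigidCategory C]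

/-- the left partial trace as a linear map -/
def Pivotal.lpL (δ : Pivotal C) (X A B : C) : (X ⊗ A ⟶ X ⊗ B) →ₗ[ℂ] (A ⟶ B) where
  toFun := δ.lptr X
  map_add' f g := by
    unfold Pivotal.lptr
    simp only [MonoidalPreadditive.whiskerLeft_add, Preadditive.add_comp, Preadditive.comp_add]
  map_smul' a f := by
    unfold Pivotal.lptr
    simp only [MonoidalLinear.whiskerLeft_smul, Linear.smul_comp, Linear.comp_smul,
      RingHom.id_apply]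

lemma Pivotal.lpL_apply (δ : Pivotal C) {X A B : C} (F : X ⊗ A ⟶ X ⊗ B) :
    δ.lpL X A B F = δ.lptr X F := rfl

lemma Pivotal.lptr_add (δ : Pivotal C) {X A B : C} (F G : X ⊗ A ⟶ X ⊗ B) :
    δ.lptr X (F + G) = δ.lptr X F + δ.lptr X G := (δ.lpL X A B).map_add F G

lemma Pivotal.lptr_smul (δ : Pivotal C) {X A B : C} (a : ℂ) (F : X ⊗ A ⟶ X ⊗ B) :
    δ.lptr X (a • F) = a • δ.lptr X F := (δ.lpL X A B).map_smul a F

lemma Pivotal.lptr_zero (δ : Pivotal C) {X A B : C} :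
    δ.lptr X (0 : X ⊗ A ⟶ X ⊗ B) = 0 := (δ.lpL X A B).map_zero

lemma Pivotal.lptr_sum (δ : Pivotal C) {X A B : C} {ι : Type*} (s : Finset ι)
    (F : ι → (X ⊗ A ⟶ X ⊗ B)) :
    δ.lptr X (∑ i ∈ s, F i) = ∑ i ∈ s, δ.lptr X (F i) := map_sum (δ.lpL X A B) F s

namespace Ctx

variable (K : Ctx C)

include K

/-- the left dimension -/
def dim (X : C) : ℂ := K.sc (K.δ.ldim X)

lemma ldim_eq (X : C) : K.δ.ldim X = K.dim X • 𝟙 _ := K.sc_spec _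

/-- the (left) trace -/
def tr {X : C} (f : X ⟶ X) : ℂ := K.sc (K.δ.lptr X (f ▷ 𝟙_ C))

lemma tr_add {X : C} (f g : X ⟶ X) : K.tr (f + g) = K.tr f + K.tr g := by
  unfold tr
  rw [MonoidalPreadditive.add_whiskerRight, Pivotal.lptr_add, map_add]

lemma tr_smul {X : C} (a : ℂ) (f : X ⟶ X) : K.tr (a • f) = a * K.tr f := by
  unfold tr
  rw [MonoidalLinear.smul_whiskerRight, Pivotal.lptr_smul, map_smul, smul_eq_mul]

/-- trace as a linear map -/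
def trL (X : C) : (X ⟶ X) →ₗ[ℂ] ℂ where
  toFun := K.tr
  map_add' := K.tr_add
  map_smul' := K.tr_smul

lemma tr_zero {X : C} : K.tr (0 : X ⟶ X) = 0 := (K.trL X).map_zero

lemma tr_sum {X : C} {ι : Type*} (s : Finset ι) (f : ι → (X ⟶ X)) :
    K.tr (∑ i ∈ s, f i) = ∑ i ∈ s, K.tr (f i) := map_sum (K.trL X) f s

lemma tr_comm {X Y : C} (f : X ⟶ Y) (g : Y ⟶ X) : K.tr (f ≫ g) = K.tr (g ≫ f) := by
  unfold tr
  rw [comp_whiskerRight, comp_whiskerRight, Pivotal.lptr_cyc]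

lemma tr_tensor {X A : C} (F : X ⊗ A ⟶ X ⊗ A) : K.tr F = K.tr (K.δ.lptr X F) := by
  unfold tr
  rw [Pivotal.lptr_tensor, Pivotal.lptr_whisker]

lemma lptr_id (X A : C) : K.δ.lptr X (𝟙 (X ⊗ A)) = K.dim X • 𝟙 A := by
  rw [Pivotal.lptr_id, ldim_eq, MonoidalLinear.smul_whiskerRight]
  simp

lemma lptr_whiskerLeft (X : C) {A B : C} (g : A ⟶ B) : K.δ.lptr X (X ◁ g) = K.dim X • g := by
  have := K.δ.lptr_right (𝟙 (X ⊗ A)) g
  rw [Category.id_comp] at this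
  rw [this, lptr_id]
  simp

lemma tr_id (X : C) : K.tr (𝟙 X) = K.dim X := by
  unfold tr
  rw [id_whiskerRight, lptr_id, map_smul, K.sc_one, smul_eq_mul, mul_one]

lemma tr_unit (f : 𝟙_ C ⟶ 𝟙_ C) : K.tr f = K.sc f := by
  unfold tr
  rw [Pivotal.lptr_unit]
  congr 1
  simp [unitors_inv_equal, unitors_equal]

lemma dim_unit : K.dim (𝟙_ C) = 1 := by
  rw [← K.tr_id, K.tr_unit, K.sc_one]

lemma dim_iso {X Y : C} (e : X ≅ Y) : K.dim X = K.dim Y := by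
  unfold dim; rw [Pivotal.ldim_iso e]

lemma dim_dual (X : C) : K.dim (rightDual X) = K.dim X := by
  unfold dim; rw [K.sph.ldim_dual_eq]

lemma qdim_eq (X : C) : K.δ.qdim X = K.dim X • 𝟙 _ := by
  rw [← K.ldim_eq, K.sph.ldim_eq_qdim]

lemma eta_ev (X : C) : η_ X (rightDual X) ≫ K.δ.ev X = K.dim X • 𝟙 _ := by
  rw [← Pivotal.qdim_eq, qdim_eq]

lemma dim_tensor (X Y : C) : K.dim (X ⊗ Y) = K.dim X * K.dim Y := by
  rw [← K.tr_id, K.tr_tensor, K.lptr_id, K.tr_smul, K.tr_id]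

lemma tr_dec {X : C} (d : Dec K.S X) (y : X ⟶ X) :
    K.tr y = ∑ b, K.tr (d.inc b ≫ y ≫ d.prj b) := by
  conv_lhs => rw [← Category.id_comp y, ← d.sum, Preadditive.sum_comp, K.tr_sum]
  refine Finset.sum_congr rfl fun b _ => ?_
  rw [Category.assoc, K.tr_comm, Category.assoc]

lemma dim_dec {X : C} (d : Dec K.S X) : K.dim X = ∑ b, K.dim (K.S (d.idx b)) := by
  rw [← K.tr_id, K.tr_dec d]
  refine Finset.sum_congr rfl fun b _ => ?_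
  rw [Category.id_comp, d.same, K.tr_id]

/-- morphisms `X ⊗ Y' ⟶ 1` come from morphisms `X ⟶ Y`. -/
lemma eq_ev {X Y : C} (g : X ⊗ (rightDual Y) ⟶ 𝟙_ C) :
    g = (𝟙 _ ⊗≫ X ◁ K.δ.coev Y ⊗≫ g ▷ Y ⊗≫ 𝟙 _ : X ⟶ Y) ▷ (rightDual Y) ≫ K.δ.ev Y := by
  symm
  calc
    _ = 𝟙 _ ⊗≫ X ◁ K.δ.coev Y ▷ (rightDual Y) ⊗≫ (g ▷ (Y ⊗ (rightDual Y)) ≫ 𝟙_ C ◁ K.δ.ev Y) ⊗≫ 𝟙 _ := by
      monoidal
    _ = 𝟙 _ ⊗≫ X ◁ (K.δ.coev Y ▷ (rightDual Y) ⊗≫ (rightDual Y) ◁ K.δ.ev Y) ⊗≫ g ⊗≫ 𝟙 _ := by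
      rw [← whisker_exchange]; monoidal
    _ = _ := by
      rw [Pivotal.zag]; monoidal

/-- morphisms `1 ⟶ Y' ⊗ X` come from morphisms `Y ⟶ X`. -/
lemma eq_coev {X Y : C} (g : 𝟙_ C ⟶ (rightDual Y) ⊗ X) :
    g = K.δ.coev Y ≫ (rightDual Y) ◁ (𝟙 _ ⊗≫ Y ◁ g ⊗≫ K.δ.ev Y ▷ X ⊗≫ 𝟙 _ : Y ⟶ X) := by
  symm
  calc
    _ = 𝟙 _ ⊗≫ (K.δ.coev Y ▷ (𝟙_ C) ≫ ((rightDual Y) ⊗ Y) ◁ g) ⊗≫ (rightDual Y) ◁ K.δ.ev Y ▷ X ⊗≫ 𝟙 _ := by
      monoidal
    _ = 𝟙 _ ⊗≫ g ⊗≫ (K.δ.coev Y ▷ (rightDual Y) ⊗≫ (rightDual Y) ◁ K.δ.ev Y) ▷ X ⊗≫ 𝟙 _ := by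
      rw [← whisker_exchange]; monoidal
    _ = _ := by
      rw [Pivotal.zag]; monoidal

lemma eta_ne_zero (X : C) [Simple X] : η_ X (rightDual X) ≠ 0 := by
  intro h
  have h2 := ExactPairing.evaluation_coevaluation X (rightDual X)
  rw [h] at h2
  apply id_nonzero X
  have h3 : (λ_ X).hom ≫ (ρ_ X).inv = 0 := by
    rw [← h2]; simp
  calc
    𝟙 X = (λ_ X).inv ≫ ((λ_ X).hom ≫ (ρ_ X).inv) ≫ (ρ_ X).hom := by simp
    _ = 0 := by rw [h3]; simp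

lemma dim_ne_zero (X : C) [Simple X] : K.dim X ≠ 0 := by
  have := K.one
  obtain ⟨r, hr⟩ := K.split (η_ X (rightDual X)) (K.eta_ne_zero X)
  obtain ⟨a, ha⟩ := K.scalar X (𝟙 _ ⊗≫ X ◁ K.δ.coev X ⊗≫ r ▷ X ⊗≫ 𝟙 _)
  have h1 := K.eq_ev r
  rw [ha] at h1
  intro h0
  have h2 : η_ X (rightDual X) ≫ r = 0 := by
    rw [h1, MonoidalLinear.smul_whiskerRight, id_whiskerRight]
    simp only [Linear.smul_comp, Linear.comp_smul, Category.id_comp]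
    rw [K.eta_ev, h0, zero_smul, smul_zero]
  rw [h2] at hr
  exact id_nonzero (𝟙_ C) hr.symm

lemma nondeg_simple {X Y : C} [Simple X] [Simple Y] (f : X ⟶ Y)
    (h : ∀ g : Y ⟶ X, K.tr (f ≫ g) = 0) : f = 0 := by
  by_contra hf
  have := isIso_of_hom_simple hf
  have h1 := h (inv f)
  rw [IsIso.hom_inv_id, K.tr_id] at h1
  exact K.dim_ne_zero X h1

lemma nondeg {X Y : C} (f : X ⟶ Y) (h : ∀ g : Y ⟶ X, K.tr (f ≫ g) = 0) : f = 0 := by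
  have h1 : ∀ b c, (K.dec X).inc b ≫ f ≫ (K.dec Y).prj c = 0 := by
    intro b c
    have := K.simple ((K.dec X).idx b)
    have := K.simple ((K.dec Y).idx c)
    apply K.nondeg_simple
    intro g
    have h2 := h ((K.dec Y).prj c ≫ g ≫ (K.dec X).inc b)
    rw [← h2, K.tr_comm f, Category.assoc, Category.assoc, K.tr_comm ((K.dec X).inc b)]
    simp only [Category.assoc]
    rw [K.tr_comm]
    simp only [Category.assoc]
  calc
    f = (∑ b, (K.dec X).prj b ≫ (K.dec X).inc b) ≫ f ≫ ∑ c, (K.dec Y).prj c ≫ (K.dec Y).inc c := by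
      rw [(K.dec X).sum, (K.dec Y).sum]; simp
    _ = ∑ b, ∑ c, (K.dec X).prj b ≫ ((K.dec X).inc b ≫ f ≫ (K.dec Y).prj c) ≫
          (K.dec Y).inc c := by
      simp only [Preadditive.sum_comp, Preadditive.comp_sum, Category.assoc]
      rw [Finset.sum_comm]
    _ = 0 := by
      simp [h1]

lemma nondeg_eq {X Y : C} (f f' : X ⟶ Y) (h : ∀ g : Y ⟶ X, K.tr (f ≫ g) = K.tr (f' ≫ g)) :
    f = f' := by
  rw [← sub_eq_zero]
  apply K.nondeg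
  intro g
  rw [Preadditive.sub_comp]
  have := (K.trL X).map_sub (f ≫ g) (f' ≫ g)
  exact this.trans (sub_eq_zero.mpr (h g))

end Ctx

end Pool.Agent.H386
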