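import Pool.Agent.H386.TN2

set_option autoImplicit false
set_option linter.unusedSectionVars false

open CategoryTheory CategoryTheory.Limits MonoidalCategory

namespace Pool.Agent.H386

universe v u

open CategoryTheory.HasRightDual (rightDual)

attribute [-instance] CategoryTheory.hasRightDualUnit CategoryTheory.hasLeftDualUnit

section

variable {C : Type u} [Category.{v} C] [MonoidalCategory C] [RigidCategory C]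

/-- The twist of a center object. -/
def Pivotal.θ (δ : Pivotal C) (Z : Cen C) : Z.X ⟶ Z.X := δ.lptr Z.X (Z.b Z.X)

namespace Pivotal

variable (δ : Pivotal C) (Z Y : Cen C)

lemma comp_θ {V : C} (f : V ⟶ Z.X) : f ≫ δ.θ Z = δ.lptr V (f ▷ V ≫ Z.b V) := by
  unfold θ
  rw [← lptr_left, Z.nat, lptr_cyc]

variable {Z Y} in
lemma θ_nat {g : Z.X ⟶ Y.X} (hg : Z.IsHom Y g) : g ≫ δ.θ Y = δ.θ Z ≫ g := by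
  rw [comp_θ, hg, lptr_right]; rfl

lemma unit_comp_θ (f : 𝟙_ C ⟶ Z.X) : f ≫ δ.θ Z = f := by
  rw [comp_θ, lptr_unit, Z.b_unit]
  simp [unitors_inv_equal]

lemma slide_U (U : C) {A B : C} (H : U ⊗ B ⟶ U ⊗ A) :
    δ.lptr U ((α_ _ _ _).inv ≫ Z.c U ▷ B ≫ (α_ _ _ _).hom ≫ Z.X ◁ H ≫ (α_ _ _ _).inv ≫
      Z.b U ▷ A ≫ (α_ _ _ _).hom) = Z.X ◁ δ.lptr U H := by
  have h1 : (𝟙 _ ⊗≫ δ.coev U ▷ Z.X ⊗≫ (rightDual U) ◁ Z.c U ⊗≫ 𝟙 _ : Z.X ⟶ (rightDual U) ⊗ (Z.X ⊗ U)) =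
      𝟙 _ ⊗≫ Z.X ◁ δ.coev U ⊗≫ Z.b (rightDual U) ▷ U ⊗≫ 𝟙 _ := by
    calc
      _ = 𝟙 _ ⊗≫ (Z.b (𝟙_ C) ≫ δ.coev U ▷ Z.X) ⊗≫ (rightDual U) ◁ Z.c U ⊗≫ 𝟙 _ := by
        rw [Z.b_unit]; monoidal
      _ = 𝟙 _ ⊗≫ Z.X ◁ δ.coev U ⊗≫ Z.b (rightDual U) ▷ U ⊗≫ (rightDual U) ◁ (Z.b U ≫ Z.c U) ⊗≫ 𝟙 _ := by
        rw [← Z.nat, Z.tens]; monoidal
      _ = _ := by rw [Z.b_c]; monoidal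
  have h2 : (𝟙 _ ⊗≫ (rightDual U) ◁ Z.b U ⊗≫ ε_ U (rightDual U) ▷ Z.X ⊗≫ 𝟙 _ : (rightDual U) ⊗ (Z.X ⊗ U) ⟶ Z.X) =
      𝟙 _ ⊗≫ Z.c (rightDual U) ▷ U ⊗≫ Z.X ◁ ε_ U (rightDual U) ⊗≫ 𝟙 _ := by
    symm
    calc
      _ = 𝟙 _ ⊗≫ Z.c (rightDual U) ▷ U ⊗≫ (Z.X ◁ ε_ U (rightDual U) ≫ Z.b (𝟙_ C)) ⊗≫ 𝟙 _ := by
        rw [Z.b_unit]; monoidal
      _ = 𝟙 _ ⊗≫ (Z.c (rightDual U) ≫ Z.b (rightDual U)) ▷ U ⊗≫ (rightDual U) ◁ Z.b U ⊗≫ ε_ U (rightDual U) ▷ Z.X ⊗≫ 𝟙 _ := by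
        rw [Z.nat, Z.tens]; monoidal
      _ = _ := by rw [Z.c_b]; monoidal
  calc
    _ = 𝟙 _ ⊗≫ (𝟙 _ ⊗≫ δ.coev U ▷ Z.X ⊗≫ (rightDual U) ◁ Z.c U ⊗≫ 𝟙 _ : Z.X ⟶ (rightDual U) ⊗ (Z.X ⊗ U)) ▷ B ⊗≫
          (rightDual U) ◁ Z.X ◁ H ⊗≫
          (𝟙 _ ⊗≫ (rightDual U) ◁ Z.b U ⊗≫ ε_ U (rightDual U) ▷ Z.X ⊗≫ 𝟙 _ : (rightDual U) ⊗ (Z.X ⊗ U) ⟶ Z.X) ▷ A ⊗≫ 𝟙 _ := by
      rw [lptr_eq]; monoidal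
    _ = 𝟙 _ ⊗≫ Z.X ◁ δ.coev U ▷ B ⊗≫ (Z.b (rightDual U) ▷ (U ⊗ B) ≫ ((rightDual U) ⊗ Z.X) ◁ H) ⊗≫
          Z.c (rightDual U) ▷ (U ⊗ A) ⊗≫ Z.X ◁ ε_ U (rightDual U) ▷ A ⊗≫ 𝟙 _ := by
      rw [h1, h2]; monoidal
    _ = 𝟙 _ ⊗≫ Z.X ◁ δ.coev U ▷ B ⊗≫ Z.X ◁ (rightDual U) ◁ H ⊗≫ (Z.b (rightDual U) ≫
          Z.c (rightDual U)) ▷ (U ⊗ A) ⊗≫ Z.X ◁ ε_ U (rightDual U) ▷ A ⊗≫ 𝟙 _ := by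
      rw [← whisker_exchange]; monoidal
    _ = _ := by
      rw [Z.b_c, lptr_eq]; monoidal

/-- The balancing axiom. -/
lemma θ_tensor : δ.θ (Z.tensor Y) =
    δ.θ Z ▷ Y.X ≫ Z.b Y.X ≫ δ.θ Y ▷ Z.X ≫ Y.b Z.X := by
  have e1 : ∀ (Z Y : Cen C), δ.lptr Z.X ((𝟙 _ ⊗≫ Z.b Z.X ▷ Y.X ⊗≫ Z.X ◁ Z.b Y.X ⊗≫ 𝟙 _ :
      Z.X ⊗ (Z.X ⊗ Y.X) ⟶ Z.X ⊗ (Y.X ⊗ Z.X))) = δ.θ Z ▷ Y.X ≫ Z.b Y.X := by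
    intro Z Y
    unfold θ
    rw [lptr_whisker, ← lptr_right]
    congr 1
    monoidal
  have h1 : δ.lptr Z.X ((α_ Z.X Y.X (Z.X ⊗ Y.X)).inv ≫
      (𝟙 _ ⊗≫ Z.X ◁ Y.b (Z.X ⊗ Y.X) ⊗≫ Z.b (Z.X ⊗ Y.X) ▷ Y.X ⊗≫ 𝟙 _ :
        (Z.X ⊗ Y.X) ⊗ (Z.X ⊗ Y.X) ⟶ (Z.X ⊗ Y.X) ⊗ (Z.X ⊗ Y.X)) ≫
        (α_ Z.X Y.X (Z.X ⊗ Y.X)).hom) =
      Y.b (Z.X ⊗ Y.X) ≫ (δ.θ Z ▷ Y.X ≫ Z.b Y.X) ▷ Y.X ≫ (α_ _ _ _).hom := by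
    rw [← e1, lptr_whisker, ← lptr_right, ← lptr_left]
    congr 1
    rw [Z.tens]
    monoidal
  have h0 : δ.θ (Z.tensor Y) = δ.lptr (Z.X ⊗ Y.X) (𝟙 _ ⊗≫ Z.X ◁ Y.b (Z.X ⊗ Y.X) ⊗≫
      Z.b (Z.X ⊗ Y.X) ▷ Y.X ⊗≫ 𝟙 _ : (Z.X ⊗ Y.X) ⊗ (Z.X ⊗ Y.X) ⟶ (Z.X ⊗ Y.X) ⊗ (Z.X ⊗ Y.X)) := by
    change δ.lptr (Z.X ⊗ Y.X) ((Z.tensor Y).b (Z.X ⊗ Y.X)) = _
    congr 1
    rw [Cen.tensor_b]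
    monoidal
  rw [h0, lptr_tensor, h1]
  have h2 : Y.b (Z.X ⊗ Y.X) ≫ (δ.θ Z ▷ Y.X ≫ Z.b Y.X) ▷ Y.X ≫ (α_ _ _ _).hom =
      Y.X ◁ (δ.θ Z ▷ Y.X ≫ Z.b Y.X) ≫ (𝟙 _ ⊗≫ Y.b Y.X ▷ Z.X ⊗≫ Y.X ◁ Y.b Z.X ⊗≫ 𝟙 _ :
      Y.X ⊗ (Y.X ⊗ Z.X) ⟶ Y.X ⊗ (Z.X ⊗ Y.X)) := by
    rw [← Category.assoc, ← Y.nat, Y.tens]
    monoidal
  rw [h2, lptr_left, e1]
  simp only [Category.assoc]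

end Pivotal

end

variable {C : Type u} [Category.{v} C] [Abelian C] [Linear ℂ C]
    [MonoidalCategory C] [MonoidalPreadditive C] [MonoidalLinear ℂ C] [RigidCategory C]

namespace Ctx

variable (K : Ctx C)

include K in
lemma slide_Z (Z : Cen C) (U : C) {A B : C} (F : Z.X ⊗ A ⟶ Z.X ⊗ B) :
    K.δ.lptr Z.X ((α_ _ _ _).inv ≫ Z.b U ▷ A ≫ (α_ _ _ _).hom ≫ U ◁ F ≫ (α_ _ _ _).inv ≫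
      Z.c U ▷ B ≫ (α_ _ _ _).hom) = U ◁ K.δ.lptr Z.X F := by
  apply K.nondeg_eq
  intro g
  rw [K.tr_tensor, K.tr_tensor (U ◁ _ ≫ g)]
  congr 1
  rw [Pivotal.lptr_left, ← Pivotal.lptr_right]
  have h1 : ∀ M : Z.X ⊗ (U ⊗ A) ⟶ Z.X ⊗ (U ⊗ A), K.δ.lptr U (K.δ.lptr Z.X M) =
      K.δ.lptr (Z.X ⊗ U) ((α_ _ _ _).hom ≫ M ≫ (α_ _ _ _).inv) := by
    intro M
    rw [Pivotal.lptr_tensor]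
    simp
  rw [h1]
  calc
    _ = K.δ.lptr (Z.X ⊗ U) (Z.b U ▷ A ≫ ((α_ _ _ _).hom ≫ U ◁ F ≫ (α_ _ _ _).inv ≫
      Z.c U ▷ B ≫ (α_ _ _ _).hom ≫ Z.X ◁ g ≫ (α_ _ _ _).inv)) := by
      simp
    _ = K.δ.lptr Z.X (K.δ.lptr U (U ◁ F ≫ ((α_ _ _ _).inv ≫ Z.c U ▷ B ≫ (α_ _ _ _).hom ≫
          Z.X ◁ g ≫ (α_ _ _ _).inv ≫ Z.b U ▷ A ≫ (α_ _ _ _).hom))) := by
      rw [Pivotal.lptr_cyc, Pivotal.lptr_tensor]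
      simp
    _ = _ := by
      rw [Pivotal.lptr_left, K.δ.slide_U, Pivotal.lptr_right]

/-- The twist is a morphism in the center. -/
lemma θ_hom (Z : Cen C) : Z.IsHom Z (K.δ.θ Z) := by
  intro U
  have h := K.slide_Z Z U (Z.b Z.X)
  have h2 : Z.c U ≫ K.δ.θ Z ▷ U ≫ Z.b U = U ◁ K.δ.θ Z := by
    unfold Pivotal.θ
    rw [← h, Pivotal.lptr_whisker, ← Pivotal.lptr_right, ← Pivotal.lptr_left]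
    congr 1
    calc
      _ = Z.X ◁ Z.c U ≫ Z.b (Z.X ⊗ U) ≫ (α_ _ _ _).hom := by
        rw [Z.tens]; monoidal
      _ = Z.b (U ⊗ Z.X) ≫ Z.c U ▷ Z.X ≫ (α_ _ _ _).hom := by
        rw [← Category.assoc, Z.nat, Category.assoc]
      _ = _ := by
        rw [Z.tens]; monoidal
  rw [← h2, Z.b_c_assoc]

end Ctx

end Pool.Agent.H386
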