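import Pool.Agent.H386.CEnd
import Pool.Agent.H386.Det

set_option autoImplicit false
set_option linter.unusedSectionVars false

open CategoryTheory CategoryTheory.Limits MonoidalCategory

namespace Pool.Agent.H386

universe v u

open CategoryTheory.HasRightDual (rightDual)

attribute [-instance] CategoryTheory.hasRightDualUnit CategoryTheory.hasLeftDualUnit

variable {C : Type u} [Category.{v} C] [Abelian C] [Linear ℂ C]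
    [MonoidalCategory C] [MonoidalPreadditive C] [MonoidalLinear ℂ C] [RigidCategory C]

namespace Ctx

variable (K : Ctx C)

/-- postcomposition as an algebra homomorphism -/
def post (X Y : C) : End Y →ₐ[ℂ] Module.End ℂ (X ⟶ Y) where
  toFun f := Linear.rightComp ℂ X f
  map_one' := by ext g; exact Category.comp_id g
  map_mul' f f' := by
    ext g
    exact (Category.assoc g f' f).symm
  map_zero' := by ext g; exact comp_zero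
  map_add' f f' := by ext g; exact Preadditive.comp_add _ _ _ g f f'
  commutes' a := by
    ext g
    change g ≫ (algebraMap ℂ (End Y) a) = _
    rw [Algebra.algebraMap_eq_smul_one, Linear.comp_smul, Module.algebraMap_end_apply]
    congr 1
    exact Category.comp_id g

/-- whiskering as an algebra homomorphism -/
def whisk (X Y : C) : End X →ₐ[ℂ] End (X ⊗ Y) where
  toFun f := (f ▷ Y : X ⊗ Y ⟶ X ⊗ Y)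
  map_one' := id_whiskerRight X Y
  map_mul' f f' := comp_whiskerRight (W := X) f' f Y
  map_zero' := MonoidalPreadditive.zero_whiskerRight
  map_add' f f' := MonoidalPreadditive.add_whiskerRight f f'
  commutes' a := by
    rw [Algebra.algebraMap_eq_smul_one, Algebra.algebraMap_eq_smul_one]
    exact (MonoidalLinear.smul_whiskerRight a (𝟙 X) Y).trans
      (congrArg (a • ·) (id_whiskerRight X Y))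

/-- norm of an endomorphism -/
noncomputable def nm {X : C} (f : X ⟶ X) : ℂ := LinearMap.det (post X X f)

lemma nm_comp {X : C} (f g : X ⟶ X) : nm (f ≫ g) = nm f * nm g := by
  unfold nm
  have : post X X (f ≫ g) = post X X g * post X X f := (post X X).map_mul g f
  rw [this, map_mul, mul_comm]

lemma nm_id (X : C) : nm (𝟙 X) = 1 := by
  unfold nm
  have : post X X (𝟙 X) = 1 := (post X X).map_one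
  rw [this, map_one]

lemma nm_smul {X : C} (a : ℂ) (f : X ⟶ X) :
    nm (a • f) = a ^ (Module.finrank ℂ (X ⟶ X)) * nm f := by
  unfold nm
  have : post X X (a • f) = a • post X X f := map_smul (post X X) a f
  rw [this, LinearMap.det_smul]

lemma nm_ne_zero {X : C} (f g : X ⟶ X) (h : f ≫ g = 𝟙 X) : nm f ≠ 0 := by
  have h1 := nm_comp f g
  rw [h, nm_id] at h1
  exact left_ne_zero_of_mul (h1 ▸ one_ne_zero)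

lemma nm_braid {X : C} (f g : X ⟶ X) (hf : nm f ≠ 0) (hg : nm g ≠ 0)
    (h : f ≫ g ≫ f = g ≫ f ≫ g) : nm f = nm g := by
  have h1 : nm f * (nm g * nm f) = nm g * (nm f * nm g) := by
    rw [← nm_comp, ← nm_comp, h, nm_comp, nm_comp]
  have h2 : (nm f - nm g) * (nm f * nm g) = 0 := by linear_combination h1
  rcases mul_eq_zero.mp h2 with h | h
  · exact sub_eq_zero.mp h
  · exact absurd h (mul_ne_zero hf hg)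

section bounds

variable (q : Polynomial ℂ) (m M : ℝ) (hm : 0 ≤ m) (hq : ∀ μ, q.IsRoot μ → m ≤ ‖μ‖ ∧ ‖μ‖ ≤ M)

include K hm hq

lemma nm_bounds {X : C} (f : End X) (hf : Polynomial.aeval f q = 0) :
    m ^ (Module.finrank ℂ (X ⟶ X)) ≤ ‖nm (X := X) f‖ ∧
      ‖nm (X := X) f‖ ≤ M ^ (Module.finrank ℂ (X ⟶ X)) := by
  have := K.fd
  apply Alg.det_bounds _ _ _ hm
  intro μ hμ
  apply hq
  apply Alg.eigen_root _ q _ μ hμ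
  have : Polynomial.aeval (post X X f) q = post X X (Polynomial.aeval f q) :=
    Polynomial.aeval_algHom_apply (post X X) f q
  rw [this, hf, map_zero]

lemma nm_bounds_whisk {X : C} (f : End X) (hf : Polynomial.aeval f q = 0) (Y : C) :
    m ^ (Module.finrank ℂ (X ⊗ Y ⟶ X ⊗ Y)) ≤ ‖nm (X := X ⊗ Y) (whisk X Y f)‖ ∧
      ‖nm (X := X ⊗ Y) (whisk X Y f)‖ ≤ M ^ (Module.finrank ℂ (X ⊗ Y ⟶ X ⊗ Y)) := by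
  apply K.nm_bounds q m M hm hq
  rw [Polynomial.aeval_algHom_apply, hf, map_zero]

end bounds

/-- the twist as element of the endomorphism algebra -/
def θE (Z : Cen C) : End Z.X := K.δ.θ Z

include K in
lemma tensor_ne_zero {X Y : C} (hX : 𝟙 X ≠ 0) (hY : 𝟙 Y ≠ 0) : 𝟙 (X ⊗ Y) ≠ 0 := by
  intro h
  -- a simple summand of `Y`
  have h1 : ∃ b, (K.dec Y).prj b ≠ 0 := by
    by_contra hb
    push Not at hb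
    apply hY
    rw [← (K.dec Y).sum]
    refine Finset.sum_eq_zero fun b _ => ?_
    rw [hb b, zero_comp]
  obtain ⟨b, hb⟩ := h1
  have := K.simple ((K.dec Y).idx b)
  set S := K.S ((K.dec Y).idx b) with hS
  have h2 : 𝟙 (X ⊗ S) = 0 := by
    calc
      𝟙 (X ⊗ S) = X ◁ ((K.dec Y).inc b) ≫ 𝟙 (X ⊗ Y) ≫ X ◁ ((K.dec Y).prj b) := by
        rw [Category.id_comp, ← MonoidalCategory.whiskerLeft_comp, (K.dec Y).same,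
          MonoidalCategory.whiskerLeft_id]
      _ = 0 := by rw [h]; simp
  have h3 : X ◁ (η_ S (rightDual S) ≫ K.δ.ev S) = 0 := by
    calc
      _ = 𝟙 _ ⊗≫ X ◁ η_ S (rightDual S) ⊗≫ (𝟙 (X ⊗ S)) ▷ (rightDual S) ⊗≫ X ◁ K.δ.ev S ⊗≫ 𝟙 _ := by monoidal
      _ = 0 := by rw [h2]; simp [monoidalComp]
  rw [K.eta_ev, MonoidalLinear.whiskerLeft_smul, MonoidalCategory.whiskerLeft_id] at h3
  rcases smul_eq_zero.mp h3 with h4 | h4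
  · exact K.dim_ne_zero S h4
  · apply hX
    calc
      𝟙 X = (ρ_ X).inv ≫ 𝟙 (X ⊗ 𝟙_ C) ≫ (ρ_ X).hom := by simp
      _ = 0 := by rw [h4]; simp

lemma eta_ne_zero' {X : C} (hX : 𝟙 X ≠ 0) : η_ X (rightDual X) ≠ 0 := by
  intro h
  have h2 := ExactPairing.evaluation_coevaluation X (rightDual X)
  rw [h] at h2
  apply hX
  have h3 : (λ_ X).hom ≫ (ρ_ X).inv = 0 := by
    rw [← h2]; simp
  calc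
    𝟙 X = (λ_ X).inv ≫ ((λ_ X).hom ≫ (ρ_ X).inv) ≫ (ρ_ X).hom := by simp
    _ = 0 := by rw [h3]; simp

/-- the twist does not vanish -/
lemma θ_ne_zero (Z : Cen C) (hZ : 𝟙 Z.X ≠ 0) : K.δ.θ Z ≠ 0 := by
  intro h
  let F := K.J (rightDual Z.X)
  have h1 : (η_ Z.X (rightDual Z.X) ≫ Z.X ◁ F.u) ≫ K.δ.θ (Z.tensor F.Z) = η_ Z.X (rightDual Z.X) ≫ Z.X ◁ F.u :=
    K.δ.unit_comp_θ (Z.tensor F.Z) _
  rw [Pivotal.θ_tensor, h, MonoidalPreadditive.zero_whiskerRight] at h1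
  have h2 : η_ Z.X (rightDual Z.X) ≫ Z.X ◁ F.u = 0 := by rw [← h1]; simp
  apply eta_ne_zero' hZ
  calc
    η_ Z.X (rightDual Z.X) = (η_ Z.X (rightDual Z.X) ≫ Z.X ◁ F.u) ≫ Z.X ◁ F.p := by
      rw [Category.assoc, ← MonoidalCategory.whiskerLeft_comp, F.u_p,
        MonoidalCategory.whiskerLeft_id, Category.comp_id]
    _ = 0 := by rw [h2, zero_comp]

/-- The fundamental estimate. -/
theorem key_bounds (q : Polynomial ℂ) (m M : ℝ) (hm : 0 ≤ m)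
    (hq : ∀ μ, q.IsRoot μ → m ≤ ‖μ‖ ∧ ‖μ‖ ≤ M)
    (hW : ∀ W : Cen C, Polynomial.aeval (K.θE W) q = 0)
    (Z : Cen C) (hZ : 𝟙 Z.X ≠ 0) (μ : ℂ) (hμ : K.δ.θ Z = μ • 𝟙 Z.X) :
    ∃ s : ℝ, 0 < s ∧
      m ^ Module.finrank ℂ ((Z.X ⊗ Z.X) ⊗ (Z.X ⊗ Z.X) ⟶ (Z.X ⊗ Z.X) ⊗ (Z.X ⊗ Z.X)) ≤
        ‖μ‖ ^ (2 * Module.finrank ℂ ((Z.X ⊗ Z.X) ⊗ (Z.X ⊗ Z.X) ⟶ (Z.X ⊗ Z.X) ⊗ (Z.X ⊗ Z.X))) * s ∧
      ‖μ‖ ^ (2 * Module.finrank ℂ ((Z.X ⊗ Z.X) ⊗ (Z.X ⊗ Z.X) ⟶ (Z.X ⊗ Z.X) ⊗ (Z.X ⊗ Z.X))) * s ≤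
        M ^ Module.finrank ℂ ((Z.X ⊗ Z.X) ⊗ (Z.X ⊗ Z.X) ⟶ (Z.X ⊗ Z.X) ⊗ (Z.X ⊗ Z.X)) ∧
      m ^ Module.finrank ℂ ((Z.X ⊗ Z.X) ⊗ (Z.X ⊗ Z.X) ⟶ (Z.X ⊗ Z.X) ⊗ (Z.X ⊗ Z.X)) ≤
        ‖μ‖ ^ (4 * Module.finrank ℂ ((Z.X ⊗ Z.X) ⊗ (Z.X ⊗ Z.X) ⟶ (Z.X ⊗ Z.X) ⊗ (Z.X ⊗ Z.X))) *
          s ^ 6 ∧
      ‖μ‖ ^ (4 * Module.finrank ℂ ((Z.X ⊗ Z.X) ⊗ (Z.X ⊗ Z.X) ⟶ (Z.X ⊗ Z.X) ⊗ (Z.X ⊗ Z.X))) *
          s ^ 6 ≤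
        M ^ Module.finrank ℂ ((Z.X ⊗ Z.X) ⊗ (Z.X ⊗ Z.X) ⟶ (Z.X ⊗ Z.X) ⊗ (Z.X ⊗ Z.X)) := by
  set N := Module.finrank ℂ ((Z.X ⊗ Z.X) ⊗ (Z.X ⊗ Z.X) ⟶ (Z.X ⊗ Z.X) ⊗ (Z.X ⊗ Z.X)) with hN
  let W := Z.tensor Z
  let c := Z.b Z.X
  let c' := Z.c Z.X
  have hcc : c ≫ c' = 𝟙 _ := Z.b_c _
  let c1 : (Z.X ⊗ Z.X) ⊗ (Z.X ⊗ Z.X) ⟶ (Z.X ⊗ Z.X) ⊗ (Z.X ⊗ Z.X) := c ▷ (Z.X ⊗ Z.X)
  let c2 : (Z.X ⊗ Z.X) ⊗ (Z.X ⊗ Z.X) ⟶ (Z.X ⊗ Z.X) ⊗ (Z.X ⊗ Z.X) := 𝟙 _ ⊗≫ Z.X ◁ c ▷ Z.X ⊗≫ 𝟙 _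
  let c3 : (Z.X ⊗ Z.X) ⊗ (Z.X ⊗ Z.X) ⟶ (Z.X ⊗ Z.X) ⊗ (Z.X ⊗ Z.X) := (Z.X ⊗ Z.X) ◁ c
  have hyb : c ▷ Z.X ≫ (α_ _ _ _).hom ≫ Z.X ◁ c ≫ (α_ _ _ _).inv ≫ c ▷ Z.X =
      (α_ _ _ _).hom ≫ Z.X ◁ c ≫ (α_ _ _ _).inv ≫ c ▷ Z.X ≫ (α_ _ _ _).hom ≫ Z.X ◁ c ≫
        (α_ _ _ _).inv := by
    have h := Z.nat c
    rw [Z.tens] at h
    calc
      _ = (α_ _ _ _).hom ≫ (𝟙 _ ⊗≫ c ▷ Z.X ⊗≫ Z.X ◁ c ⊗≫ 𝟙 _ :
          Z.X ⊗ (Z.X ⊗ Z.X) ⟶ (Z.X ⊗ Z.X) ⊗ Z.X) ≫ c ▷ Z.X := by monoidal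
      _ = _ := by
        rw [← h]; monoidal
  have h12 : c1 ≫ c2 ≫ c1 = c2 ≫ c1 ≫ c2 := by
    calc
      _ = 𝟙 _ ⊗≫ (c ▷ Z.X ≫ (α_ _ _ _).hom ≫ Z.X ◁ c ≫ (α_ _ _ _).inv ≫ c ▷ Z.X) ▷ Z.X ⊗≫
          𝟙 _ := by monoidal
      _ = _ := by rw [hyb]; monoidal
  have h23 : c2 ≫ c3 ≫ c2 = c3 ≫ c2 ≫ c3 := by
    calc
      _ = 𝟙 _ ⊗≫ Z.X ◁ (c ▷ Z.X ≫ (α_ _ _ _).hom ≫ Z.X ◁ c ≫ (α_ _ _ _).inv ≫ c ▷ Z.X) ⊗≫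
          𝟙 _ := by monoidal
      _ = _ := by rw [hyb]; monoidal
  have n1 : nm c1 ≠ 0 := nm_ne_zero c1 (c' ▷ (Z.X ⊗ Z.X)) (by
    rw [← comp_whiskerRight, hcc, id_whiskerRight])
  have n2 : nm c2 ≠ 0 := nm_ne_zero c2 (𝟙 _ ⊗≫ Z.X ◁ c' ▷ Z.X ⊗≫ 𝟙 _) (by
    calc
      _ = 𝟙 _ ⊗≫ Z.X ◁ (c ≫ c') ▷ Z.X ⊗≫ 𝟙 _ := by monoidal
      _ = _ := by rw [hcc]; monoidal)
  have n3 : nm c3 ≠ 0 := nm_ne_zero c3 ((Z.X ⊗ Z.X) ◁ c') (by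
    rw [← MonoidalCategory.whiskerLeft_comp, hcc, MonoidalCategory.whiskerLeft_id])
  have e12 : nm c1 = nm c2 := nm_braid _ _ n1 n2 h12
  have e23 : nm c2 = nm c3 := nm_braid _ _ n2 n3 h23
  -- the twist of `W`
  have hθW : K.δ.θ W = (μ * μ) • (c ≫ c) := by
    rw [Pivotal.θ_tensor, hμ]
    simp only [MonoidalLinear.smul_whiskerRight, id_whiskerRight, Linear.smul_comp,
      Linear.comp_smul, Category.id_comp, smul_smul]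
    rfl
  have hwW : whisk (Z.X ⊗ Z.X) (Z.X ⊗ Z.X) (K.δ.θ W : End (Z.X ⊗ Z.X)) =
      (μ * μ) • (c1 ≫ c1) := by
    refine (congrArg (fun f : Z.X ⊗ Z.X ⟶ Z.X ⊗ Z.X => f ▷ (Z.X ⊗ Z.X)) hθW).trans ?_
    change ((μ * μ) • (c ≫ c)) ▷ (Z.X ⊗ Z.X) = _
    rw [MonoidalLinear.smul_whiskerRight, comp_whiskerRight]
  have hbW : W.b (Z.X ⊗ Z.X) = c2 ≫ c3 ≫ c1 ≫ c2 := by
    rw [Cen.tensor_b, Z.tens]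
    monoidal
  have hθWW : K.δ.θ (W.tensor W) = ((μ * μ) • (c1 ≫ c1)) ≫ (c2 ≫ c3 ≫ c1 ≫ c2) ≫
      ((μ * μ) • (c1 ≫ c1)) ≫ (c2 ≫ c3 ≫ c1 ≫ c2) := by
    rw [Pivotal.θ_tensor, ← hbW, ← hwW]
    rfl
  have hn1 : nm (X := (Z.X ⊗ Z.X) ⊗ (Z.X ⊗ Z.X)) ((μ * μ) • (c1 ≫ c1)) =
      μ ^ (2 * N) * nm c1 ^ 2 := by
    rw [nm_smul, nm_comp]
    ring
  have hn2 : nm (c2 ≫ c3 ≫ c1 ≫ c2) = nm c1 ^ 4 := by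
    rw [nm_comp, nm_comp, nm_comp, ← e23, ← e12]
    ring
  have hn3 : nm (X := (Z.X ⊗ Z.X) ⊗ (Z.X ⊗ Z.X)) (K.δ.θ (W.tensor W)) =
      μ ^ (4 * N) * (nm c1 ^ 2) ^ 6 := by
    have key : ∀ A B : (Z.X ⊗ Z.X) ⊗ (Z.X ⊗ Z.X) ⟶ (Z.X ⊗ Z.X) ⊗ (Z.X ⊗ Z.X),
        nm (A ≫ B ≫ A ≫ B) = nm A ^ 2 * nm B ^ 2 := by
      intro A B
      rw [nm_comp, nm_comp, nm_comp]; ring
    rw [hθWW, key, hn1, hn2]
    ring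
  have b1 := K.nm_bounds_whisk q m M hm hq (K.δ.θ W : End (Z.X ⊗ Z.X)) (hW W) (Z.X ⊗ Z.X)
  have b2 := K.nm_bounds q m M hm hq (X := (Z.X ⊗ Z.X) ⊗ (Z.X ⊗ Z.X)) (K.δ.θ (W.tensor W))
    (hW (W.tensor W))
  have b1' : m ^ N ≤ ‖nm (X := (Z.X ⊗ Z.X) ⊗ (Z.X ⊗ Z.X)) ((μ * μ) • (c1 ≫ c1))‖ ∧
      ‖nm (X := (Z.X ⊗ Z.X) ⊗ (Z.X ⊗ Z.X)) ((μ * μ) • (c1 ≫ c1))‖ ≤ M ^ N := by
    rw [← hwW]
    exact b1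
  rw [hn1] at b1'
  rw [hn3] at b2
  refine ⟨‖nm c1 ^ 2‖, norm_pos_iff.mpr (pow_ne_zero 2 n1), ?_, ?_, ?_, ?_⟩
  · simpa [norm_mul, norm_pow] using b1'.1
  · simpa [norm_mul, norm_pow] using b1'.2
  · simpa [norm_mul, norm_pow] using b2.1
  · simpa [norm_mul, norm_pow] using b2.2

/-- Unimodularity of twists. -/
theorem unimodular (Θ : Finset ℂ)
    (hW : ∀ W : Cen C, Polynomial.aeval (K.θE W)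
      (∏ μ ∈ Θ, (Polynomial.X - Polynomial.C μ)) = 0)
    (hex : ∀ μ ∈ Θ, ∃ Z : Cen C, 𝟙 Z.X ≠ 0 ∧ K.δ.θ Z = μ • 𝟙 Z.X) (μ : ℂ) (hμ : μ ∈ Θ) :
    ‖μ‖ = 1 := by
  have hne : Θ.Nonempty := ⟨μ, hμ⟩
  obtain ⟨μ1, hμ1, hmax⟩ := Finset.exists_max_image Θ (fun μ => ‖μ‖) hne
  obtain ⟨μ2, hμ2, hmin⟩ := Finset.exists_min_image Θ (fun μ => ‖μ‖) hne
  have hpos : ∀ μ ∈ Θ, 0 < ‖μ‖ := by
    intro μ hμ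
    obtain ⟨Z, hZ, hZθ⟩ := hex μ hμ
    have h := K.θ_ne_zero Z hZ
    rw [hZθ] at h
    rw [norm_pos_iff]
    intro h0
    rw [h0, zero_smul] at h
    exact h rfl
  have hq : ∀ ν, (∏ μ ∈ Θ, (Polynomial.X - Polynomial.C μ)).IsRoot ν →
      ‖μ2‖ ≤ ‖ν‖ ∧ ‖ν‖ ≤ ‖μ1‖ := by
    intro ν hν
    rw [Polynomial.IsRoot, Polynomial.eval_prod, Finset.prod_eq_zero_iff] at hν
    obtain ⟨μ', hμ', h⟩ := hν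
    rw [Polynomial.eval_sub, Polynomial.eval_X, Polynomial.eval_C, sub_eq_zero] at h
    rw [h]
    exact ⟨hmin μ' hμ', hmax μ' hμ'⟩
  obtain ⟨Z1, hZ1, hθ1⟩ := hex μ1 hμ1
  obtain ⟨Z2, hZ2, hθ2⟩ := hex μ2 hμ2
  obtain ⟨s1, hs1, a1, a2, a3, a4⟩ := K.key_bounds _ ‖μ2‖ ‖μ1‖ (norm_nonneg _) hq hW Z1 hZ1 μ1 hθ1
  obtain ⟨s2, hs2, b1, b2, b3, b4⟩ := K.key_bounds _ ‖μ2‖ ‖μ1‖ (norm_nonneg _) hq hW Z2 hZ2 μ2 hθ2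
  have hN : ∀ Z : Cen C, 𝟙 Z.X ≠ 0 →
      0 < Module.finrank ℂ ((Z.X ⊗ Z.X) ⊗ (Z.X ⊗ Z.X) ⟶ (Z.X ⊗ Z.X) ⊗ (Z.X ⊗ Z.X)) := by
    intro Z hZ
    have := K.fd
    have h1 : 𝟙 ((Z.X ⊗ Z.X) ⊗ (Z.X ⊗ Z.X)) ≠ 0 :=
      K.tensor_ne_zero (K.tensor_ne_zero hZ hZ) (K.tensor_ne_zero hZ hZ)
    have : Nontrivial ((Z.X ⊗ Z.X) ⊗ (Z.X ⊗ Z.X) ⟶ (Z.X ⊗ Z.X) ⊗ (Z.X ⊗ Z.X)) := ⟨_, _, h1⟩
    exact Module.finrank_pos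
  have c1 := Alg.numerics_one _ (hN Z1 hZ1) ‖μ2‖ ‖μ1‖ s1 (hpos μ2 hμ2) (hpos μ1 hμ1) hs1 a2 a3
  have c2 := Alg.numerics_two _ (hN Z2 hZ2) ‖μ2‖ ‖μ1‖ s2 (hpos μ2 hμ2) (hpos μ1 hμ1) b1 b4
  obtain ⟨d1, d2⟩ := Alg.unimodular_numerics ‖μ2‖ ‖μ1‖ (hpos μ2 hμ2) (hpos μ1 hμ1) c1 c2
    (hmin μ1 hμ1)
  have e1 := hmin μ hμ
  have e2 := hmax μ hμ
  rw [d1] at e1
  rw [d2] at e2
  exact le_antisymm e2 e1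

end Ctx

end Pool.Agent.H386
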